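import Pool.Agent.PTate.Cy3
import Pool.Agent.PTate.Hilb
import Pool.Agent.PTate.Fixed

/-!
# Double coverings of the line: norms, division by two, the points of order two
-/

set_option autoImplicit false

noncomputable section

namespace Pool.Agent.PTateW

open Pool.Agent.PTate
open Polynomial
open scoped Classical

variable {k O : Type} [Field k] [CommRing O] [Algebra k O] {ζ : k}

theorem two_zeta (C : Cyc k O 2 ζ) : ζ = -1 := C.prim.eq_neg_one_of_two_right

theorem two_ne (C : Cyc k O 2 ζ) : (-1 : k) ≠ 1 := by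
  rw [← two_zeta C]
  exact C.prim.ne_one one_lt_two

theorem two_N (C : Cyc k O 2 ζ) (z : O) : C.N z = z * C.σ z := by
  unfold Cyc.N
  rw [Finset.prod_range_succ, Finset.prod_range_one]
  rfl

theorem two_σy (C : Cyc k O 2 ζ) : C.σ C.y = -C.y := by
  have h : algebraMap k O ζ = -1 := by rw [two_zeta C, map_neg, map_one]
  rw [C.σy, h, neg_one_mul]

theorem two_σ_ne (C : Cyc k O 2 ζ) {z : O} (hz : z ≠ 0) : C.σ z ≠ 0 :=
  (map_ne_zero_iff C.σ C.σ.injective).2 hz

theorem two_exists_N (C : Cyc k O 2 ζ) {z : O} (hz : z ≠ 0) :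
    ∃ h : k[X], h ≠ 0 ∧ aeval C.x h = C.N z ∧ h.natDegree = C.I.ord z ∧
      h.leadingCoeff = ζ ^ (C.e * C.I.ord z) * C.I.lc z ^ 2 := by
  have hfix : C.σ (C.N z) = C.N z := by
    rw [two_N, map_mul]
    have h1 : C.σ (C.σ z) = z := C.pow z
    rw [h1, mul_comm]
  obtain ⟨h, hh⟩ := C.inv _ hfix
  have hN := C.N_ne_zero hz
  have h0 : h ≠ 0 := by
    rintro rfl
    rw [map_zero] at hh
    exact hN hh.symm
  obtain ⟨-, a2, a3⟩ := C.aeval_ord h0
  rw [hh] at a2 a3
  refine ⟨h, h0, hh, ?_, ?_⟩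
  · rw [two_N, C.I.ord_mul _ _ hz (two_σ_ne C hz), C.ord_σ] at a2
    omega
  · rw [← a3, two_N, C.I.lc_mul, C.lc_σ]
    ring

section Closed

variable [IsDedekindDomain O] [IsAlgClosed k]

omit [IsDedekindDomain O] [IsAlgClosed k] in
private theorem form_mul {D f g : k[X]} (hf : ∃ A B, f = A ^ 2 + D * B ^ 2)
    (hg : ∃ A B, g = A ^ 2 + D * B ^ 2) : ∃ A B, f * g = A ^ 2 + D * B ^ 2 := by
  obtain ⟨A, B, rfl⟩ := hf
  obtain ⟨A', B', rfl⟩ := hg
  exact ⟨A * A' - D * B * B', A * B' + A' * B, by ring⟩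

omit [IsDedekindDomain O] [IsAlgClosed k] in
private theorem form_pow {D f : k[X]} (hf : ∃ A B, f = A ^ 2 + D * B ^ 2) (n : ℕ) :
    ∃ A B, f ^ n = A ^ 2 + D * B ^ 2 := by
  induction n with
  | zero => exact ⟨1, 0, by ring⟩
  | succ n ih => rw [pow_succ]; exact form_mul ih hf

omit [IsDedekindDomain O] [IsAlgClosed k] in
private theorem form_prod {D : k[X]} {κ : Type} (F : Finset κ) (f : κ → k[X])
    (hf : ∀ i ∈ F, ∃ A B, f i = A ^ 2 + D * B ^ 2) : ∃ A B, ∏ i ∈ F, f i = A ^ 2 + D * B ^ 2 := by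
  induction F using Finset.induction_on with
  | empty => exact ⟨1, 0, by rw [Finset.prod_empty]; ring⟩
  | insert a F ha ih =>
    rw [Finset.prod_insert ha]
    exact form_mul (hf a (Finset.mem_insert_self _ _))
      (ih fun i hi => hf i (Finset.mem_insert_of_mem hi))

theorem two_N_eq (C : Cyc k O 2 ζ) (c : k) :
    ∃ (a : O) (h : k[X]), a ≠ 0 ∧ h ≠ 0 ∧
      C.N a = (C.x - algebraMap k O c) * aeval C.x h ^ 2 := by
  have hdom : IsDomain O := inferInstance
  have hx0 : C.x - algebraMap k O c ≠ 0 := by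
    have h := (C.aeval_ord (X_sub_C_ne_zero c)).1
    rwa [map_sub, aeval_X, aeval_C] at h
  have hy0 : C.y ≠ 0 := ne_zero_of_span C.I C.span_y
  have hσy : C.σ C.y = -C.y := two_σy C
  have h2 : (2 : k) ≠ 0 := by
    intro h
    apply two_ne C
    linear_combination -h
  obtain ⟨A, B, hAB⟩ : ∃ A B : k[X], ∏ P ∈ C.F, (X - Polynomial.C (C.xc P)) ^ C.m P =
      A ^ 2 + (X - Polynomial.C c) * B ^ 2 := by
    refine form_prod _ _ fun P _ => form_pow ?_ _
    obtain ⟨r, hr⟩ := IsAlgClosed.exists_pow_nat_eq (c - C.xc P) two_pos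
    refine ⟨Polynomial.C r, 1, ?_⟩
    rw [← C_pow, hr, C_sub]
    ring
  have hy2 : C.y ^ 2 = aeval C.x A ^ 2 + (C.x - algebraMap k O c) * aeval C.x B ^ 2 := by
    have h1 := congrArg (aeval C.x) hAB
    rw [map_prod, map_add, map_mul, map_pow, map_pow, map_sub, aeval_X, aeval_C] at h1
    rw [← h1, C.y_pow]
    refine Finset.prod_congr rfl fun P _ => ?_
    rw [map_pow, map_sub, aeval_X, aeval_C]
  obtain ⟨w, hw⟩ := IsAlgClosed.exists_pow_nat_eq (-1 : k) two_pos
  have hw0 : w ≠ 0 := by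
    rintro rfl
    rw [zero_pow two_ne_zero] at hw
    exact one_ne_zero (neg_eq_zero.1 hw.symm)
  have hA : C.y - aeval C.x A ≠ 0 := by
    intro h
    have h1 := congrArg C.σ h
    rw [map_sub, map_zero, C.σ_aeval, hσy] at h1
    have h3 : algebraMap k O 2 * C.y = 0 := by
      rw [map_ofNat]
      linear_combination h - h1
    rcases mul_eq_zero.1 h3 with h4 | h4
    · have h5 := C.I.lc_c (2 : k)
      rw [h4, C.I.lc_zero] at h5
      exact h2 h5.symm
    · exact hy0 h4
  have hB : B ≠ 0 := by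
    rintro rfl
    rw [map_zero, zero_pow two_ne_zero, mul_zero, add_zero] at hy2
    rcases sq_eq_sq_iff_eq_or_eq_neg.1 hy2 with h | h
    · exact hA (sub_eq_zero.2 h)
    · have h1 := congrArg C.σ h
      rw [map_neg, C.σ_aeval, hσy] at h1
      apply hA
      rw [sub_eq_zero]
      linear_combination -h1
  have hwO : algebraMap k O w ^ 2 = -1 := by
    rw [← map_pow, hw, map_neg, map_one]
  refine ⟨algebraMap k O w * (C.y - aeval C.x A), B, mul_ne_zero ?_ hA, hB, ?_⟩
  · intro h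
    have h1 := C.I.lc_c w
    rw [h, C.I.lc_zero] at h1
    exact hw0 h1.symm
  · rw [two_N, map_mul, map_sub, C.σ_aeval, hσy, AlgEquiv.commutes]
    linear_combination (-(C.y - aeval C.x A) * (C.y + aeval C.x A)) * hwO + hy2

private theorem two_fibres (C : Cyc k O 2 ζ) (R : Multiset k) :
    ∃ t : Multiset (MaximalSpectrum O), Prin t ∧ t.map C.xc = 2 • R := by
  induction R using Multiset.induction_on with
  | empty =>
    refine ⟨0, ⟨1, ?_⟩, ?_⟩
    · rw [idl_zero, Ideal.span_singleton_one]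
    · rw [Multiset.map_zero, smul_zero]
  | cons r R ih =>
    obtain ⟨t, ⟨z, hz⟩, ht⟩ := ih
    obtain ⟨P, hP⟩ := C.exists_point r
    refine ⟨(Multiset.range 2).map (fun i => C.act^[i] P) + t,
      ⟨(C.x - algebraMap k O (C.xc P)) * z, ?_⟩, ?_⟩
    · rw [idl_add, ← C.span_fibre P, ← hz, Ideal.span_singleton_mul_span_singleton]
    · have h1 : ∀ i : ℕ, C.xc (C.act^[i] P) = r := by
        intro i
        induction i with
        | zero => exact hP
        | succ i ih => rw [Function.iterate_succ_apply', C.xc_act, ih]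
      rw [Multiset.map_add, ht, Multiset.map_map]
      have h2 : (Multiset.range 2).map (C.xc ∘ fun i => C.act^[i] P) = 2 • {r} := by
        rw [Multiset.nsmul_singleton, Multiset.eq_replicate]
        refine ⟨by rw [Multiset.card_map, Multiset.card_range], ?_⟩
        intro b hb
        obtain ⟨i, -, rfl⟩ := Multiset.mem_map.1 hb
        exact h1 i
      rw [h2, ← smul_add, Multiset.singleton_add]

private theorem two_pt (C : Cyc k O 2 ζ) (P : MaximalSpectrum O) :
    ∃ c' : J O, cl P = c' - C.S c' := by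
  obtain ⟨a, h, ha, hh, hN⟩ := two_N_eq C (C.xc P)
  obtain ⟨s, hs⟩ := exists_idl C.I (A := Ideal.span {a}) (by
    rwa [Ne, Ideal.span_singleton_eq_bot])
  have h1 : aeval C.x ((X - Polynomial.C (C.xc P)) * h ^ 2) = C.N a := by
    rw [hN, map_mul, map_sub, aeval_X, aeval_C, map_pow]
  have h2 := C.roots_N hs.symm h1
  have h3 : ((X - Polynomial.C (C.xc P)) * h ^ 2).roots = {C.xc P} + 2 • h.roots := by
    rw [roots_mul (mul_ne_zero (X_sub_C_ne_zero _) (pow_ne_zero _ hh)), roots_X_sub_C, roots_pow]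
  obtain ⟨t, htp, ht⟩ := two_fibres C h.roots
  have h4 : s.map C.xc = ({P} + t).map C.xc := by
    rw [← h2, h3, Multiset.map_add, ht, Multiset.map_singleton]
  obtain ⟨c, hc⟩ := C.exists_sub h4
  have h5 : (s.map cl).sum = 0 := (sum_cl_eq_zero_iff C.I s).2 ⟨a, hs.symm⟩
  have h6 : (t.map cl).sum = 0 := (sum_cl_eq_zero_iff C.I t).2 htp
  rw [Multiset.map_add, Multiset.sum_add, Multiset.map_singleton, Multiset.sum_singleton, h5, h6,
    add_zero, zero_sub] at hc
  refine ⟨-c, ?_⟩
  rw [map_neg, ← neg_sub', ← hc, neg_neg]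

omit [IsDedekindDomain O] [IsAlgClosed k] in
private theorem two_fact : Fact (Nat.Prime 2) := inferInstance

/-- the involution is the multiplication by `-1` -/
theorem two_S (C : Cyc k O 2 ζ) (c : J O) : C.S c = -c := by
  have h := C.sum_act c
  rw [Finset.sum_range_succ, Finset.sum_range_one] at h
  have h1 : c + C.S c = 0 := h
  exact (neg_eq_of_add_eq_zero_right h1).symm

theorem two_lambda (C : Cyc k O 2 ζ) (c : J O) : ∃ c', c = c' - C.S c' := by
  obtain ⟨s, rfl⟩ := exists_multiset C.I c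
  induction s using Multiset.induction_on with
  | empty =>
    refine ⟨0, ?_⟩
    rw [Multiset.map_zero, Multiset.sum_zero, map_zero, sub_zero]
  | cons P s ih =>
    obtain ⟨c₁, hc₁⟩ := ih
    obtain ⟨c₂, hc₂⟩ := two_pt C P
    refine ⟨c₂ + c₁, ?_⟩
    rw [Multiset.map_cons, Multiset.sum_cons, hc₁, map_add]
    nth_rewrite 1 [hc₂]
    abel

/-- division by two -/
theorem two_half (C : Cyc k O 2 ζ) (c : J O) : ∃ c', 2 • c' = c := by
  obtain ⟨c', h⟩ := two_lambda C c
  refine ⟨c', ?_⟩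
  rw [h, two_S, sub_neg_eq_add, two_nsmul]

/-- the classes of order two -/
theorem two_fixed (C : Cyc k O 2 ζ) {c : J O} (h : 2 • c = 0) :
    ∃ n : MaximalSpectrum O → ℕ, c = ∑ P ∈ C.F, n P • cl P := by
  have hSc : C.S c = c := by
    rw [two_S]
    rw [two_nsmul] at h
    exact neg_eq_of_add_eq_zero_left h
  obtain ⟨s, rfl⟩ := exists_multiset C.I c
  have hS : ((s.map C.act).map cl).sum = (s.map cl).sum := by
    refine Eq.trans ?_ hSc
    exact (J.map_sum C.s s).symm
  obtain ⟨α₀, β₀, hα₀, hβ₀, hαβ₀⟩ := (sum_cl_eq_iff C.I _ _).1 hS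
  obtain ⟨α, hα1, hα2⟩ := exists_monic C.I hα₀
  obtain ⟨β, hβ1, hβ2⟩ := exists_monic C.I hβ₀
  rw [← hα1, ← hβ1] at hαβ₀
  have hα : α ≠ 0 := by
    rintro rfl
    apply hα₀
    rw [← Ideal.span_singleton_eq_bot, ← hα1, Ideal.span_singleton_eq_bot]
  have hβ : β ≠ 0 := by
    rintro rfl
    apply hβ₀
    rw [← Ideal.span_singleton_eq_bot, ← hβ1, Ideal.span_singleton_eq_bot]
  obtain ⟨u, hu⟩ := exists_idl C.I (A := Ideal.span {α}) (by
    rwa [Ne, Ideal.span_singleton_eq_bot])
  obtain ⟨v, hv⟩ := exists_idl C.I (A := Ideal.span {β}) (by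
    rwa [Ne, Ideal.span_singleton_eq_bot])
  have huv : u + s.map C.act = v + s := by
    apply idl_injective C.I
    rw [idl_add, idl_add, hu, hv, hαβ₀]
  have hcard : Multiset.card u = Multiset.card v := by
    have h1 := congrArg Multiset.card huv
    rw [Multiset.card_add, Multiset.card_add, Multiset.card_map] at h1
    omega
  have hord : C.I.ord α = C.I.ord β := by
    rw [← card_eq C.I hu.symm, ← card_eq C.I hv.symm, hcard]
  have hxc : u.map C.xc = v.map C.xc := by
    have h1 := congrArg (Multiset.map C.xc) huv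
    rw [Multiset.map_add, Multiset.map_add, Multiset.map_map] at h1
    have h2 : s.map (C.xc ∘ C.act) = s.map C.xc := Multiset.map_congr rfl fun P _ => C.xc_act P
    rw [h2] at h1
    exact add_right_cancel h1
  obtain ⟨f, hf0, hf1, hf2, hf3⟩ := two_exists_N C hα
  obtain ⟨g, hg0, hg1, hg2, hg3⟩ := two_exists_N C hβ
  have hfg : f = g := by
    rw [(IsAlgClosed.splits f).eq_prod_roots, (IsAlgClosed.splits g).eq_prod_roots,
      C.roots_N hu.symm hf1, C.roots_N hv.symm hg1, hxc, hf3, hg3, hord, hα2, hβ2]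
  have hN : C.N α = C.N β := by
    rw [← hf1, ← hg1, hfg]
  obtain ⟨z, hz, hz1⟩ := C.hilbert hα hβ hN
  obtain ⟨t, ht⟩ := exists_idl C.I (A := Ideal.span {z}) (by
    rwa [Ne, Ideal.span_singleton_eq_bot])
  have hσz : Ideal.span {C.σ z} = idl (t.map C.act) := span_mv C.s ht.symm
  have h1 : Ideal.span {z} * idl (s.map C.act) = Ideal.span {C.σ z} * idl s := by
    have h2 : Ideal.span {β} * (Ideal.span {z} * idl (s.map C.act)) =
        Ideal.span {β} * (Ideal.span {C.σ z} * idl s) := by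
      calc Ideal.span {β} * (Ideal.span {z} * idl (s.map C.act)) =
            Ideal.span {β * z} * idl (s.map C.act) := by
              rw [← mul_assoc, Ideal.span_singleton_mul_span_singleton]
        _ = Ideal.span {α} * idl (s.map C.act) * Ideal.span {C.σ z} := by
              rw [← hz1, ← Ideal.span_singleton_mul_span_singleton]
              ring
        _ = Ideal.span {β} * (Ideal.span {C.σ z} * idl s) := by
              rw [hαβ₀]
              ring
    exact mul_left_cancel₀ (by rwa [Ne, Ideal.zero_eq_bot, Ideal.span_singleton_eq_bot]) h2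
  have hst : s.map C.act + t = t.map C.act + s := by
    apply idl_injective C.I
    rw [idl_add, idl_add, ht, ← hσz, mul_comm, h1]
  have h3 := C.inv_sum hst
  have ht0 : (t.map cl).sum = 0 := (sum_cl_eq_zero_iff C.I t).2 ⟨z, ht.symm⟩
  rw [ht0, sub_zero] at h3
  refine ⟨fun P => (((s.count P : ℤ) - t.count P) % 2).toNat, ?_⟩
  rw [h3]
  refine Finset.sum_congr rfl fun P hP => ?_
  dsimp only
  generalize ((s.count P : ℤ) - t.count P) = d
  have h4 : ((d % 2).toNat : ℤ) = d % 2 := Int.toNat_of_nonneg (Int.emod_nonneg _ two_ne_zero)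
  rw [← natCast_zsmul, h4]
  conv_lhs => rw [← Int.mul_ediv_add_emod d 2]
  have h5 : ((2 : ℤ) * (d / 2)) • cl P = 0 := by
    have h6 : ((2 : ℤ) * (d / 2)) • cl P = (d / 2) • ((2 : ℤ) • cl P) := by
      rw [← mul_zsmul, mul_comm]
    have h7 : (2 : ℤ) • cl P = 0 := by
      have h8 := C.nsmul_cl hP
      rw [← h8, ← natCast_zsmul]
      rfl
    rw [h6, h7, zsmul_zero]
  rw [add_zsmul, h5, zero_add]

theorem two_finite (C : Cyc k O 2 ζ) : {c : J O | 2 • c = 0}.Finite := by
  refine (Set.finite_range (fun n : C.F → Fin 2 => ∑ P : C.F, (n P : ℕ) • cl P.1)).subset ?_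
  intro c hc
  obtain ⟨n, hn⟩ := two_fixed C hc
  refine ⟨fun P => ⟨n P.1 % 2, Nat.mod_lt _ two_pos⟩, ?_⟩
  rw [hn, ← Finset.sum_coe_sort C.F]
  refine Finset.sum_congr rfl fun P _ => ?_
  show (n P.1 % 2) • cl P.1 = n P.1 • cl P.1
  conv_rhs => rw [← Nat.mod_add_div (n P.1) 2, add_smul, mul_comm, mul_smul, C.nsmul_cl P.2,
    smul_zero, add_zero]

end Closed

end Pool.Agent.PTateW
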