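import Pool.Agent.PTateW.Single

/-!
# The Lie algebra is the full product
-/

set_option autoImplicit false
set_option linter.unusedSectionVars false

noncomputable section

namespace Pool.Agent.PTateW

open Pool.Agent.HTate

section Ideal

variable {N : Type} [AddCommGroup N] [Module ℤ_[2] N] [Module.IsTorsionFree ℤ_[2] N]
  {e : N →ₗ[ℤ_[2]] N →ₗ[ℤ_[2]] ℤ_[2]}

omit [Module.IsTorsionFree ℤ_[2] N] in
private theorem alt_self (hsk : ∀ x y, e x y = -e y x) (x : N) : e x x = 0 := by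
  have h1 := hsk x x
  have h2 : (2 : ℤ_[2]) * e x x = 0 := by linear_combination h1
  exact (mul_eq_zero.1 h2).resolve_left two_ne_zero

theorem not_one {z : ℤ_[2]} (h : (1 : ℤ_[2]) = 2 * z) : False := by
  have h1 : IsUnit (2 : ℤ_[2]) := IsUnit.of_mul_eq_one _ h.symm
  have h2 := (PadicInt.prime_p (p := 2)).not_isUnit
  exact h2 (by exact_mod_cast h1)

omit [Module.IsTorsionFree ℤ_[2] N] in
/-- `[av u w, tv u] = 2 e(u, w) tv u` -/
theorem bracket_av_tv (hsk : ∀ x y, e x y = -e y x) (u w : N) :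
    av e u w * tv e u - tv e u * av e u w = (2 * e u w) • tv e u := by
  rw [bracket_tv (isSp_av hsk u w) u, av_apply, alt_self hsk, zero_smul, zero_add, av_smul_left,
    av_self, smul_smul, mul_comm]

/-- an element of an ideal, up to a factor -/
private def Bg (J : Submodule ℤ_[2] (Module.End ℤ_[2] N)) (Z : Module.End ℤ_[2] N) : Prop :=
  ∃ β : ℤ_[2], β ≠ 0 ∧ β • Z ∈ J

omit [Module.IsTorsionFree ℤ_[2] N] in
private theorem Bg.add {J : Submodule ℤ_[2] (Module.End ℤ_[2] N)} {Z Z' : Module.End ℤ_[2] N}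
    (h : Bg J Z) (h' : Bg J Z') : Bg J (Z + Z') := by
  obtain ⟨β, h1, h2⟩ := h
  obtain ⟨γ, h3, h4⟩ := h'
  refine ⟨β * γ, mul_ne_zero h1 h3, ?_⟩
  have h5 : (β * γ) • (Z + Z') = γ • (β • Z) + β • (γ • Z') := by module
  rw [h5]
  exact J.add_mem (J.smul_mem _ h2) (J.smul_mem _ h4)

omit [Module.IsTorsionFree ℤ_[2] N] in
private theorem Bg.smul {J : Submodule ℤ_[2] (Module.End ℤ_[2] N)} {Z : Module.End ℤ_[2] N}
    (h : Bg J Z) (c : ℤ_[2]) : Bg J (c • Z) := by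
  obtain ⟨β, h1, h2⟩ := h
  refine ⟨β, h1, ?_⟩
  rw [smul_comm]
  exact J.smul_mem _ h2

omit [Module.IsTorsionFree ℤ_[2] N] in
private theorem Bg.of_smul {J : Submodule ℤ_[2] (Module.End ℤ_[2] N)} {Z : Module.End ℤ_[2] N}
    {c : ℤ_[2]} (hc : c ≠ 0) (h : Bg J (c • Z)) : Bg J Z := by
  obtain ⟨β, h1, h2⟩ := h
  exact ⟨β * c, mul_ne_zero h1 hc, by rw [mul_smul]; exact h2⟩

omit [Module.IsTorsionFree ℤ_[2] N] in
private theorem Bg.span {J : Submodule ℤ_[2] (Module.End ℤ_[2] N)} (h : ∀ u, Bg J (tv e u))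
    {Z : Module.End ℤ_[2] N} (hZ : Z ∈ Submodule.span ℤ_[2] (Set.range (tv e))) : Bg J Z := by
  induction hZ using Submodule.span_induction with
  | mem Z hZ =>
    obtain ⟨u, rfl⟩ := hZ
    exact h u
  | zero => exact ⟨1, one_ne_zero, by rw [smul_zero]; exact J.zero_mem⟩
  | add Z Z' _ _ h1 h2 => exact h1.add h2
  | smul c Z _ h1 => exact h1.smul c

omit [Module.IsTorsionFree ℤ_[2] N] in
private theorem tv_zero : tv e (0 : N) = 0 := by
  have := tv_smul (e := e) 0 (0 : N)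
  simpa using this

omit [Module.IsTorsionFree ℤ_[2] N] in
private theorem Bg.lie {J : Submodule ℤ_[2] (Module.End ℤ_[2] N)}
    (hid : ∀ X ∈ J, ∀ Y, IsSp e Y → Y * X - X * Y ∈ J) {Z Y : Module.End ℤ_[2] N}
    (h : Bg J Z) (hY : IsSp e Y) : Bg J (Y * Z - Z * Y) := by
  obtain ⟨β, h1, h2⟩ := h
  refine ⟨β, h1, ?_⟩
  have h3 := hid _ h2 Y hY
  rw [mul_smul_comm, smul_mul_assoc, ← smul_sub] at h3
  exact h3

omit [Module.IsTorsionFree ℤ_[2] N] in
/-- a nonzero ideal of the symplectic Lie algebra -/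
private theorem ideal_tv (hsk : ∀ x y, e x y = -e y x) (hnd : ∀ u : N, u ≠ 0 → ∃ w, e u w ≠ 0)
    {J : Submodule ℤ_[2] (Module.End ℤ_[2] N)} (hJ : ∀ X ∈ J, IsSp e X)
    (hid : ∀ X ∈ J, ∀ Y, IsSp e Y → Y * X - X * Y ∈ J) {X : Module.End ℤ_[2] N} (hX : X ∈ J)
    (hX0 : X ≠ 0) (u : N) : Bg J (tv e u) := by
  have halt := alt_self hsk
  -- a transvection with `e (X v, v) ≠ 0`
  obtain ⟨v, hv⟩ : ∃ v, e (X v) v ≠ 0 := by
    by_contra hcon
    push Not at hcon
    apply hX0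
    ext x
    rw [LinearMap.zero_apply]
    by_contra hx
    obtain ⟨w, hw⟩ := hnd _ hx
    apply hw
    have h1 := hcon (x + w)
    rw [map_add, map_add, map_add, LinearMap.add_apply, LinearMap.add_apply, hcon, hcon] at h1
    have h2 := hJ X hX x w
    have h3 := hsk (X w) x
    have h4 : (2 : ℤ_[2]) * e (X x) w = 0 := by linear_combination h1 + h2 - h3
    exact (mul_eq_zero.1 h4).resolve_left two_ne_zero
  have hb1 : Bg J X := ⟨1, one_ne_zero, by rw [one_smul]; exact hX⟩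
  -- `tv v` belongs to the ideal
  have hbv : Bg J (tv e v) := by
    have h1 := (hb1.lie hid (isSp_tv hsk v)).smul (-1)
    have h2 : (-1 : ℤ_[2]) • (tv e v * X - X * tv e v) = av e (X v) v := by
      rw [← bracket_tv (hJ X hX) v]
      module
    rw [h2] at h1
    have h3 := (h1.lie hid (isSp_tv hsk v)).smul (-1)
    have h4 : (-1 : ℤ_[2]) • (tv e v * av e (X v) v - av e (X v) v * tv e v) =
        (2 * e v (X v)) • tv e v := by
      rw [← bracket_av_tv hsk v (X v), av_comm (X v) v]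
      module
    rw [h4] at h3
    refine Bg.of_smul (mul_ne_zero two_ne_zero ?_) h3
    rw [hsk]
    exact neg_ne_zero.2 hv
  -- the step
  have step : ∀ v w : N, Bg J (tv e v) → e v w ≠ 0 → Bg J (tv e w) := by
    intro v w hv hvw
    have h1 := hv.lie hid (isSp_tv hsk w)
    rw [bracket_tv (isSp_tv hsk w) v, tv_apply, av_smul_left] at h1
    have h2 := Bg.of_smul hvw h1
    have h3 := (h2.lie hid (isSp_tv hsk w)).smul (-1)
    have h4 : (-1 : ℤ_[2]) • (tv e w * av e w v - av e w v * tv e w) =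
        (2 * e w v) • tv e w := by
      rw [← bracket_av_tv hsk w v]
      module
    rw [h4] at h3
    refine Bg.of_smul (mul_ne_zero two_ne_zero ?_) h3
    rw [hsk]
    exact neg_ne_zero.2 hvw
  by_cases hu : u = 0
  · rw [hu, tv_zero]
    exact ⟨1, one_ne_zero, by rw [smul_zero]; exact J.zero_mem⟩
  by_cases hvu : e v u ≠ 0
  · exact step v u hbv hvu
  push Not at hvu
  have hv0 : v ≠ 0 := by
    rintro rfl
    rw [map_zero] at hv
    exact hv rfl
  obtain ⟨w1, hw1⟩ := hnd v hv0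
  obtain ⟨w2, hw2⟩ := hnd u hu
  obtain ⟨w, hw, hw'⟩ : ∃ w, e v w ≠ 0 ∧ e u w ≠ 0 := by
    by_cases h1 : e u w1 ≠ 0
    · exact ⟨w1, hw1, h1⟩
    by_cases h2 : e v w2 ≠ 0
    · exact ⟨w2, h2, hw2⟩
    push Not at h1 h2
    refine ⟨w1 + w2, ?_, ?_⟩
    · rw [map_add, h2, add_zero]
      exact hw1
    · rw [map_add, h1, zero_add]
      exact hw2
  refine step w u (step v w hbv hw) ?_
  rw [hsk]
  exact neg_ne_zero.2 hw'

end Ideal

variable {σ ι : Type} [DecidableEq σ] [DecidableEq ι]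
  {M : σ → Type} [∀ s, AddCommGroup (M s)] [∀ s, Module ℤ_[2] (M s)]
  [∀ s, Module.Finite ℤ_[2] (M s)] [∀ s, Module.IsTorsionFree ℤ_[2] (M s)] {S : σ → Finset ι}
  {e : ∀ s, M s →ₗ[ℤ_[2]] M s →ₗ[ℤ_[2]] ℤ_[2]} {P : ∀ s, ι → M s} {V : Set (∀ s, M s)}
  {L : Submodule ℤ_[2] (∀ s, Module.End ℤ_[2] (M s))}

private theorem lie_mod_two (h : LieW S e P V L) (s : σ) {Z : Module.End ℤ_[2] (M s)}
    (hZ : IsSp (e s) Z) : ∃ X ∈ L, Cg1 (X s) Z := by
  let Q : Submodule ℤ_[2] (Module.End ℤ_[2] (M s)) :=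
    { carrier := {Z | ∃ X ∈ L, Cg1 (X s) Z}
      add_mem' := by
        rintro Z Z' ⟨X, hX, h⟩ ⟨X', hX', h'⟩
        exact ⟨X + X', L.add_mem hX hX', h.add h'⟩
      zero_mem' := ⟨0, L.zero_mem, Cg1.refl _⟩
      smul_mem' := by
        rintro c Z ⟨X, hX, h⟩
        exact ⟨c • X, L.smul_mem c hX, Cg1.smul c h⟩ }
  have hQ : ∀ Z, Z ∈ Q ↔ ∃ X ∈ L, Cg1 (X s) Z := fun _ => Iff.rfl
  rw [← hQ]
  refine single_full (h.lat s) Q ?_ ?_ ?_ hZ
  · rintro Z ⟨X, hX, hc⟩ Z' hZ'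
    exact ⟨X, hX, hc.trans hZ'⟩
  · rintro Z ⟨X, hX, hc⟩ Z' ⟨X', hX', hc'⟩
    refine ⟨X * X' - X' * X, h.lie X hX X' hX', ?_⟩
    have h1 := (hc.mul hc').add (Cg1.smul (-1) (hc'.mul hc))
    have e1 : (X * X' - X' * X) s = X s * X' s + (-1 : ℤ_[2]) • (X' s * X s) := by
      simp [sub_eq_add_neg]
    have e2 : Z * Z' - Z' * Z = Z * Z' + (-1 : ℤ_[2]) • (Z' * Z) := by
      simp [sub_eq_add_neg]
    rw [e1, e2]
    exact h1
  · intro i hi j hj hij
    obtain ⟨u, hu, hus⟩ := h.edge s i hi j hj hij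
    obtain ⟨X, hX, c, hc⟩ := h.real u hu
    exact ⟨c, X, hX, by rw [← hus]; exact hc s⟩

/-- The symplectic Lie algebra. -/
private def spOne (s : σ) (e : ∀ s, M s →ₗ[ℤ_[2]] M s →ₗ[ℤ_[2]] ℤ_[2]) :
    Submodule ℤ_[2] (Module.End ℤ_[2] (M s)) where
  carrier := {X | IsSp (e s) X}
  add_mem' := fun ha hb => ha.add hb
  zero_mem' := fun x y => by simp
  smul_mem' := fun c X hX => hX.smul c

/-- the components of the Lie algebra are full -/
private theorem lie_onto (h : LieW S e P V L) (s : σ) {Z : Module.End ℤ_[2] (M s)}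
    (hZ : IsSp (e s) Z) : ∃ X ∈ L, X s = Z := by
  have hNL : spOne s e ≤ L.map (LinearMap.proj s) := by
    have hfg : (spOne s e).FG := IsNoetherian.noetherian _
    refine Submodule.le_of_le_smul_of_le_jacobson_bot (I := Ideal.span {(2 : ℤ_[2])}) hfg ?_ ?_
    · rw [IsLocalRing.jacobson_eq_maximalIdeal ⊥ bot_ne_top]
      rw [Ideal.span_le, Set.singleton_subset_iff]
      have : (2 : ℤ_[2]) ∈ IsLocalRing.maximalIdeal ℤ_[2] := by
        rw [PadicInt.maximalIdeal_eq_span_p]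
        exact Ideal.mem_span_singleton_self _
      exact this
    · intro Y hY
      obtain ⟨W, hW, hc⟩ := lie_mod_two h s hY
      obtain ⟨Z, hZ⟩ := hc.symm.exists_end
      have hZs : Z ∈ spOne s e := by
        refine IsSp.half ?_
        have : (2 : ℤ_[2]) • Z = Y + (-1 : ℤ_[2]) • W s := by
          rw [hZ, neg_one_smul]
          abel
        rw [this]
        exact IsSp.add hY ((h.sp W hW s).smul (-1))
      rw [hZ]
      exact Submodule.add_mem_sup ⟨W, hW, rfl⟩ (Submodule.smul_mem_smul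
        (Ideal.mem_span_singleton_self _) hZs)
  obtain ⟨X, hX, hXs⟩ := hNL hZ
  exact ⟨X, hX, hXs⟩

/-- The ideal of the components of the elements of `L` whose components in `A` vanish. -/
private def Jd (L : Submodule ℤ_[2] (∀ s, Module.End ℤ_[2] (M s))) (s : σ) (A : Finset σ) :
    Submodule ℤ_[2] (Module.End ℤ_[2] (M s)) where
  carrier := {Z | ∃ Y ∈ L, Y s = Z ∧ ∀ t ∈ A, Y t = 0}
  add_mem' := by
    rintro Z Z' ⟨Y, hY, rfl, h⟩ ⟨Y', hY', rfl, h'⟩
    exact ⟨Y + Y', L.add_mem hY hY', rfl, fun t ht => by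
      rw [Pi.add_apply, h t ht, h' t ht, add_zero]⟩
  zero_mem' := ⟨0, L.zero_mem, rfl, fun t _ => rfl⟩
  smul_mem' := by
    rintro c Z ⟨Y, hY, rfl, h⟩
    exact ⟨c • Y, L.smul_mem c hY, rfl, fun t ht => by rw [Pi.smul_apply, h t ht, smul_zero]⟩

private theorem mem_Jd {s : σ} {A : Finset σ} {Z : Module.End ℤ_[2] (M s)} :
    Z ∈ Jd L s A ↔ ∃ Y ∈ L, Y s = Z ∧ ∀ t ∈ A, Y t = 0 := Iff.rfl

private theorem Jd_sp (h : LieW S e P V L) (s : σ) (A : Finset σ) :
    ∀ X ∈ Jd L s A, IsSp (e s) X := by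
  rintro X ⟨Y, hY, rfl, -⟩
  exact h.sp Y hY s

private theorem Jd_ideal (h : LieW S e P V L) (s : σ) (A : Finset σ) :
    ∀ X ∈ Jd L s A, ∀ Y, IsSp (e s) Y → Y * X - X * Y ∈ Jd L s A := by
  rintro X ⟨Z, hZ, rfl, hA⟩ Y hY
  obtain ⟨W, hW, rfl⟩ := lie_onto h s hY
  refine ⟨W * Z - Z * W, h.lie W hW Z hZ, rfl, fun t ht => ?_⟩
  rw [Pi.sub_apply, Pi.mul_apply, Pi.mul_apply, hA t ht, mul_zero, zero_mul, sub_zero]

private theorem nd (h : LieW S e P V L) (s : σ) (u : M s) (hu : u ≠ 0) : ∃ w, e s u w ≠ 0 := by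
  by_contra hcon
  push Not at hcon
  apply hu
  have : Module.Free ℤ_[2] (M s) := inferInstance
  refine (Module.forall_dual_apply_eq_zero_iff ℤ_[2] u).1 fun φ => ?_
  obtain ⟨w, hw⟩ := Lat.perfect (M := fun _ : Unit => M s) (h.lat s) () φ
  rw [← hw, hcon]

/-- a nonzero ideal is big -/
private theorem Jd_big (h : LieW S e P V L) (s : σ) (A : Finset σ) {X : Module.End ℤ_[2] (M s)}
    (hX : X ∈ Jd L s A) (hX0 : X ≠ 0) {Z : Module.End ℤ_[2] (M s)} (hZ : IsSp (e s) Z) :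
    Bg (Jd L s A) Z :=
  Bg.span (fun u => ideal_tv ((h.lat s).skew ()) (nd h s) (Jd_sp h s A) (Jd_ideal h s A) hX hX0 u)
    ((h.lat s).sp_span () hZ)

/-- the separation of two components -/
private theorem sep_one (h : LieW S e P V L) {s t : σ} {u : ∀ s, M s} (hu : u ∈ V)
    (hut : u t = 0) (hus : ∃ w z, e s w (u s) = 1 + 2 * z) : ∃ X ∈ Jd L s {t}, X ≠ 0 := by
  by_contra hcon
  push Not at hcon
  have hcon' : ∀ Y ∈ L, Y t = 0 → Y s = 0 := fun Y hY hYt =>
    hcon (Y s) ⟨Y, hY, rfl, fun t' ht' => by rw [Finset.mem_singleton.1 ht']; exact hYt⟩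
  obtain ⟨X, hX, c, hc⟩ := h.real u hu
  obtain ⟨w, z, hw⟩ := hus
  have hsk := (h.lat s).skew ()
  -- all brackets with `X s` are even
  have key : ∀ Y, IsSp (e s) Y → Cg1 (Y * X s - X s * Y) 0 := by
    intro Y hY
    obtain ⟨Y', hY', rfl⟩ := lie_onto h s hY
    have h1 : Cg1 ((Y' * X - X * Y') t) (Y' t * tv (e t) (u t) - tv (e t) (u t) * Y' t) := by
      rw [Pi.sub_apply, Pi.mul_apply, Pi.mul_apply]
      exact Cg1.bracket_scalar (hc t)
    rw [hut, tv_zero, mul_zero, zero_mul, sub_zero] at h1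
    obtain ⟨Z, hZ⟩ := h1.exists_end
    rw [zero_add] at hZ
    have hL := h.lie Y' hY' X hX
    have hZs : IsSp (e t) Z := by
      refine IsSp.half ?_
      rw [← hZ]
      exact h.sp _ hL t
    obtain ⟨Z', hZ', rfl⟩ := lie_onto h t hZs
    have h2 := hcon' (Y' * X - X * Y' - (2 : ℤ_[2]) • Z') (L.sub_mem hL (L.smul_mem _ hZ')) (by
      rw [Pi.sub_apply, Pi.smul_apply, hZ, sub_self])
    intro x
    refine ⟨Z' s x, ?_⟩
    have h3 := LinearMap.congr_fun h2 x
    rw [Pi.sub_apply, LinearMap.sub_apply, Pi.smul_apply, LinearMap.smul_apply,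
      LinearMap.zero_apply, sub_eq_zero] at h3
    rw [LinearMap.zero_apply, zero_add, ← h3]
    rfl
  have h1 := (Cg1.bracket_scalar (X := tv (e s) w) (hc s)).symm.trans (key _ (isSp_tv hsk w))
  rw [bracket_tv (isSp_tv hsk w) (u s), tv_apply, av_smul_left] at h1
  obtain ⟨y, hy⟩ := h1 (u s)
  rw [LinearMap.smul_apply, av_apply, alt_self hsk, zero_smul, add_zero, LinearMap.zero_apply,
    zero_add] at hy
  have h2 : e s w (e s (u s) w • (e s (u s) w • u s)) = e s w ((2 : ℤ_[2]) • y) := by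
    rw [hy]
  rw [map_smul, map_smul, map_smul, hsk (u s) w, hw, smul_eq_mul, smul_eq_mul, smul_eq_mul] at h2
  refine not_one (z := e s w y - 3 * z - 6 * z ^ 2 - 4 * z ^ 3) ?_
  linear_combination h2

/-- two components are independent -/
private theorem sep_two (h : LieW S e P V L) {s t : σ} (hst : s ≠ t)
    (hs0 : ∃ Z : Module.End ℤ_[2] (M s), IsSp (e s) Z ∧ Z ≠ 0) :
    ∃ X ∈ Jd L s {t}, X ≠ 0 := by
  rcases h.sep s t hst with ⟨u, hu, hut, hus⟩ | ⟨u, hu, hus, hut⟩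
  · exact sep_one h hu hut hus
  · obtain ⟨X', ⟨X, hX, rfl, hXs⟩, hX0⟩ := sep_one h hu hus hut
    obtain ⟨Z', hZ', hZ0⟩ := hs0
    obtain ⟨Z, hZ, rfl⟩ := lie_onto h s hZ'
    obtain ⟨β, hβ, Y, hY, hYt, hYs⟩ := Jd_big h t {s} ⟨X, hX, rfl, hXs⟩ hX0 (h.sp Z hZ t)
    refine ⟨β • Z s, ⟨β • Z - Y, L.sub_mem (L.smul_mem _ hZ) hY, ?_, ?_⟩, ?_⟩
    · rw [Pi.sub_apply, Pi.smul_apply, hYs s (Finset.mem_singleton_self s), sub_zero]
    · intro t' ht'
      rw [Finset.mem_singleton.1 ht', Pi.sub_apply, Pi.smul_apply, hYt, sub_self]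
    · intro h0
      apply hZ0
      ext x
      have h1 := LinearMap.congr_fun h0 x
      rw [LinearMap.smul_apply, LinearMap.zero_apply] at h1
      rw [LinearMap.zero_apply]
      exact (smul_eq_zero.1 h1).resolve_left hβ

/-- the elements of the symplectic Lie algebra of one component, up to a factor -/
private theorem big_all (h : LieW S e P V L) (s : σ) (A : Finset σ) (hA : s ∉ A)
    {Z : Module.End ℤ_[2] (M s)} (hZ : IsSp (e s) Z) : Bg (Jd L s A) Z := by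
  induction A using Finset.induction_on generalizing Z with
  | empty =>
    obtain ⟨X, hX, rfl⟩ := lie_onto h s hZ
    exact ⟨1, one_ne_zero, X, hX, (one_smul _ _).symm, by simp⟩
  | insert t A ht ih =>
    have hsA : s ∉ A := fun hh => hA (Finset.mem_insert_of_mem hh)
    have hst : s ≠ t := fun hh => hA (by rw [hh]; exact Finset.mem_insert_self _ _)
    have hsk := (h.lat s).skew ()
    by_cases hs0 : ∃ Z : Module.End ℤ_[2] (M s), IsSp (e s) Z ∧ Z ≠ 0
    · obtain ⟨X, hX, hX0⟩ := sep_two h hst hs0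
      refine Bg.span (e := e s) (fun u => ?_) ((h.lat s).sp_span () hZ)
      by_cases hu : u = 0
      · rw [hu, tv_zero]
        exact ⟨1, one_ne_zero, by rw [smul_zero]; exact (Jd L s _).zero_mem⟩
      obtain ⟨w, hw⟩ := nd h s u hu
      obtain ⟨β, hβ, Y, hY, hYs, hYA⟩ := ih hsA (isSp_av hsk u w)
      obtain ⟨γ, hγ, Y', hY', hYs', hYt⟩ := Jd_big h s {t} hX hX0 (isSp_tv hsk u)
      refine ⟨β * γ * (2 * e s u w), mul_ne_zero (mul_ne_zero hβ hγ) (mul_ne_zero two_ne_zero hw),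
        Y * Y' - Y' * Y, h.lie Y hY Y' hY', ?_, ?_⟩
      · rw [Pi.sub_apply, Pi.mul_apply, Pi.mul_apply, hYs, hYs', smul_mul_smul_comm,
          smul_mul_smul_comm, mul_comm γ β, ← smul_sub, bracket_av_tv hsk, smul_smul]
      · intro t' ht'
        rw [Pi.sub_apply, Pi.mul_apply, Pi.mul_apply]
        rcases Finset.mem_insert.1 ht' with rfl | ht'
        · rw [hYt t' (Finset.mem_singleton_self _), mul_zero, zero_mul, sub_zero]
        · rw [hYA t' ht', mul_zero, zero_mul, sub_zero]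
    · push Not at hs0
      rw [hs0 Z hZ]
      exact ⟨1, one_ne_zero, by rw [smul_zero]; exact (Jd L s _).zero_mem⟩

private theorem sat_all (h : LieW S e P V L) {β : ℤ_[2]} (hβ : β ≠ 0)
    {X : ∀ s, Module.End ℤ_[2] (M s)} (hX : β • X ∈ L) : X ∈ L := by
  have key : ∀ (n : ℕ), (2 : ℤ_[2]) ^ n • X ∈ L → X ∈ L := by
    intro n
    induction n with
    | zero => intro h1; rw [pow_zero, one_smul] at h1; exact h1
    | succ n ih =>
      intro h1
      apply ih
      apply h.sat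
      rw [smul_smul, ← pow_succ']
      exact h1
  refine key β.valuation ?_
  have h1 := PadicInt.unitCoeff_spec hβ
  have h2 : (2 : ℤ_[2]) ^ β.valuation =
      ((PadicInt.unitCoeff hβ)⁻¹ : ℤ_[2]ˣ) * β := by
    have h3 := congrArg (fun t => (((PadicInt.unitCoeff hβ)⁻¹ : ℤ_[2]ˣ) : ℤ_[2]) * t) h1
    simp only [← mul_assoc, Units.inv_mul, one_mul] at h3
    rw [h3]
    norm_cast
  rw [h2, mul_smul]
  exact L.smul_mem _ hX

/-- The Lie algebra is the product of the symplectic Lie algebras. -/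
theorem lieW_full [Fintype σ] (h : LieW S e P V L) (X : ∀ s, Module.End ℤ_[2] (M s))
    (hX : ∀ s, IsSp (e s) (X s)) : X ∈ L := by
  rw [← Finset.univ_sum_single X]
  refine L.sum_mem fun s _ => ?_
  obtain ⟨β, hβ, Y, hY, hYs, hYA⟩ := big_all h s (Finset.univ.erase s)
    (Finset.notMem_erase s _) (hX s)
  refine sat_all h hβ ?_
  have h1 : β • (Pi.single s (X s) : ∀ s, Module.End ℤ_[2] (M s)) = Y := by
    funext t
    rw [Pi.smul_apply]
    by_cases ht : t = s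
    · subst ht
      rw [Pi.single_eq_same, hYs]
    · rw [Pi.single_eq_of_ne ht, smul_zero, hYA t (Finset.mem_erase.2 ⟨ht, Finset.mem_univ t⟩)]
  rw [h1]
  exact hY

end Pool.Agent.PTateW
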