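import Pool.Agent.PTate.TGal
import Pool.Agent.PTateW.GalTwo

/-!
# The 2-adic Tate module of a double covering
-/

set_option autoImplicit false

noncomputable section

namespace Pool.Agent.PTateW

open Pool.Agent.PTate
open Polynomial
open scoped Classical

variable {k O : Type} [Field k] [CommRing O] [Algebra k O] {ζ : k}
  [IsDedekindDomain O] [IsAlgClosed k]

section General

variable {A : Type} [AddCommGroup A]

theorem tt_add (t u : TM 2 A) (n : ℕ) :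
    ((t + u : TM 2 A) : ℕ → A) n = (t : ℕ → A) n + (u : ℕ → A) n := rfl

theorem tt_sub (t u : TM 2 A) (n : ℕ) :
    ((t - u : TM 2 A) : ℕ → A) n = (t : ℕ → A) n - (u : ℕ → A) n := rfl

theorem tt_two (u : TM 2 A) (n : ℕ) :
    (((2 : ℤ_[2]) • u : TM 2 A) : ℕ → A) (n + 1) = (u : ℕ → A) n := by
  have h := TM.nat_smul_apply 2 u (n + 1)
  rw [Nat.cast_ofNat] at h
  rw [h]
  exact u.2.2 n

theorem tt_sum {κ : Type} (P : κ → TM 2 A) (R : Finset κ) (n : ℕ) :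
    ((∑ i ∈ R, P i : TM 2 A) : ℕ → A) n = ∑ i ∈ R, (P i : ℕ → A) n := by
  rw [AddSubgroup.val_finsetSum, Finset.sum_apply]

theorem tt_nsmul (m : ℕ) (u : TM 2 A) (n : ℕ) :
    ((m • u : TM 2 A) : ℕ → A) n = m • (u : ℕ → A) n := rfl

theorem tt_one (u : TM 2 A) : 2 • (u : ℕ → A) 1 = 0 := by
  have h := TM.pow_smul u 1
  rwa [pow_one] at h

/-- an element is divisible by two if its first component vanishes -/
theorem tt_dvd {t : TM 2 A} (h : (t : ℕ → A) 1 = 0) : ∃ u : TM 2 A, t = (2 : ℤ_[2]) • u := by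
  obtain ⟨u, hu⟩ := (TM.apply_eq_zero_iff t 1).1 h
  exact ⟨u, by rw [hu, pow_one, Nat.cast_ofNat]⟩

theorem tt_dvd4 {t : TM 2 A} (h : (t : ℕ → A) 2 = 0) : ∃ u : TM 2 A, t = (4 : ℤ_[2]) • u := by
  obtain ⟨u, hu⟩ := (TM.apply_eq_zero_iff t 2).1 h
  exact ⟨u, by rw [hu, Nat.cast_ofNat]; norm_num⟩

end General

theorem tw_finite (C : Cyc k O 2 ζ) : Module.Finite ℤ_[2] (TM 2 (J O)) := TM.finite (two_finite C)

theorem tw_z (C : Cyc k O 2 ζ) (t : TM 2 (J O)) : C.z t = -t := by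
  refine Subtype.ext (funext fun n => ?_)
  exact two_S C _

/-- generators of the Tate module -/
theorem tw_exists_P (C : Cyc k O 2 ζ) :
    ∃ P : MaximalSpectrum O → TM 2 (J O),
      (∀ Q ∈ C.F, (P Q : ℕ → J O) 1 = cl Q) ∧
      (∀ t : TM 2 (J O), ∃ (c : MaximalSpectrum O → ℕ) (u : TM 2 (J O)),
        t = ∑ Q ∈ C.F, c Q • P Q + (2 : ℤ_[2]) • u) ∧
      ∃ u : TM 2 (J O), ∑ Q ∈ C.F, C.m Q • P Q = (2 : ℤ_[2]) • u := by
  have h1 : ∀ Q : MaximalSpectrum O, ∃ t : TM 2 (J O), Q ∈ C.F → (t : ℕ → J O) 1 = cl Q := by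
    intro Q
    by_cases hQ : Q ∈ C.F
    · obtain ⟨t, ht⟩ := TM.exists_lift (p := 2) (two_half C) (C.nsmul_cl hQ)
      exact ⟨t, fun _ => ht⟩
    · exact ⟨0, fun h => absurd h hQ⟩
  choose P hP using h1
  refine ⟨P, hP, fun t => ?_, ?_⟩
  · obtain ⟨c, hc⟩ := two_fixed C (tt_one t)
    refine ⟨c, ?_⟩
    obtain ⟨u, hu⟩ := tt_dvd (t := t - ∑ Q ∈ C.F, c Q • P Q) (by
      rw [tt_sub, tt_sum, hc, sub_eq_zero]
      exact Finset.sum_congr rfl fun Q hQ => by rw [tt_nsmul, hP Q hQ])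
    exact ⟨u, by rw [← hu]; abel⟩
  · refine tt_dvd ?_
    rw [tt_sum, ← C.sum_F]
    exact Finset.sum_congr rfl fun Q hQ => by rw [tt_nsmul, hP Q hQ]

/-- the Weil pairing of two fixed points -/
theorem tw_weil (C : Cyc k O 2 ζ) {P P' : MaximalSpectrum O} (hP : P ∈ C.F) (hP' : P' ∈ C.F)
    (hne : P ≠ P') : weil C.I 2 (cl P) (cl P') = -1 := by
  have hlc : ∀ c : k, C.I.lc (C.x - algebraMap k O c) = 1 := by
    intro c
    have e1 := (C.aeval_ord (X_sub_C_ne_zero c)).2.2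
    rw [leadingCoeff_X_sub_C, map_sub, aeval_X, aeval_C] at e1
    exact e1
  have hx : C.xc P ≠ C.xc P' := fun h => hne (C.eq_of_xc hP' h)
  apply weil_eq
  refine ⟨{P}, {P'}, C.x - algebraMap k O (C.xc P), C.x - algebraMap k O (C.xc P'), ?_, ?_, ?_,
    C.span_fix hP, C.span_fix hP', hlc _, hlc _, ?_⟩
  · rw [Multiset.singleton_disjoint, Multiset.mem_singleton]
    exact hne
  · rw [Multiset.map_singleton, Multiset.sum_singleton]
  · rw [Multiset.map_singleton, Multiset.sum_singleton]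
  · rw [ev_eq C.I, ev_eq C.I, Multiset.map_singleton, Multiset.prod_singleton,
      Multiset.map_singleton, Multiset.prod_singleton, map_sub, map_sub, AlgHom.commutes,
      AlgHom.commutes, Multiset.card_singleton, Multiset.card_singleton]
    have h1 : pv C.I P' C.x - C.xc P ≠ 0 := fun h => hx (sub_eq_zero.1 h).symm
    have h2 : pv C.I P C.x - C.xc P' ≠ 0 := fun h => hx (sub_eq_zero.1 h)
    have h3 : pv C.I P' C.x - C.xc P = -(pv C.I P C.x - C.xc P') := by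
      show C.xc P' - C.xc P = -(C.xc P - C.xc P')
      ring
    show -1 = (-1 : k) ^ (2 * (1 * 1)) *
      ((pv C.I P' C.x - C.xc P) / (pv C.I P C.x - C.xc P'))
    rw [h3, neg_div, div_self h2]
    norm_num

/-- the values of the form at two different fixed points are odd -/
theorem tw_pair (C : Cyc k O 2 ζ) {ξ : ℕ → k} (hξ1 : ξ 1 = ζ)
    {e : TM 2 (J O) →ₗ[ℤ_[2]] TM 2 (J O) →ₗ[ℤ_[2]] ℤ_[2]}
    (he : ∀ (t u : TM 2 (J O)) (n : ℕ), 1 ≤ n →
      weil C.I (2 ^ n) ((t : ℕ → J O) n) ((u : ℕ → J O) n) =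
        ξ n ^ (PadicInt.toZModPow n (e t u)).val) {P : MaximalSpectrum O → TM 2 (J O)}
    (hP : ∀ Q ∈ C.F, (P Q : ℕ → J O) 1 = cl Q) {Q Q' : MaximalSpectrum O}
    (hQ : Q ∈ C.F) (hQ' : Q' ∈ C.F) (hne : Q ≠ Q') : ∃ z, e (P Q) (P Q') = 1 + 2 * z := by
  have h1 := he (P Q) (P Q') 1 le_rfl
  rw [hP Q hQ, hP Q' hQ', hξ1.trans (two_zeta C)] at h1
  have h2 : weil C.I (2 ^ 1) (cl Q) (cl Q') = -1 := by
    have h4 : weil C.I (2 ^ 1) (cl Q) (cl Q') = weil C.I 2 (cl Q) (cl Q') := by rw [pow_one]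
    rw [h4, tw_weil C hQ hQ' hne]
  rw [h2] at h1
  obtain ⟨n, hn⟩ : ∃ n, n = (PadicInt.toZModPow 1 (e (P Q) (P Q'))).val := ⟨_, rfl⟩
  rw [← hn] at h1
  have h5 : n < 2 := by
    rw [hn]
    exact ZMod.val_lt (n := 2 ^ 1) _
  have h6 : n ≠ 0 := by
    rintro rfl
    rw [pow_zero] at h1
    exact two_ne C h1
  have h7 : n = 1 := by omega
  have h8 : e (P Q) (P Q') - 1 ∈ RingHom.ker (PadicInt.toZModPow (p := 2) 1) := by
    rw [RingHom.mem_ker, map_sub, map_one]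
    have h9 := ZMod.natCast_zmod_val (PadicInt.toZModPow 1 (e (P Q) (P Q')))
    rw [← hn, h7, Nat.cast_one] at h9
    rw [← h9, sub_self]
  rw [PadicInt.ker_toZModPow, Ideal.mem_span_singleton, pow_one] at h8
  obtain ⟨w, hw⟩ := h8
  exact ⟨w, by rw [Nat.cast_ofNat] at hw; linear_combination hw⟩

/-- automorphisms act trivially modulo two -/
theorem tw_mod2 (C : Cyc k O 2 ζ) (ε : O ≃+* O) (g : k ≃+* k)
    (hg : ∀ c, ε (algebraMap k O c) = algebraMap k O (g c)) (hx : ε C.x = C.x)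
    (hgx : ∀ P ∈ C.F, g (C.xc P) = C.xc P)
    (t : TM 2 (J O)) : ∃ u, TM.map (J.map ε) t = t + (2 : ℤ_[2]) • u := by
  obtain ⟨c, hc⟩ := two_fixed C (tt_one t)
  obtain ⟨u, hu⟩ := tt_dvd (t := TM.map (J.map ε) t - t) (by
    rw [tt_sub, TM.map_apply, hc, map_sum, sub_eq_zero]
    refine Finset.sum_congr rfl fun P hP => ?_
    rw [map_nsmul, J.map_cl, C.gal_fixed ε g hg hx hgx hP])
  exact ⟨u, by rw [← hu]; abel⟩

/-- the action on the classes of order four, for the Tate module -/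
theorem tw_act (C : Cyc k O 2 ζ) {w : k} (hw : w ^ 2 = -1) (ε : O ≃+* O) (g : k ≃+* k)
    (hgw : g w = w)
    (hg : ∀ c, ε (algebraMap k O c) = algebraMap k O (g c)) (hx : ε C.x = C.x)
    (hy : ε C.y = C.y) (hσ : ∀ z, ε (C.σ z) = C.σ (ε z)) (hgx : ∀ P ∈ C.F, g (C.xc P) = C.xc P)
    (r : MaximalSpectrum O → MaximalSpectrum O → k)
    (η : MaximalSpectrum O → MaximalSpectrum O → ℕ)
    (hr : ∀ P ∈ C.F, ∀ Q ∈ C.F, r P Q ^ 2 = C.xc P - C.xc Q)
    (hη : ∀ P Q, η P Q = η Q P)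
    (hgr : ∀ P ∈ C.F, ∀ Q ∈ C.F, g (r P Q) = ζ ^ η P Q * r P Q)
    {P : MaximalSpectrum O → TM 2 (J O)} (hP : ∀ Q ∈ C.F, (P Q : ℕ → J O) 1 = cl Q)
    {c : MaximalSpectrum O → ℕ} {t u T : TM 2 (J O)}
    (ht : t = ∑ Q ∈ C.F, c Q • P Q + (2 : ℤ_[2]) • u)
    (hT : (T : ℕ → J O) 1 =
      ∑ P ∈ C.F, c P • ∑ Q ∈ C.F.erase P, (C.m Q * η P Q) • (cl P - cl Q)) :
    ∃ y, TM.map (J.map ε) t = t + (2 : ℤ_[2]) • T + (4 : ℤ_[2]) • y := by
  have h1 : (t : ℕ → J O) 1 = ∑ P ∈ C.F, c P • cl P := by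
    rw [ht, tt_add, tt_two u 0, u.2.1, add_zero, tt_sum]
    exact Finset.sum_congr rfl fun Q hQ => by rw [tt_nsmul, hP Q hQ]
  have h2 : 2 • (t : ℕ → J O) 2 = ∑ P ∈ C.F, c P • cl P := by
    rw [← h1]
    exact t.2.2 1
  have h3 := two_gal_sum C hw ε g hgw hg hx hy hσ hgx r η hr hη hgr h2
  obtain ⟨y, hy⟩ := tt_dvd4 (t := TM.map (J.map ε) t - t - (2 : ℤ_[2]) • T) (by
    rw [tt_sub, tt_sub, tt_two T 1, TM.map_apply, h3, hT, sub_self])
  exact ⟨y, by rw [← hy]; abel⟩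

section Value

omit [IsDedekindDomain O] [IsAlgClosed k]

variable (C : Cyc k O 2 ζ) {e : TM 2 (J O) →ₗ[ℤ_[2]] TM 2 (J O) →ₗ[ℤ_[2]] ℤ_[2]}
  (skew : ∀ x y, e x y = -e y x) {P : MaximalSpectrum O → TM 2 (J O)}
  (pair : ∀ Q ∈ C.F, ∀ Q' ∈ C.F, Q ≠ Q' → ∃ z, e (P Q) (P Q') = 1 + 2 * z)

include skew pair

/-- the value of the form at a fixed point, modulo two -/
theorem tw_value {c : MaximalSpectrum O → ℕ} {t u : TM 2 (J O)}
    (ht : t = ∑ Q ∈ C.F, c Q • P Q + (2 : ℤ_[2]) • u) {P₁ : MaximalSpectrum O} (h₁ : P₁ ∈ C.F) :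
    ∃ z, e t (P P₁) = ((∑ Q ∈ C.F.erase P₁, c Q : ℕ) : ℤ_[2]) + 2 * z := by
  have h0 : e (P P₁) (P P₁) = 0 := by
    have h1 := skew (P P₁) (P P₁)
    have h2 : (2 : ℤ_[2]) * e (P P₁) (P P₁) = 0 := by linear_combination h1
    exact (mul_eq_zero.1 h2).resolve_left two_ne_zero
  have h1 : ∀ Q : MaximalSpectrum O, ∃ z, Q ∈ C.F.erase P₁ → e (P Q) (P P₁) = 1 + 2 * z := by
    intro Q
    by_cases hQ : Q ∈ C.F.erase P₁
    · obtain ⟨z, hz⟩ := pair Q (Finset.mem_of_mem_erase hQ) P₁ h₁ (Finset.ne_of_mem_erase hQ)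
      exact ⟨z, fun _ => hz⟩
    · exact ⟨0, fun h => absurd h hQ⟩
  choose z hz using h1
  refine ⟨∑ Q ∈ C.F.erase P₁, (c Q : ℤ_[2]) * z Q + e u (P P₁), ?_⟩
  have h2 : e t (P P₁) = ∑ Q ∈ C.F, (c Q : ℤ_[2]) * e (P Q) (P P₁) + 2 * e u (P P₁) := by
    rw [ht, map_add, map_smul, map_sum, LinearMap.add_apply, LinearMap.sum_apply,
      LinearMap.smul_apply, smul_eq_mul]
    congr 1
    refine Finset.sum_congr rfl fun Q _ => ?_
    rw [map_nsmul, LinearMap.smul_apply, nsmul_eq_mul]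
  rw [h2, ← Finset.add_sum_erase C.F _ h₁, h0, mul_zero, zero_add,
    Finset.sum_congr rfl fun Q hQ => by rw [hz Q hQ]]
  simp only [mul_add, mul_one, Finset.sum_add_distrib, Nat.cast_sum, Finset.mul_sum]
  rw [add_assoc]
  congr 1
  congr 1
  exact Finset.sum_congr rfl fun Q _ => by ring

end Value

/-- two multiples of an element of order two -/
theorem tw_parity {A : Type} [AddCommGroup A] {x : A} (hx : 2 • x = 0) {a b : ℕ}
    (h : a % 2 = b % 2) : a • x = b • x := by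
  conv_lhs => rw [← Nat.mod_add_div a 2, add_smul, mul_comm, mul_smul, hx, smul_zero, add_zero]
  conv_rhs => rw [← Nat.mod_add_div b 2, add_smul, mul_comm, mul_smul, hx, smul_zero, add_zero]
  rw [h]

section Star

variable (C : Cyc k O 2 ζ) (hm : ∀ Q ∈ C.F, C.m Q = 1)

include hm

omit hm in
private theorem two_cl {P : MaximalSpectrum O}
    (h : P ∈ C.F) : 2 • cl P = 0 := C.nsmul_cl h

/-- one pair -/
theorem tw_edge_sum {P₁ P₂ : MaximalSpectrum O} (h₁ : P₁ ∈ C.F) (h₂ : P₂ ∈ C.F) (hne : P₁ ≠ P₂)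
    (c : MaximalSpectrum O → ℕ) :
    ∑ P ∈ C.F, c P • ∑ Q ∈ C.F.erase P,
      (C.m Q * if (P = P₁ ∧ Q = P₂) ∨ (P = P₂ ∧ Q = P₁) then 1 else 0) • (cl P - cl Q) =
      (c P₁ + c P₂) • (cl P₁ + cl P₂) := by
  have h1 : ∀ P ∈ C.F, c P • ∑ Q ∈ C.F.erase P,
      (C.m Q * if (P = P₁ ∧ Q = P₂) ∨ (P = P₂ ∧ Q = P₁) then 1 else 0) • (cl P - cl Q) =
      (if P = P₁ then c P₁ • (cl P₁ - cl P₂) else 0) +
        if P = P₂ then c P₂ • (cl P₂ - cl P₁) else 0 := by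
    intro P hP
    by_cases hP1 : P = P₁
    · subst hP1
      rw [if_pos rfl, if_neg hne, add_zero]
      congr 1
      rw [Finset.sum_eq_single P₂]
      · rw [if_pos (Or.inl ⟨rfl, rfl⟩), hm P₂ h₂, one_mul, one_nsmul]
      · intro Q _ hQ
        rw [if_neg, mul_zero, zero_nsmul]
        rintro (⟨-, h⟩ | ⟨h, -⟩)
        · exact hQ h
        · exact hne h
      · intro h
        exact absurd (Finset.mem_erase.2 ⟨Ne.symm hne, h₂⟩) h
    · by_cases hP2 : P = P₂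
      · subst hP2
        rw [if_neg hP1, if_pos rfl, zero_add]
        congr 1
        rw [Finset.sum_eq_single P₁]
        · rw [if_pos (Or.inr ⟨rfl, rfl⟩), hm P₁ h₁, one_mul, one_nsmul]
        · intro Q _ hQ
          rw [if_neg, mul_zero, zero_nsmul]
          rintro (⟨h, -⟩ | ⟨-, h⟩)
          · exact hP1 h
          · exact hQ h
        · intro h
          exact absurd (Finset.mem_erase.2 ⟨hne, h₁⟩) h
      · rw [if_neg hP1, if_neg hP2, add_zero]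
        rw [Finset.sum_eq_zero, smul_zero]
        intro Q _
        rw [if_neg, mul_zero, zero_nsmul]
        rintro (⟨h, -⟩ | ⟨h, -⟩)
        · exact hP1 h
        · exact hP2 h
  rw [Finset.sum_congr rfl h1, Finset.sum_add_distrib, Finset.sum_ite_eq', if_pos h₁,
    Finset.sum_ite_eq', if_pos h₂]
  have h3 := two_cl C h₁
  have h4 := two_cl C h₂
  have h5 : cl P₁ - cl P₂ = cl P₁ + cl P₂ := by
    rw [two_nsmul] at h4
    rw [sub_eq_add_neg, neg_eq_of_add_eq_zero_left h4]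
  have h6 : cl P₂ - cl P₁ = cl P₁ + cl P₂ := by
    rw [two_nsmul] at h3
    rw [sub_eq_add_neg, neg_eq_of_add_eq_zero_left h3, add_comm]
  rw [h5, h6, add_nsmul]

/-- all pairs with the point `P₁` -/
theorem tw_star_sum {P₁ : MaximalSpectrum O} (h₁ : P₁ ∈ C.F) (hodd : Odd C.F.card)
    (c : MaximalSpectrum O → ℕ) :
    ∑ P ∈ C.F, c P • ∑ Q ∈ C.F.erase P,
      (C.m Q * if (P = P₁ ∧ Q ≠ P₁) ∨ (P ≠ P₁ ∧ Q = P₁) then 1 else 0) • (cl P - cl Q) =
      ∑ P ∈ C.F, c P • cl P + (∑ Q ∈ C.F.erase P₁, c Q) • cl P₁ := by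
  have h0 := two_cl C h₁
  have hsum : ∑ Q ∈ C.F, cl Q = (0 : J O) := by
    rw [← C.sum_F]
    exact Finset.sum_congr rfl fun Q hQ => by rw [hm Q hQ, one_nsmul]
  have h1 : ∑ Q ∈ C.F.erase P₁,
      (C.m Q * if (P₁ = P₁ ∧ Q ≠ P₁) ∨ (P₁ ≠ P₁ ∧ Q = P₁) then 1 else 0) • (cl P₁ - cl Q) =
      cl P₁ := by
    have h2 : ∀ Q ∈ C.F.erase P₁,
        (C.m Q * if (P₁ = P₁ ∧ Q ≠ P₁) ∨ (P₁ ≠ P₁ ∧ Q = P₁) then 1 else 0) • (cl P₁ - cl Q) =
        cl P₁ - cl Q := by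
      intro Q hQ
      rw [if_pos (Or.inl ⟨rfl, Finset.ne_of_mem_erase hQ⟩), hm Q (Finset.mem_of_mem_erase hQ),
        one_mul, one_nsmul]
    rw [Finset.sum_congr rfl h2, Finset.sum_sub_distrib, Finset.sum_const,
      Finset.card_erase_of_mem h₁]
    obtain ⟨m, hm'⟩ := hodd
    have h3 : (C.F.card - 1) • cl P₁ = (0 : J O) := by
      rw [hm', Nat.add_sub_cancel, mul_comm, mul_smul, h0, smul_zero]
    have h4 : ∑ Q ∈ C.F.erase P₁, cl Q = -(cl P₁ : J O) := by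
      rw [← Finset.add_sum_erase C.F _ h₁] at hsum
      exact (neg_eq_of_add_eq_zero_right hsum).symm
    rw [h3, h4, zero_sub, neg_neg]
  have h2 : ∀ P ∈ C.F.erase P₁, ∑ Q ∈ C.F.erase P,
      (C.m Q * if (P = P₁ ∧ Q ≠ P₁) ∨ (P ≠ P₁ ∧ Q = P₁) then 1 else 0) • (cl P - cl Q) =
      cl P + cl P₁ := by
    intro P hP
    have hPF := Finset.mem_of_mem_erase hP
    have hP1 := Finset.ne_of_mem_erase hP
    rw [Finset.sum_eq_single P₁]
    · rw [if_pos (Or.inr ⟨hP1, rfl⟩), hm P₁ h₁, one_mul, one_nsmul]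
      rw [two_nsmul] at h0
      rw [sub_eq_add_neg, neg_eq_of_add_eq_zero_left h0]
    · intro Q _ hQ
      rw [if_neg, mul_zero, zero_nsmul]
      rintro (⟨h, -⟩ | ⟨-, h⟩)
      · exact hP1 h
      · exact hQ h
    · intro h
      exact absurd (Finset.mem_erase.2 ⟨Ne.symm hP1, h₁⟩) h
  rw [← Finset.add_sum_erase C.F _ h₁, ← Finset.add_sum_erase C.F (fun P => c P • cl P) h₁, h1,
    Finset.sum_congr rfl fun P hP => by rw [h2 P hP]]
  simp only [nsmul_add, Finset.sum_add_distrib, Finset.sum_smul, add_assoc]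

end Star

end Pool.Agent.PTateW
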