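import Pool.Agent.HTate.LieDefs
import Pool.Agent.PTateU.GeoC
import Pool.Agent.PTateW.TTwo

/-!
# The data of the Galois representation of one double covering
-/

set_option autoImplicit false

noncomputable section

namespace Pool.Agent.PTateW

open Pool.Agent.PTate
open Pool.Agent.PTateU
open Pool.Agent.HTate (tv)
open Polynomial
open scoped Classical

variable {K : Type} [Field K] {L : Type} [Field L] [Algebra K L] {ι : Type} [IsAlgClosed L]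

section Abstract

variable {O : Type} [CommRing O] [Algebra L O] [IsDedekindDomain O] {ζ : L}

omit [IsAlgClosed L] [IsDedekindDomain O] in
/-- the action of an automorphism which changes one root -/
theorem geo_two_edge [IsDedekindDomain O] [IsAlgClosed L] (C : Cyc L O 2 ζ) {a : ι → K}
    {S : Finset ι}
    {Pt : ι → MaximalSpectrum O} (hF : C.F = S.image Pt) (hinj : Set.InjOn Pt S)
    (hPt : ∀ i ∈ S, C.xc (Pt i) = algebraMap K L (a i)) (hmF : ∀ Q ∈ C.F, C.m Q = 1)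
    {e : TM 2 (J O) →ₗ[ℤ_[2]] TM 2 (J O) →ₗ[ℤ_[2]] ℤ_[2]} (hskew : ∀ x y, e x y = -e y x)
    {PP : MaximalSpectrum O → TM 2 (J O)} (hP : ∀ Q ∈ C.F, (PP Q : ℕ → J O) 1 = cl Q)
    (hgen : ∀ t : TM 2 (J O), ∃ (c : MaximalSpectrum O → ℕ) (u : TM 2 (J O)),
        t = ∑ Q ∈ C.F, c Q • PP Q + (2 : ℤ_[2]) • u)
    (hpair : ∀ Q ∈ C.F, ∀ Q' ∈ C.F, Q ≠ Q' → ∃ z, e (PP Q) (PP Q') = 1 + 2 * z)
    {τ : O ≃+* O} {g : L ≃ₐ[K] L} (h1 : ∀ c, τ (algebraMap L _ c) = algebraMap L _ (g c))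
    (h2 : τ C.x = C.x) (h3 : τ C.y = C.y) (hcomm : ∀ w, τ (C.σ w) = C.σ (τ w))
    {i j : ι} {w : L} {r : ι → ι → L} (hij : i ≠ j) (hw : w ^ 2 = -1) (hgw : g w = w)
    (hr : ∀ u ∈ S, ∀ v ∈ S, r u v ^ 2 = algebraMap K L (a u - a v))
    (hgr : ∀ u ∈ S, ∀ v ∈ S, g (r u v) = if (u = i ∧ v = j) ∨ (u = j ∧ v = i) then
          ζ * r u v else r u v) (x : TM 2 (J O)) :
    ∃ y, TM.map (J.map τ) x = x + (2 : ℤ_[2]) •
      (if i ∈ S ∧ j ∈ S then tv e (PP (Pt i) + PP (Pt j)) x else 0) + (4 : ℤ_[2]) • y := by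
  have hmem : ∀ i ∈ S, Pt i ∈ C.F := fun i hi => by
    rw [hF]
    exact Finset.mem_image_of_mem _ hi
  have : Nonempty ι := ⟨i⟩
  set I := Function.invFunOn Pt S with hI
  have hIl : ∀ u ∈ S, I (Pt u) = u := fun u hu => hinj.leftInvOn_invFunOn hu
  have hr' : ∀ P ∈ C.F, ∀ Q ∈ C.F, r (I P) (I Q) ^ 2 = C.xc P - C.xc Q := by
    intro P hP' Q hQ'
    rw [hF, Finset.mem_image] at hP' hQ'
    obtain ⟨u, hu, rfl⟩ := hP'
    obtain ⟨v, hv, rfl⟩ := hQ'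
    rw [hIl u hu, hIl v hv, hr u hu v hv, hPt u hu, hPt v hv, map_sub]
  obtain ⟨c, u, hx⟩ := hgen x
  by_cases hc : i ∈ S ∧ j ∈ S
  · rw [if_pos hc]
    have hne : Pt i ≠ Pt j := fun h => hij (hinj hc.1 hc.2 h)
    obtain ⟨z1, hz1⟩ := tw_value C hskew hpair hx (hmem i hc.1)
    obtain ⟨z2, hz2⟩ := tw_value C hskew hpair hx (hmem j hc.2)
    refine tw_act C hw τ (g : L ≃+* L) hgw h1 h2 h3
      hcomm (geo_xc C hF hPt g) (fun P Q => r (I P) (I Q))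
      (fun P Q => if (P = Pt i ∧ Q = Pt j) ∨ (P = Pt j ∧ Q = Pt i) then 1 else 0) hr'
      (fun P Q => by
        have : ((P = Pt i ∧ Q = Pt j) ∨ (P = Pt j ∧ Q = Pt i)) ↔
          ((Q = Pt i ∧ P = Pt j) ∨ (Q = Pt j ∧ P = Pt i)) := by tauto
        simp only [this]) ?_ hP hx ?_
    · intro P hP' Q hQ'
      rw [hF, Finset.mem_image] at hP' hQ'
      obtain ⟨u, hu, rfl⟩ := hP'
      obtain ⟨v, hv, rfl⟩ := hQ'
      have h6 : ∀ u ∈ S, ∀ l ∈ S, (Pt u = Pt l) = (u = l) := fun u hu l hl =>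
        propext ⟨fun h => hinj hu hl h, fun h => by rw [h]⟩
      simp only [h6 u hu i hc.1, h6 v hv i hc.1, h6 u hu j hc.2, h6 v hv j hc.2]
      rw [hIl u hu, hIl v hv]
      have h7 := hgr u hu v hv
      show g (r u v) = _
      rw [h7]
      split_ifs
      · rw [pow_one]
      · rw [pow_zero, one_mul]
    · rw [tw_edge_sum C hmF (hmem i hc.1) (hmem j hc.2) hne c]
      have h8 : tv e (PP (Pt i) + PP (Pt j)) x =
          ((∑ Q ∈ C.F.erase (Pt i), c Q + ∑ Q ∈ C.F.erase (Pt j), c Q : ℕ) : ℤ_[2]) •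
            (PP (Pt i) + PP (Pt j)) +
            (2 : ℤ_[2]) • ((z1 + z2) • (PP (Pt i) + PP (Pt j))) := by
        have h9 : tv e (PP (Pt i) + PP (Pt j)) x =
          (e x (PP (Pt i) + PP (Pt j))) • (PP (Pt i) + PP (Pt j)) := rfl
        rw [h9, map_add, hz1, hz2]
        push_cast
        module
      rw [h8, tt_add, tt_two _ 0, ((z1 + z2) • (PP (Pt i) + PP (Pt j))).2.1, add_zero,
        TM.nat_smul_apply, tt_add, hP _ (hmem i hc.1), hP _ (hmem j hc.2)]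
      refine tw_parity ?_ ?_
      · rw [nsmul_add, C.nsmul_cl (hmem i hc.1), C.nsmul_cl (hmem j hc.2), add_zero]
      · have h10 := Finset.add_sum_erase C.F c (hmem i hc.1)
        have h11 := Finset.add_sum_erase C.F c (hmem j hc.2)
        omega
  · rw [if_neg hc]
    refine tw_act C hw τ (g : L ≃+* L) hgw h1 h2 h3
      hcomm (geo_xc C hF hPt g) (fun P Q => r (I P) (I Q))
      (fun P Q => 0) hr' (fun P Q => rfl) ?_ hP hx ?_
    · intro P hP' Q hQ'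
      rw [hF, Finset.mem_image] at hP' hQ'
      obtain ⟨u, hu, rfl⟩ := hP'
      obtain ⟨v, hv, rfl⟩ := hQ'
      rw [hIl u hu, hIl v hv, pow_zero, one_mul]
      have h7 := hgr u hu v hv
      rw [if_neg (by
        rintro (⟨rfl, rfl⟩ | ⟨rfl, rfl⟩)
        · exact hc ⟨hu, hv⟩
        · exact hc ⟨hv, hu⟩)] at h7
      exact h7
    · symm
      refine Finset.sum_eq_zero fun P _ => ?_
      rw [Finset.sum_eq_zero, smul_zero]
      intro Q _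
      rw [mul_zero, zero_nsmul]

/-- the action of an automorphism which changes all roots with the index `i` -/
theorem geo_two_star (C : Cyc L O 2 ζ) {a : ι → K} {S : Finset ι} (hS : Odd S.card)
    {Pt : ι → MaximalSpectrum O} (hF : C.F = S.image Pt) (hinj : Set.InjOn Pt S)
    (hPt : ∀ i ∈ S, C.xc (Pt i) = algebraMap K L (a i)) (hmF : ∀ Q ∈ C.F, C.m Q = 1)
    {e : TM 2 (J O) →ₗ[ℤ_[2]] TM 2 (J O) →ₗ[ℤ_[2]] ℤ_[2]} (hskew : ∀ x y, e x y = -e y x)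
    {PP : MaximalSpectrum O → TM 2 (J O)} (hP : ∀ Q ∈ C.F, (PP Q : ℕ → J O) 1 = cl Q)
    (hgen : ∀ t : TM 2 (J O), ∃ (c : MaximalSpectrum O → ℕ) (u : TM 2 (J O)),
        t = ∑ Q ∈ C.F, c Q • PP Q + (2 : ℤ_[2]) • u)
    (hpair : ∀ Q ∈ C.F, ∀ Q' ∈ C.F, Q ≠ Q' → ∃ z, e (PP Q) (PP Q') = 1 + 2 * z)
    {τ : O ≃+* O} {g : L ≃ₐ[K] L} (h1 : ∀ c, τ (algebraMap L _ c) = algebraMap L _ (g c))
    (h2 : τ C.x = C.x) (h3 : τ C.y = C.y) (hcomm : ∀ w, τ (C.σ w) = C.σ (τ w))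
    {i : ι} {w : L} {r : ι → ι → L} (hi : i ∈ S) (hw : w ^ 2 = -1) (hgw : g w = w)
    (hr : ∀ u ∈ S, ∀ v ∈ S, r u v ^ 2 = algebraMap K L (a u - a v))
    (hgr : ∀ u ∈ S, ∀ v ∈ S, g (r u v) = if (u = i ∧ v ≠ i) ∨ (u ≠ i ∧ v = i) then
          ζ * r u v else r u v) (x : TM 2 (J O)) :
    ∃ y, TM.map (J.map τ) x = -(x + (2 : ℤ_[2]) • tv e (PP (Pt i)) x) + (4 : ℤ_[2]) • y := by
  have hmem : ∀ i ∈ S, Pt i ∈ C.F := fun i hi => by
    rw [hF]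
    exact Finset.mem_image_of_mem _ hi
  have hcard : Odd C.F.card := by
    rw [hF, Finset.card_image_of_injOn hinj]
    exact hS
  have : Nonempty ι := ⟨i⟩
  set I := Function.invFunOn Pt S with hI
  have hIl : ∀ u ∈ S, I (Pt u) = u := fun u hu => hinj.leftInvOn_invFunOn hu
  have hr' : ∀ P ∈ C.F, ∀ Q ∈ C.F, r (I P) (I Q) ^ 2 = C.xc P - C.xc Q := by
    intro P hP' Q hQ'
    rw [hF, Finset.mem_image] at hP' hQ'
    obtain ⟨u, hu, rfl⟩ := hP'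
    obtain ⟨v, hv, rfl⟩ := hQ'
    rw [hIl u hu, hIl v hv, hr u hu v hv, hPt u hu, hPt v hv, map_sub]
  obtain ⟨c, u, hx⟩ := hgen x
  obtain ⟨z1, hz1⟩ := tw_value C hskew hpair hx (hmem i hi)
  obtain ⟨y, hy⟩ : ∃ y, TM.map (J.map τ) x =
      x + (2 : ℤ_[2]) • (x + tv e (PP (Pt i)) x) + (4 : ℤ_[2]) • y := by
    refine tw_act C hw τ (g : L ≃+* L) hgw h1 h2 h3
      hcomm (geo_xc C hF hPt g) (fun P Q => r (I P) (I Q))
      (fun P Q => if (P = Pt i ∧ Q ≠ Pt i) ∨ (P ≠ Pt i ∧ Q = Pt i) then 1 else 0) hr'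
      (fun P Q => by
        have : ((P = Pt i ∧ Q ≠ Pt i) ∨ (P ≠ Pt i ∧ Q = Pt i)) ↔
          ((Q = Pt i ∧ P ≠ Pt i) ∨ (Q ≠ Pt i ∧ P = Pt i)) := by tauto
        simp only [this]) ?_ hP hx ?_
    · intro P hP' Q hQ'
      rw [hF, Finset.mem_image] at hP' hQ'
      obtain ⟨u, hu, rfl⟩ := hP'
      obtain ⟨v, hv, rfl⟩ := hQ'
      have h6 : ∀ u ∈ S, ∀ l ∈ S, (Pt u = Pt l) = (u = l) := fun u hu l hl =>
        propext ⟨fun h => hinj hu hl h, fun h => by rw [h]⟩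
      simp only [ne_eq, h6 u hu i hi, h6 v hv i hi]
      rw [hIl u hu, hIl v hv]
      have h7 := hgr u hu v hv
      simp only [ne_eq] at h7
      show g (r u v) = _
      rw [h7]
      split_ifs
      · rw [pow_one]
      · rw [pow_zero, one_mul]
    · rw [tw_star_sum C hmF (hmem i hi) hcard c]
      have h8 : tv e (PP (Pt i)) x =
          ((∑ Q ∈ C.F.erase (Pt i), c Q : ℕ) : ℤ_[2]) • PP (Pt i) +
            (2 : ℤ_[2]) • (z1 • PP (Pt i)) := by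
        have h9 : tv e (PP (Pt i)) x = (e x (PP (Pt i))) • PP (Pt i) := rfl
        rw [h9, hz1, add_smul, mul_smul]
      have h9 : (x : ℕ → J O) 1 = ∑ P ∈ C.F, c P • cl P := by
        rw [hx, tt_add, tt_two u 0, u.2.1, add_zero, tt_sum]
        exact Finset.sum_congr rfl fun Q hQ => by rw [tt_nsmul, hP Q hQ]
      rw [tt_add, h9, h8, tt_add, tt_two _ 0, (z1 • PP (Pt i)).2.1, add_zero,
        TM.nat_smul_apply, hP _ (hmem i hi)]
  refine ⟨x + tv e (PP (Pt i)) x + y, ?_⟩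
  rw [hy]
  module

/-- generators -/
theorem geo_two_gen (C : Cyc L O 2 ζ) {S : Finset ι}
    {Pt : ι → MaximalSpectrum O} (hF : C.F = S.image Pt) (hinj : Set.InjOn Pt S)
    {PP : MaximalSpectrum O → TM 2 (J O)}
    (hgen : ∀ t : TM 2 (J O), ∃ (c : MaximalSpectrum O → ℕ) (u : TM 2 (J O)),
        t = ∑ Q ∈ C.F, c Q • PP Q + (2 : ℤ_[2]) • u) (x : TM 2 (J O)) :
    ∃ (R : Finset ι) (y : TM 2 (J O)), R ⊆ S ∧
        x = ∑ i ∈ R, PP (Pt i) + (2 : ℤ_[2]) • y := by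
  obtain ⟨c, u, h⟩ := hgen x
  refine ⟨S.filter fun i => c (Pt i) % 2 = 1, u + ∑ i ∈ S, (c (Pt i) / 2) • PP (Pt i),
    Finset.filter_subset _ _, ?_⟩
  rw [h, geo_sum C hF hinj, smul_add, add_comm ((2 : ℤ_[2]) • u), ← add_assoc]
  congr 1
  rw [Finset.smul_sum, Finset.sum_filter, ← Finset.sum_add_distrib]
  refine Finset.sum_congr rfl fun i _ => ?_
  have h1 : (2 : ℤ_[2]) • (c (Pt i) / 2) • PP (Pt i) = (2 * (c (Pt i) / 2)) • PP (Pt i) := by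
    rw [mul_smul, two_smul, two_nsmul]
  have h2 : (if c (Pt i) % 2 = 1 then PP (Pt i) else 0) = (c (Pt i) % 2) • PP (Pt i) := by
    rcases Nat.mod_two_eq_zero_or_one (c (Pt i)) with h3 | h3
    · rw [h3, if_neg (by norm_num), zero_nsmul]
    · rw [h3, if_pos rfl, one_nsmul]
  rw [h1, h2, ← add_smul, Nat.mod_add_div]

end Abstract

/-- all the data of one curve -/
theorem geo_two {ζ : K} (hζ : IsPrimitiveRoot ζ 2) (a : ι → K)
    {S : Finset ι} {m : ι → ℕ} (ha : Set.InjOn a S) (hm1 : ∀ i ∈ S, m i = 1) (hS : Odd S.card)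
    {ξ : ℕ → L} (hξ : IsRoots 2 ξ) (hξ1 : ξ 1 = algebraMap K L ζ) :
    ∃ (_ : Module.Finite ℤ_[2] (Tm L 2 a S m))
      (z : Module.End ℤ_[2] (Tm L 2 a S m))
      (e : Tm L 2 a S m →ₗ[ℤ_[2]] Tm L 2 a S m →ₗ[ℤ_[2]] ℤ_[2])
      (P : ι → Tm L 2 a S m)
      (ρ : (L ≃ₐ[K] L) →* Module.End ℤ_[2] (Tm L 2 a S m)),
      (∃ τ : Co L 2 (Stm.eqn L a S m) ≃+* Co L 2 (Stm.eqn L a S m),
        (∀ c, τ (algebraMap L _ c) = algebraMap L _ c) ∧ τ (Co.x L 2 _) = Co.x L 2 _ ∧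
          τ (Co.y L 2 _) = algebraMap L _ (ξ 1) * Co.y L 2 _ ∧ z = TM.map (J.map τ)) ∧
      (∀ g, ∃ τ : Co L 2 (Stm.eqn L a S m) ≃+* Co L 2 (Stm.eqn L a S m),
        (∀ c, τ (algebraMap L _ c) = algebraMap L _ (g c)) ∧ τ (Co.x L 2 _) = Co.x L 2 _ ∧
          τ (Co.y L 2 _) = Co.y L 2 _ ∧ ρ g = TM.map (J.map τ)) ∧
      (∀ (t u : Tm L 2 a S m) (n : ℕ), 1 ≤ n →
        Stm.IsWeil (Co.x L 2 (Stm.eqn L a S m)) (2 ^ n)
          ((t : ℕ → J (Co L 2 (Stm.eqn L a S m))) n)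
          ((u : ℕ → J (Co L 2 (Stm.eqn L a S m))) n)
          (ξ n ^ (PadicInt.toZModPow n (e t u)).val)) ∧
      (∀ (n : ℕ) (c c' : J (Co L 2 (Stm.eqn L a S m))) (w w' : L), 2 ∣ n →
        Stm.IsWeil (Co.x L 2 _) n c c' w → Stm.IsWeil (Co.x L 2 _) n c c' w' → w = w') ∧
      (∀ x, z x = -x) ∧ (∀ x y, e x y = -e y x) ∧
      (∀ i ∈ S, ∀ j ∈ S, i ≠ j → ∃ w, e (P i) (P j) = 1 + 2 * w) ∧
      (∀ x, ∃ (R : Finset ι) (y : Tm L 2 a S m), R ⊆ S ∧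
        x = ∑ i ∈ R, P i + (2 : ℤ_[2]) • y) ∧
      (∃ y, ∑ i ∈ S, P i = (2 : ℤ_[2]) • y) ∧
      (∀ g x y, e (ρ g x) (ρ g y) = ((chi L 2 g : ℤ_[2]ˣ) : ℤ_[2]) * e x y) ∧
      (∀ g x, ∃ y, ρ g x = x + (2 : ℤ_[2]) • y) ∧
      (∀ (i j : ι) (g : L ≃ₐ[K] L) (w : L) (r : ι → ι → L), i ≠ j → w ^ 2 = -1 → g w = w →
        (∀ u ∈ S, ∀ v ∈ S, r u v ^ 2 = algebraMap K L (a u - a v)) →
        (∀ u ∈ S, ∀ v ∈ S, g (r u v) = if (u = i ∧ v = j) ∨ (u = j ∧ v = i) then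
          algebraMap K L ζ * r u v else r u v) →
        ∀ x, ∃ y, ρ g x = x + (2 : ℤ_[2]) • (if i ∈ S ∧ j ∈ S then tv e (P i + P j) x else 0) +
          (4 : ℤ_[2]) • y) ∧
      (∀ (i : ι) (g : L ≃ₐ[K] L) (w : L) (r : ι → ι → L), i ∈ S → w ^ 2 = -1 → g w = w →
        (∀ u ∈ S, ∀ v ∈ S, r u v ^ 2 = algebraMap K L (a u - a v)) →
        (∀ u ∈ S, ∀ v ∈ S, g (r u v) = if (u = i ∧ v ≠ i) ∨ (u ≠ i ∧ v = i) then
          algebraMap K L ζ * r u v else r u v) →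
        ∀ x, ∃ y, ρ g x = -(x + (2 : ℤ_[2]) • tv e (P i) x) + (4 : ℤ_[2]) • y) := by
  have hζL : IsPrimitiveRoot (algebraMap K L ζ) 2 := hζ.map_of_injective (algebraMap K L).injective
  have hM : (∑ i ∈ S, m i).Coprime 2 := by
    rw [Finset.sum_congr rfl hm1, Finset.sum_const, smul_eq_mul, mul_one, Nat.coprime_two_right]
    exact hS
  have hf := geo_cop (L := L) (a := a) hM
  obtain ⟨hD, C, hCx, hCy, Pt, hF, hinj, hPt⟩ := exists_cyc hζL a ha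
    (fun i hi => by rw [hm1 i hi]; exact Nat.coprime_one_left 2) hM
  obtain ⟨e, he, hskew⟩ := exists_pairing C.I hξ
  obtain ⟨PP, hP, hgen, hrel⟩ := tw_exists_P C
  obtain ⟨ρ, hρ⟩ := exists_rho hζL a hM
  have hmem : ∀ i ∈ S, Pt i ∈ C.F := fun i hi => by
    rw [hF]
    exact Finset.mem_image_of_mem _ hi
  have hyM := geo_ord_y C hF hinj fun i hi => (hPt i hi).1
  have hxc := fun g : L ≃ₐ[K] L => geo_xc C hF (fun i hi => (hPt i hi).2) g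
  have hox : C.I.ord (Co.x L 2 (Stm.eqn L a S m)) = 2 := by rw [← hCx]; exact C.ord_x
  have hlx : C.I.lc (Co.x L 2 (Stm.eqn L a S m)) = 1 := by rw [← hCx]; exact C.lc_x
  have hcomm : ∀ (g : L ≃ₐ[K] L) (τ : Co L 2 (Stm.eqn L a S m) ≃+* Co L 2 (Stm.eqn L a S m)),
      (∀ c, τ (algebraMap L _ c) = algebraMap L _ (g c)) → τ (Co.x L 2 _) = Co.x L 2 _ →
        τ (Co.y L 2 _) = Co.y L 2 _ → ∀ w, τ (C.σ w) = C.σ (τ w) := fun g τ h1 h2 h3 w =>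
    geo_comm (hζ.ne_zero two_ne_zero) hf C hCx hCy h1 h2 h3 w
  have hmF : ∀ Q ∈ C.F, C.m Q = 1 := by
    intro Q hQ
    rw [hF, Finset.mem_image] at hQ
    obtain ⟨i, hi, rfl⟩ := hQ
    rw [(hPt i hi).1, hm1 i hi]
  have hpair : ∀ Q ∈ C.F, ∀ Q' ∈ C.F, Q ≠ Q' → ∃ z, e (PP Q) (PP Q') = 1 + 2 * z :=
    fun Q hQ Q' hQ' hne => tw_pair C hξ1 he hP hQ hQ' hne
  refine ⟨tw_finite C, C.z, e, fun i => PP (Pt i), ρ, ?_, hρ, ?_, ?_, tw_z C, hskew, ?_, ?_, ?_,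
    ?_, ?_, ?_, ?_⟩
  · refine ⟨C.s, fun c => C.σ.commutes c, ?_, ?_, rfl⟩
    · rw [← hCx]
      exact C.σx
    · rw [← hCy, hξ1]
      exact C.σy
  · intro t u n hn
    rw [geo_weil C.I hox hlx (dvd_pow_self 2 (by omega)), ← he t u n hn]
    exact isWeil_weil C.I (TM.pow_smul t n) (TM.pow_smul u n)
  · intro n c c' w w' hn h1 h2
    rw [geo_weil C.I hox hlx hn] at h1 h2
    exact isWeil_unique C.I h1 h2
  · intro i hi j hj hij
    exact hpair _ (hmem i hi) _ (hmem j hj) fun h => hij (hinj hi hj h)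
  · exact geo_two_gen C hF hinj hgen
  · obtain ⟨u, h⟩ := hrel
    refine ⟨u, ?_⟩
    rw [← h, geo_sum C hF hinj]
    exact Finset.sum_congr rfl fun i hi => by rw [(hPt i hi).1, hm1 i hi, one_nsmul]
  · intro g x y
    obtain ⟨τ, h1, h2, h3, h4⟩ := hρ g
    rw [h4]
    refine form_act C.I hξ he τ (g : L ≃+* L) h1 (fun w _ => ?_) (fun n _ => geo_spec hξ g n) x y
    exact geo_lc C hM hyM (g := (g : L ≃+* L)) h1 (by rw [hCx]; exact h2) (by rw [hCy]; exact h3) w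
  · intro g x
    obtain ⟨τ, h1, h2, h3, h4⟩ := hρ g
    rw [h4]
    exact tw_mod2 C τ (g : L ≃+* L) h1 (by rw [hCx]; exact h2) (hxc g) x
  · intro i j g w r hij hw hgw hr hgr x
    obtain ⟨τ, h1, h2, h3, h4⟩ := hρ g
    rw [h4]
    exact geo_two_edge C hF hinj (fun i hi => (hPt i hi).2) hmF hskew hP hgen hpair h1
      (by rw [hCx]; exact h2) (by rw [hCy]; exact h3) (hcomm g τ h1 h2 h3) hij hw hgw hr hgr x
  · intro i g w r hi hw hgw hr hgr x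
    obtain ⟨τ, h1, h2, h3, h4⟩ := hρ g
    rw [h4]
    exact geo_two_star C hS hF hinj (fun i hi => (hPt i hi).2) hmF hskew hP hgen hpair h1
      (by rw [hCx]; exact h2) (by rw [hCy]; exact h3) (hcomm g τ h1 h2 h3) hi hw hgw hr hgr x

end Pool.Agent.PTateW
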