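import Pool.Agent.HTate.Kummer
import Pool.Agent.PTateU.GeoU
import Pool.Agent.PTateW.GeoTwo
import Pool.Agent.PTateW.Full

/-!
# The data of the Galois representation of one double covering with a base point
-/

set_option autoImplicit false

noncomputable section

namespace Pool.Agent.PTateW

open Pool.Agent.PTate
open Pool.Agent.PTateU
open Pool.Agent.HTate (tv Lat)
open scoped Classical

variable {K : Type} [Field K] {L : Type} [Field L] [Algebra K L] {ι σ : Type} [Fintype ι]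

/-- the automorphism which changes one root -/
theorem exists_gal_two [Algebra.IsAlgebraic K L] [IsAlgClosed L] {ζ : K}
    (hζ : IsPrimitiveRoot ζ 2) {a : ι → K} {T : σ → Finset ι} {ξ : ℕ → L} (hξ : IsRoots 2 ξ)
    (hξ1 : ξ 1 = algebraMap K L ζ) {i j : ι} (h : Free 2 ζ a T i j) :
    ∃ (g : L ≃ₐ[K] L) (r : ι → ι → L) (w : L), w ^ 2 = -1 ∧ g w = w ∧
      (∃ z, ((chi L 2 g : ℤ_[2]ˣ) : ℤ_[2]) = 1 + 4 * z) ∧
      (∀ u v, r u v ^ 2 = algebraMap K L (a u - a v)) ∧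
      ∀ u v, (∃ s, u ∈ T s ∧ v ∈ T s) → g (r u v) = if (u = i ∧ v = j) ∨ (u = j ∧ v = i) then
        algebraMap K L ζ * r u v else r u v := by
  have hζ1 : ζ = -1 := hζ.eq_neg_one_of_two_right
  have h2 : (2 : K) ≠ 0 := by
    intro h0
    have h1 : ζ ≠ 1 := hζ.ne_one one_lt_two
    apply h1
    rw [hζ1]
    linear_combination -h0
  have hroot : ∀ x : L, ∃ r : L, r ^ 2 = x := fun x =>
    IsAlgClosed.exists_pow_nat_eq x two_pos
  choose r hr using hroot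
  have hw : ξ 2 ^ 2 = -1 := by
    have h3 := hξ.pow 1
    rw [hξ1, hζ1, map_neg, map_one] at h3
    exact h3
  have hfree : HTate.Free a T i j := by
    intro R c hR
    have h3 := h R (fun _ => 1) c 0 hR
    have h4 := h R (fun _ => 1) c 1 hR
    simp only [pow_zero, one_mul, pow_one, hζ1] at h3 h4
    refine ⟨h3, fun h5 => h4 ?_⟩
    rw [h5]
    ring
  obtain ⟨g, hg1, hg2⟩ := HTate.exists_galois h2 a T
    (fun u v => r (algebraMap K L (a u - a v))) (fun u v => hr _) hw hfree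
  refine ⟨g, fun u v => r (algebraMap K L (a u - a v)), ξ 2, hw, hg1, ?_, fun u v => hr _,
    fun u v huv => ?_⟩
  · obtain ⟨z, hz⟩ := geo_chi hξ (n := 2) (by norm_num) hg1
    refine ⟨z, ?_⟩
    rw [hz]
    norm_num
  · rw [hg2 u v huv, hζ1, map_neg, map_one, neg_one_mul]

variable {T : σ → Finset ι} {ζ : K} {a : ι → K} {e : Option ι → ZMod 2} {o : Option ι}

private theorem ne_zero_two {x : ZMod 2} (hx : x ≠ 0) : x = 1 := by
  revert hx
  revert x
  decide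

theorem ex_two {q : Option ι × ι} (hq : q ∈ Sb e o) : ex e q = 1 := by
  have h1 := (mem_Sb.1 hq).2.2
  rw [ex, ne_zero_two h1]
  rfl

/-- the number of the branch points is even -/
theorem even_Br (h : ∑ i, e i = 0) : Even (Br e).card := by
  have h1 : ∑ i, e i = ((Br e).card : ZMod 2) := by
    rw [Finset.card_eq_sum_ones, Nat.cast_sum, Br, Finset.sum_filter]
    refine Finset.sum_congr rfl fun i _ => ?_
    by_cases hi : e i = 0
    · rw [if_neg (not_not.2 hi), hi]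
    · rw [if_pos hi, ne_zero_two hi, Nat.cast_one]
  rw [h1, ZMod.natCast_eq_zero_iff_even] at h
  exact h

theorem odd_Sb (h : Cover 2 ζ a T e o) : Odd (Sb e o).card := by
  have h1 := even_Br h.sum
  rw [← h.card] at h1
  exact Nat.even_add_one.1 h1 |> Nat.not_even_iff_odd.1

theorem three_Sb (h : Cover 2 ζ a T e o) : 3 ≤ (Sb e o).card := by
  have h1 := h.card
  have h2 := h.three
  obtain ⟨k, hk⟩ := odd_Sb h
  omega

/-- all the data of one curve -/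
theorem exists_data_two [Algebra.IsAlgebraic K L] [IsAlgClosed L]
    (hζ : IsPrimitiveRoot ζ 2) (h : Cover 2 ζ a T e o) {ξ : ℕ → L} (hξ : IsRoots 2 ξ)
    (hξ1 : ξ 1 = algebraMap K L ζ) :
    ∃ (_ : Module.Finite ℤ_[2] (Tm L 2 (pt a) (Sb e o) (ex e)))
      (E : Tm L 2 (pt a) (Sb e o) (ex e) →ₗ[ℤ_[2]] Tm L 2 (pt a) (Sb e o) (ex e) →ₗ[ℤ_[2]]
        ℤ_[2])
      (ρ : (L ≃ₐ[K] L) →* Module.End ℤ_[2] (Tm L 2 (pt a) (Sb e o) (ex e)))
      (P : Option ι × ι → Tm L 2 (pt a) (Sb e o) (ex e)),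
      (∀ g, ∃ τ : Co L 2 (Stm.eqn L (pt a) (Sb e o) (ex e)) ≃+*
          Co L 2 (Stm.eqn L (pt a) (Sb e o) (ex e)),
        (∀ c, τ (algebraMap L _ c) = algebraMap L _ (g c)) ∧ τ (Co.x L 2 _) = Co.x L 2 _ ∧
          τ (Co.y L 2 _) = Co.y L 2 _ ∧ ρ g = TM.map (J.map τ)) ∧
      (∀ (t u : Tm L 2 (pt a) (Sb e o) (ex e)) (n : ℕ), 1 ≤ n →
        Stm.IsWeil (Co.x L 2 (Stm.eqn L (pt a) (Sb e o) (ex e))) (2 ^ n)
          ((t : ℕ → J (Co L 2 (Stm.eqn L (pt a) (Sb e o) (ex e)))) n)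
          ((u : ℕ → J (Co L 2 (Stm.eqn L (pt a) (Sb e o) (ex e)))) n)
          (ξ n ^ (PadicInt.toZModPow n (E t u)).val)) ∧
      (∀ (n : ℕ) (c c' : J (Co L 2 (Stm.eqn L (pt a) (Sb e o) (ex e)))) (w w' : L), 2 ∣ n →
        Stm.IsWeil (Co.x L 2 _) n c c' w → Stm.IsWeil (Co.x L 2 _) n c c' w' → w = w') ∧
      Lat (fun _ : Unit => Sb e o) (fun _ => E) (fun _ => P) ∧
      (∀ g x y, E (ρ g x) (ρ g y) = ((chi L 2 g : ℤ_[2]ˣ) : ℤ_[2]) * E x y) ∧
      (∀ g x, ∃ y, ρ g x = x + (2 : ℤ_[2]) • y) ∧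
      (∀ (i j : ι) (g : L ≃ₐ[K] L) (r : ι → ι → L) (w : L), i ≠ j → w ^ 2 = -1 → g w = w →
        (∀ u v, r u v ^ 2 = algebraMap K L (a u - a v)) →
        (∀ u ∈ Tb e, ∀ v ∈ Tb e, g (r u v) = if (u = i ∧ v = j) ∨ (u = j ∧ v = i) then
          algebraMap K L ζ * r u v else r u v) →
        ∃ ε : ℤ_[2], (ε = 1 ∨ ε = -1) ∧ ∀ x, ∃ y, ρ g x = ε • (x + (2 : ℤ_[2]) •
          tv E (if i ∈ Tb e ∧ j ∈ Tb e then (if o = some i then 0 else P (o, i)) +
            (if o = some j then 0 else P (o, j)) else 0) x) + (4 : ℤ_[2]) • y) := by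
  obtain ⟨hfin, z, E, P, ρ, -, h2, h3, h4, -, h7, h8, h9, h10, h11, h12, h13, h14⟩ :=
    geo_two (L := L) hζ (pt a) h.inj (fun q hq => ex_two hq) (odd_Sb h) hξ hξ1
  have hζp : algebraMap K L ζ ^ 2 = 1 := by
    rw [← map_pow, hζ.pow_eq_one, map_one]
  have htv0 : tv E 0 = 0 := by
    have := HTate.tv_smul (e := E) 0 (0 : Tm L 2 (pt a) (Sb e o) (ex e))
    simpa using this
  refine ⟨hfin, E, ρ, P, h2, h3, h4, ⟨fun _ => odd_Sb h, fun _ => three_Sb h,
    fun _ _ _ => Subsingleton.elim _ _, fun _ => h7, fun _ => h8, fun _ => h9, fun _ => h10⟩,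
    h11, h12, ?_⟩
  intro i j g r w hij hw hgw hr hg
  -- a pair which contains the base point
  have star : ∀ i' j' : ι, (i' = i ∧ j' = j) ∨ (i' = j ∧ j' = i) → o = some j' →
      ∃ ε : ℤ_[2], (ε = 1 ∨ ε = -1) ∧ ∀ x, ∃ y, ρ g x = ε • (x + (2 : ℤ_[2]) •
        tv E (if i' ∈ Tb e then P (o, i') else 0) x) + (4 : ℤ_[2]) • y := by
    intro i' j' hij' ho
    have hne : i' ≠ j' := by
      rcases hij' with ⟨rfl, rfl⟩ | ⟨rfl, rfl⟩
      · exact hij
      · exact Ne.symm hij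
    have hg' : ∀ u ∈ Tb e, ∀ v ∈ Tb e, g (r u v) = if (u = i' ∧ v = j') ∨ (u = j' ∧ v = i') then
        algebraMap K L ζ * r u v else r u v := by
      intro u hu v hv
      rw [hg u hu v hv]
      rcases hij' with ⟨rfl, rfl⟩ | ⟨rfl, rfl⟩
      · rfl
      · simp only [or_comm]
    have hst := fun (u : Option ι × ι) (hu : u ∈ Sb e o) (v : Option ι × ι) (hv : v ∈ Sb e o) =>
      h.gal_star hr hζp ho hg' hu hv
    by_cases hi : i' ∈ Tb e
    · refine ⟨-1, Or.inr rfl, fun x => ?_⟩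
      obtain ⟨y, hy⟩ := h14 (o, i') g w (rt r) (mem_Sb.2 ⟨rfl, by rw [ho]; simpa using Ne.symm hne,
        mem_Tb.1 hi⟩) hw hgw (fun u hu v hv => h.root hr hu hv) (fun u hu v hv => by
          have h16 := hst u hu v hv
          rw [show 2 - 1 = 1 from rfl, pow_one] at h16
          convert h16) x
      refine ⟨y, ?_⟩
      rw [hy, if_pos hi]
      module
    · refine ⟨1, Or.inl rfl, fun x => ?_⟩
      have hnot : ∀ u ∈ Sb e o, u ≠ (o, i') := by
        intro u hu hh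
        rw [hh, mem_Sb] at hu
        exact hi (mem_Tb.2 hu.2.2)
      obtain ⟨y, hy⟩ := h13 (o, i') (o, j') g w (rt r) (fun hh => hne (Prod.mk.inj hh).2) hw hgw
        (fun u hu v hv => h.root hr hu hv)
        (fun u hu v hv => by
          have h1 := hnot u hu
          have h2 := hnot v hv
          rw [hst u hu v hv, if_neg (by tauto), if_neg (by tauto)]) x
      refine ⟨y, ?_⟩
      rw [hy, if_neg fun hh => hnot _ hh.1 rfl, if_neg hi, htv0, LinearMap.zero_apply]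
      module
  by_cases hoi : o = some i
  · have hoj : o ≠ some j := by rw [hoi]; simpa using hij
    obtain ⟨ε, hε, hx⟩ := star j i (Or.inr ⟨rfl, rfl⟩) hoi
    refine ⟨ε, hε, fun x => ?_⟩
    obtain ⟨y, hy⟩ := hx x
    refine ⟨y, ?_⟩
    rw [hy]
    by_cases hj : j ∈ Tb e
    · rw [if_pos hj, if_pos ⟨mem_Tb.2 (h.base' hoi).1, hj⟩, if_pos hoi, if_neg hoj, zero_add]
    · rw [if_neg hj, if_neg fun hh => hj hh.2]
  by_cases hoj : o = some j
  · obtain ⟨ε, hε, hx⟩ := star i j (Or.inl ⟨rfl, rfl⟩) hoj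
    refine ⟨ε, hε, fun x => ?_⟩
    obtain ⟨y, hy⟩ := hx x
    refine ⟨y, ?_⟩
    rw [hy]
    by_cases hi : i ∈ Tb e
    · rw [if_pos hi, if_pos ⟨hi, mem_Tb.2 (h.base' hoj).1⟩, if_neg hoi, if_pos hoj, add_zero]
    · rw [if_neg hi, if_neg fun hh => hi hh.1]
  refine ⟨1, Or.inl rfl, fun x => ?_⟩
  obtain ⟨y, hy⟩ := h13 (o, i) (o, j) g w (rt r) (fun hh => hij (Prod.mk.inj hh).2) hw hgw
    (fun u hu v hv => h.root hr hu hv)
    (fun u hu v hv => by
      have h16 := h.gal_edge hg hoi hoj hu hv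
      convert h16) x
  refine ⟨y, ?_⟩
  rw [hy]
  have h16 : ((o, i) ∈ Sb e o ∧ (o, j) ∈ Sb e o) ↔ (i ∈ Tb e ∧ j ∈ Tb e) := by
    simp only [mem_Sb, mem_Tb]
    tauto
  by_cases hc : i ∈ Tb e ∧ j ∈ Tb e
  · rw [if_pos (h16.2 hc), if_pos hc, if_neg hoi, if_neg hoj, one_smul]
  · rw [if_neg fun hh => hc (h16.1 hh), if_neg hc, htv0, LinearMap.zero_apply, one_smul]

end Pool.Agent.PTateW
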