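import Pool.Agent.HTate.LieDefs

/-!
# The Lie algebra of several double coverings: definitions
-/

set_option autoImplicit false

noncomputable section

namespace Pool.Agent.PTateW

open Pool.Agent.HTate

variable {σ ι : Type} [DecidableEq σ] [DecidableEq ι]
  {M : σ → Type} [∀ s, AddCommGroup (M s)] [∀ s, Module ℤ_[2] (M s)]

/-- A saturated Lie subalgebra `L` of the product of the symplectic Lie algebras, which contains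
for every family `u` in `V` an element congruent modulo two to the transvections with the
vectors `u s`, up to a common scalar. -/
structure LieW (S : σ → Finset ι) (e : ∀ s, M s →ₗ[ℤ_[2]] M s →ₗ[ℤ_[2]] ℤ_[2])
    (P : ∀ s, ι → M s) (V : Set (∀ s, M s))
    (L : Submodule ℤ_[2] (∀ s, Module.End ℤ_[2] (M s))) : Prop where
  lat : ∀ s, Lat (fun _ : Unit => S s) (fun _ => e s) fun _ => P s
  sp : ∀ X ∈ L, ∀ s, IsSp (e s) (X s)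
  lie : ∀ X ∈ L, ∀ Y ∈ L, X * Y - Y * X ∈ L
  sat : ∀ X, (2 : ℤ_[2]) • X ∈ L → X ∈ L
  real : ∀ u ∈ V, ∃ X ∈ L, ∃ c : ℤ_[2], ∀ s, Cg1 (X s) (tv (e s) (u s) + c • 1)
  edge : ∀ s, ∀ i ∈ S s, ∀ j ∈ S s, i ≠ j → ∃ u ∈ V, u s = P s i + P s j
  sep : ∀ s t, s ≠ t → (∃ u ∈ V, u t = 0 ∧ ∃ w z, e s w (u s) = 1 + 2 * z) ∨
    ∃ u ∈ V, u s = 0 ∧ ∃ w z, e t w (u t) = 1 + 2 * z

/-- The Galois representations. -/
structure RepW {G : Type} [Group G] (S : σ → Finset ι)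
    (e : ∀ s, M s →ₗ[ℤ_[2]] M s →ₗ[ℤ_[2]] ℤ_[2]) (P : ∀ s, ι → M s) (V : Set (∀ s, M s))
    (ρ : ∀ s, G →* Module.End ℤ_[2] (M s)) (χ : G →* ℤ_[2]ˣ) : Prop where
  lat : ∀ s, Lat (fun _ : Unit => S s) (fun _ => e s) fun _ => P s
  sim : ∀ g s x y, e s (ρ s g x) (ρ s g y) = χ g * e s x y
  mod2 : ∀ g s x, ∃ y, ρ s g x = x + (2 : ℤ_[2]) • y
  real : ∀ u ∈ V, ∃ (g : G) (ε : σ → ℤ_[2]), (∃ z, (χ g : ℤ_[2]) = 1 + 4 * z) ∧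
    (∀ s, ε s = 1 ∨ ε s = -1) ∧
      ∀ s x, ∃ y, ρ s g x = ε s • (x + (2 : ℤ_[2]) • tv (e s) (u s) x) + (4 : ℤ_[2]) • y
  edge : ∀ s, ∀ i ∈ S s, ∀ j ∈ S s, i ≠ j → ∃ u ∈ V, u s = P s i + P s j
  sep : ∀ s t, s ≠ t → (∃ u ∈ V, u t = 0 ∧ ∃ w z, e s w (u s) = 1 + 2 * z) ∨
    ∃ u ∈ V, u s = 0 ∧ ∃ w z, e t w (u t) = 1 + 2 * z

/-- A product of pairings. -/
def IsPP (e : ∀ s, M s →ₗ[ℤ_[2]] M s →ₗ[ℤ_[2]] ℤ_[2]) {E : Type} [Field E] [Algebra ℤ_[2] E]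
    {n r : ℕ} (g : (Fin r → Fin n → ∀ s, M s) → E) : Prop :=
  ∃ (k : ℕ) (s : Fin k → σ) (π : Fin k × Bool ≃ Fin r) (β : Fin r → Fin n),
    ∀ v, g v = ∏ a, algebraMap ℤ_[2] E (e (s a)
      (v (π (a, true)) (β (π (a, true))) (s a)) (v (π (a, false)) (β (π (a, false))) (s a)))

end Pool.Agent.PTateW
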