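import Pool.Agent.HTate.FftLat
import Pool.Agent.PTateW.DefsW

/-!
# The first fundamental theorem for multilinear forms
-/

set_option autoImplicit false
set_option linter.unusedSectionVars false

noncomputable section

namespace Pool.Agent.PTateW

open Pool.Agent.HTate

variable {σ : Type} [Fintype σ] [DecidableEq σ]
  {M : σ → Type} [∀ s, AddCommGroup (M s)] [∀ s, Module ℤ_[2] (M s)]
  [∀ s, Module.Finite ℤ_[2] (M s)] [∀ s, Module.IsTorsionFree ℤ_[2] (M s)]
  {e : ∀ s, M s →ₗ[ℤ_[2]] M s →ₗ[ℤ_[2]] ℤ_[2]}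

/-- The block with the index `l`. -/
private def bl {r n : ℕ} (l : Fin r) :
    (Fin (r * n) → ∀ s, M s) →ₗ[ℤ_[2]] (Fin n → ∀ s, M s) where
  toFun w a := w (finProdFinEquiv (l, a))
  map_add' _ _ := rfl
  map_smul' _ _ := rfl

/-- The vector with the given block with the index `l`, the other blocks being zero. -/
private def inj {r n : ℕ} (l : Fin r) (x : Fin n → ∀ s, M s) : Fin (r * n) → ∀ s, M s := fun b =>
  if (finProdFinEquiv.symm b).1 = l then x (finProdFinEquiv.symm b).2 else 0

private theorem bl_inj {r n : ℕ} (l l' : Fin r) (x : Fin n → ∀ s, M s) :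
    bl l (inj l' x) = if l = l' then x else 0 := by
  funext a
  show inj l' x (finProdFinEquiv (l, a)) = _
  unfold inj
  rw [Equiv.symm_apply_apply]
  split_ifs <;> rfl

/-- the alternating form of a multilinear form -/
private def alt {r n : ℕ}
    (F : MultilinearMap ℤ_[2] (fun _ : Fin r => Fin n → ∀ s, M s) ℚ_[2]) :
    (Fin (r * n) → ∀ s, M s) [⋀^Fin r]→ₗ[ℤ_[2]] ℚ_[2] :=
  MultilinearMap.alternatization (F.compLinearMap fun l => bl l)

private theorem alt_apply {r n : ℕ}
    (F : MultilinearMap ℤ_[2] (fun _ : Fin r => Fin n → ∀ s, M s) ℚ_[2])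
    (w : Fin r → Fin (r * n) → ∀ s, M s) :
    alt F w = ∑ π : Equiv.Perm (Fin r), Equiv.Perm.sign π • F fun l => bl l (w (π l)) := by
  rw [alt, MultilinearMap.alternatization_apply]
  rfl

private theorem alt_inj {r n : ℕ}
    (F : MultilinearMap ℤ_[2] (fun _ : Fin r => Fin n → ∀ s, M s) ℚ_[2])
    (v : Fin r → Fin n → ∀ s, M s) : alt F (fun i => inj i (v i)) = F v := by
  rw [alt_apply, Finset.sum_eq_single 1]
  · rw [Equiv.Perm.sign_one, one_smul]
    congr 1
    funext l
    rw [Equiv.Perm.one_apply, bl_inj, if_pos rfl]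
  · intro π _ hπ
    obtain ⟨l, hl⟩ : ∃ l, l ≠ π l := by
      by_contra hcon
      push Not at hcon
      exact hπ (Equiv.ext fun l => (hcon l).symm)
    have h1 : (F fun l => bl l (inj (π l) (v (π l)))) = 0 := by
      refine F.map_coord_zero l ?_
      rw [bl_inj, if_neg hl]
    rw [h1, smul_zero]
  · intro h
    exact absurd (Finset.mem_univ _) h

private theorem alt_kill {r n : ℕ}
    {F : MultilinearMap ℤ_[2] (fun _ : Fin r => Fin n → ∀ s, M s) ℚ_[2]}
    (hF : ∀ s (u : M s) (v : Fin r → Fin n → ∀ s, M s),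
      ∑ i, F (Function.update v i fun a => Pi.single s (tv (e s) u (v i a s))) = 0)
    (s : σ) (u : M s) (w : Fin r → Fin (r * n) → ∀ s, M s) :
    ∑ i, alt F (Function.update w i fun a => Pi.single s (tv (e s) u (w i a s))) = 0 := by
  simp only [alt_apply]
  rw [Finset.sum_comm]
  refine Finset.sum_eq_zero fun π _ => ?_
  rw [← Finset.smul_sum]
  have h1 : ∑ i, F (fun l => bl l (Function.update w i
      (fun a => Pi.single s (tv (e s) u (w i a s))) (π l))) = 0 := by
    rw [← Equiv.sum_comp π, ← hF s u fun l => bl l (w (π l))]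
    refine Finset.sum_congr rfl fun i _ => ?_
    congr 1
    funext l
    by_cases hl : l = i
    · subst hl
      rw [Function.update_self, Function.update_self]
      rfl
    · rw [Function.update_of_ne hl, Function.update_of_ne fun hh => hl (π.injective hh)]
  rw [h1, smul_zero]

/-- The permutation `π` of `Fin (2 * m)` as a matching. -/
private def mt {m : ℕ} (π : Equiv.Perm (Fin (2 * m))) : Fin m × Bool ≃ Fin (2 * m) where
  toFun x := π (if x.2 = true then ⟨2 * x.1, by omega⟩ else ⟨2 * x.1 + 1, by omega⟩)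
  invFun i := (⟨(π.symm i : ℕ) / 2, by omega⟩, decide ((π.symm i : ℕ) % 2 = 0))
  left_inv := by
    rintro ⟨l, c⟩
    rcases c with _ | _
    · simp only [Bool.false_eq_true, if_false, Equiv.symm_apply_apply, Prod.mk.injEq]
      refine ⟨Fin.ext ?_, ?_⟩
      · show (2 * (l : ℕ) + 1) / 2 = l
        omega
      · rw [decide_eq_false_iff_not]
        omega
    · simp only [if_true, Equiv.symm_apply_apply, Prod.mk.injEq]
      refine ⟨Fin.ext ?_, ?_⟩
      · show (2 * (l : ℕ)) / 2 = l
        omega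
      · rw [decide_eq_true_iff]
        omega
  right_inv := by
    intro i
    rw [← Equiv.eq_symm_apply]
    apply Fin.ext
    by_cases h : (π.symm i : ℕ) % 2 = 0
    · simp only [h, decide_true, if_true]
      omega
    · simp only [h, decide_false, Bool.false_eq_true, if_false]
      omega

private theorem mt_true {m : ℕ} (π : Equiv.Perm (Fin (2 * m))) (l : Fin m) :
    mt π (l, true) = π ⟨2 * l, by omega⟩ := rfl

private theorem mt_false {m : ℕ} (π : Equiv.Perm (Fin (2 * m))) (l : Fin m) :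
    mt π (l, false) = π ⟨2 * l + 1, by omega⟩ := rfl

private theorem alt_mem {n m : ℕ} (κ : Fin m → σ × Fin (2 * m * n) × Fin (2 * m * n)) :
    (fun v : Fin (2 * m) → Fin n → ∀ s, M s =>
      ((altForm (j := m) (n := 2 * m * n) (fun s x y => e s x y) κ
        (fun i => inj i (v i)) : ℤ_[2]) : ℚ_[2])) ∈
      Submodule.span ℚ_[2] {g : (Fin (2 * m) → Fin n → ∀ s, M s) → ℚ_[2] | IsPP e g} := by
  have h1 : (fun v : Fin (2 * m) → Fin n → ∀ s, M s =>
      ((altForm (j := m) (n := 2 * m * n) (fun s x y => e s x y) κ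
        (fun i => inj i (v i)) : ℤ_[2]) : ℚ_[2])) =
      ∑ π : Equiv.Perm (Fin (2 * m)), ((Equiv.Perm.sign π : ℤ) : ℚ_[2]) •
        fun v : Fin (2 * m) → Fin n → ∀ s, M s => ∏ l : Fin m, algebraMap ℤ_[2] ℚ_[2]
          (e (κ l).1 (inj (mt π (l, true)) (v (mt π (l, true))) (κ l).2.1 (κ l).1)
            (inj (mt π (l, false)) (v (mt π (l, false))) (κ l).2.2 (κ l).1)) := by
    funext v
    rw [Finset.sum_apply]
    unfold altForm
    rw [PadicInt.coe_sum]
    refine Finset.sum_congr rfl fun π _ => ?_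
    rw [zsmul_eq_mul, PadicInt.coe_mul, PadicInt.coe_intCast, Pi.smul_apply, smul_eq_mul]
    congr 1
    unfold prodForm
    exact map_prod (algebraMap ℤ_[2] ℚ_[2]) _ _
  rw [h1]
  refine Submodule.sum_mem _ fun π _ => Submodule.smul_mem _ _ ?_
  by_cases hc : ∀ l, (finProdFinEquiv.symm (κ l).2.1).1 = mt π (l, true) ∧
      (finProdFinEquiv.symm (κ l).2.2).1 = mt π (l, false)
  · refine Submodule.subset_span ⟨m, fun l => (κ l).1, mt π, fun i =>
      if ((mt π).symm i).2 = true then (finProdFinEquiv.symm (κ ((mt π).symm i).1).2.1).2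
      else (finProdFinEquiv.symm (κ ((mt π).symm i).1).2.2).2, fun v => ?_⟩
    refine Finset.prod_congr rfl fun l _ => ?_
    simp only [Equiv.symm_apply_apply, if_true, Bool.false_eq_true, if_false]
    unfold inj
    rw [if_pos (hc l).1, if_pos (hc l).2]
  · push Not at hc
    obtain ⟨l, hl⟩ := hc
    have h2 : (fun v : Fin (2 * m) → Fin n → ∀ s, M s => ∏ l : Fin m, algebraMap ℤ_[2] ℚ_[2]
          (e (κ l).1 (inj (mt π (l, true)) (v (mt π (l, true))) (κ l).2.1 (κ l).1)
            (inj (mt π (l, false)) (v (mt π (l, false))) (κ l).2.2 (κ l).1))) = 0 := by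
      funext v
      refine Finset.prod_eq_zero (Finset.mem_univ l) ?_
      by_cases h3 : (finProdFinEquiv.symm (κ l).2.1).1 = mt π (l, true)
      · have h4 : inj (mt π (l, false)) (v (mt π (l, false))) (κ l).2.2 = 0 :=
          if_neg (hl h3)
        rw [h4, Pi.zero_apply, map_zero, map_zero]
      · have h4 : inj (mt π (l, true)) (v (mt π (l, true))) (κ l).2.1 = 0 := if_neg h3
        rw [h4, Pi.zero_apply, map_zero, LinearMap.zero_apply, map_zero]
    rw [h2]
    exact Submodule.zero_mem _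

/-- **The first fundamental theorem for multilinear forms** of even degree. -/
theorem fft_even (skew : ∀ s x y, e s x y = -e s y x) (nd : ∀ s x, (∀ y, e s x y = 0) → x = 0)
    {n m : ℕ} (F : MultilinearMap ℤ_[2] (fun _ : Fin (2 * m) => Fin n → ∀ s, M s) ℚ_[2])
    (hF : ∀ s (u : M s) (v : Fin (2 * m) → Fin n → ∀ s, M s),
      ∑ i, F (Function.update v i fun a => Pi.single s (tv (e s) u (v i a s))) = 0) :
    (fun v => F v) ∈ Submodule.span ℚ_[2] {g | IsPP e g} := by
  have h1 := fft_lat e skew nd (n := 2 * m * n) (j := m) (alt F) (alt_kill hF)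
  have h2 := Submodule.mem_map_of_mem (f := LinearMap.funLeft ℚ_[2] ℚ_[2]
    fun (v : Fin (2 * m) → Fin n → ∀ s, M s) i => inj i (v i)) h1
  have h3 : (LinearMap.funLeft ℚ_[2] ℚ_[2]
      fun (v : Fin (2 * m) → Fin n → ∀ s, M s) i => inj i (v i)) (fun v => alt F v) =
      fun v => F v := by
    funext v
    exact alt_inj F v
  rw [h3, Submodule.map_span] at h2
  refine Submodule.span_le.2 ?_ h2
  rintro _ ⟨_, ⟨κ, rfl⟩, rfl⟩
  exact alt_mem κ

end Pool.Agent.PTateW
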