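import Pool.Agent.HTate.DerivEq
import Pool.Agent.PTate.Rep
import Pool.Agent.PTateW.Full

/-!
# The Lie algebra of a Tate form
-/

set_option autoImplicit false
set_option linter.unusedSectionVars false

noncomputable section

namespace Pool.Agent.PTateW

open Pool.Agent.HTate

/-! ### Derivations of multilinear forms -/

section Deriv

variable {R W N : Type} [CommRing R] [AddCommGroup W] [Module R W] [AddCommGroup N] [Module R N]
  {r : ℕ}

/-- The derivation of multilinear forms given by an endomorphism. -/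
def dform (F : MultilinearMap R (fun _ : Fin r => W) N) (X : Module.End R W)
    (v : Fin r → W) : N :=
  ∑ i, F (Function.update v i (X (v i)))

theorem dform_add (F : MultilinearMap R (fun _ : Fin r => W) N) (X Y : Module.End R W)
    (v : Fin r → W) : dform F (X + Y) v = dform F X v + dform F Y v := by
  simp only [dform, LinearMap.add_apply, F.map_update_add, Finset.sum_add_distrib]

theorem dform_smul (F : MultilinearMap R (fun _ : Fin r => W) N) (c : R)
    (X : Module.End R W) (v : Fin r → W) : dform F (c • X) v = c • dform F X v := by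
  simp only [dform, LinearMap.smul_apply, F.map_update_smul, Finset.smul_sum]

theorem dform_sub (F : MultilinearMap R (fun _ : Fin r => W) N) (X Y : Module.End R W)
    (v : Fin r → W) : dform F (X - Y) v = dform F X v - dform F Y v := by
  simp only [dform, LinearMap.sub_apply, F.map_update_sub, Finset.sum_sub_distrib]

theorem dform_one (F : MultilinearMap R (fun _ : Fin r => W) N) (v : Fin r → W) :
    dform F 1 v = (r : R) • F v := by
  simp [dform, Nat.cast_smul_eq_nsmul]

/-- the bracket of two derivations -/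
theorem dform_lie {Q : Type} [Field Q] [Algebra R Q]
    (F : MultilinearMap R (fun _ : Fin r => W) Q) {X Y : Module.End R W} {c d : Q}
    (hX : ∀ v, dform F X v = c * F v) (hY : ∀ v, dform F Y v = d * F v) (v : Fin r → W) :
    dform F (X * Y - Y * X) v = 0 := by
  rw [dform_sub]
  have h1 : ∑ i, ∑ k, F (Function.update (Function.update v i (Y (v i))) k
      (X (Function.update v i (Y (v i)) k))) = c * (d * F v) := by
    rw [← hY v, dform, Finset.mul_sum]
    exact Finset.sum_congr rfl fun i _ => hX (Function.update v i (Y (v i)))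
  have h2 : ∑ i, ∑ k, F (Function.update (Function.update v i (X (v i))) k
      (Y (Function.update v i (X (v i)) k))) = c * (d * F v) := by
    rw [mul_left_comm, ← hX v, dform, Finset.mul_sum]
    exact Finset.sum_congr rfl fun i _ => hY (Function.update v i (X (v i)))
  rw [Finset.sum_comm] at h2
  have h3 : ∑ i, ∑ k, (F (Function.update (Function.update v i (Y (v i))) k
      (X (Function.update v i (Y (v i)) k))) -
      F (Function.update (Function.update v k (X (v k))) i
      (Y (Function.update v k (X (v k)) i)))) = 0 := by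
    simp only [Finset.sum_sub_distrib, h1, h2, sub_self]
  have h4 : ∀ i, ∑ k, (F (Function.update (Function.update v i (Y (v i))) k
      (X (Function.update v i (Y (v i)) k))) -
      F (Function.update (Function.update v k (X (v k))) i
      (Y (Function.update v k (X (v k)) i)))) =
      F (Function.update v i ((X * Y) (v i))) - F (Function.update v i ((Y * X) (v i))) := by
    intro i
    rw [Finset.sum_eq_single i]
    · simp
    · intro k _ hk
      rw [Function.update_of_ne hk, Function.update_of_ne (Ne.symm hk),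
        Function.update_comm hk, sub_self]
    · intro h
      exact absurd (Finset.mem_univ i) h
  simp only [h4, Finset.sum_sub_distrib] at h3
  exact h3

end Deriv

/-! ### Integrality -/

private theorem norm_two_pow (N : ℕ) (x : ℚ_[2]) :
    ‖(2 : ℚ_[2]) ^ N * x‖ = ‖x‖ / 2 ^ N := by
  have h : ‖(2 : ℚ_[2])‖ = 2⁻¹ := by
    have := Padic.norm_p (p := 2)
    simpa using this
  rw [norm_mul, norm_pow, h, inv_pow]
  field_simp

private theorem exists_int {W : Type} [AddCommGroup W] [Module ℤ_[2] W] [Module.Finite ℤ_[2] W]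
    [Module.IsTorsionFree ℤ_[2] W] {r : ℕ}
    (F : MultilinearMap ℤ_[2] (fun _ : Fin r => W) ℚ_[2]) :
    ∃ (N : ℕ) (F' : MultilinearMap ℤ_[2] (fun _ : Fin r => W) ℤ_[2]),
      ∀ v, ((F' v : ℤ_[2]) : ℚ_[2]) = (2 : ℚ_[2]) ^ N * F v := by
  have : Module.Free ℤ_[2] W := inferInstance
  let b := Module.Free.chooseBasis ℤ_[2] W
  have h1 : ∀ ρ : Fin r → Module.Free.ChooseBasisIndex ℤ_[2] W, ∃ N : ℕ,
      ‖F fun i => b (ρ i)‖ ≤ 2 ^ N := by
    intro ρ
    obtain ⟨N, hN⟩ := pow_unbounded_of_one_lt ‖F fun i => b (ρ i)‖ one_lt_two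
    exact ⟨N, hN.le⟩
  choose M hM using h1
  let N := ∑ ρ, M ρ
  have h2 : ∀ ρ : Fin r → Module.Free.ChooseBasisIndex ℤ_[2] W,
      ‖(2 : ℚ_[2]) ^ N * F fun i => b (ρ i)‖ ≤ 1 := by
    intro ρ
    rw [norm_two_pow, div_le_one (by positivity)]
    exact (hM ρ).trans (pow_le_pow_right₀ one_le_two
      (Finset.single_le_sum (f := M) (fun _ _ => Nat.zero_le _) (Finset.mem_univ ρ)))
  have h3 : ∀ v, ‖(2 : ℚ_[2]) ^ N * F v‖ ≤ 1 := by
    intro v
    have e1 : v = fun i => ∑ j, b.repr (v i) j • b j := by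
      funext i
      exact (b.sum_repr (v i)).symm
    have e2 : F v = ∑ ρ : Fin r → Module.Free.ChooseBasisIndex ℤ_[2] W,
        (∏ i, b.repr (v i) (ρ i)) • F fun i => b (ρ i) := by
      conv_lhs => rw [e1]
      rw [F.map_sum]
      exact Finset.sum_congr rfl fun ρ _ => F.map_smul_univ _ _
    have e3 : (2 : ℚ_[2]) ^ N * F v ∈ (LinearMap.range (Algebra.linearMap ℤ_[2] ℚ_[2])) := by
      rw [e2, Finset.mul_sum]
      refine Submodule.sum_mem _ fun ρ _ => ?_
      rw [mul_smul_comm]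
      exact Submodule.smul_mem _ _ ⟨⟨_, h2 ρ⟩, rfl⟩
    obtain ⟨y, hy⟩ := e3
    rw [← hy]
    exact y.2
  let q : (Fin r → W) → ℤ_[2] := fun v => ⟨(2 : ℚ_[2]) ^ N * F v, h3 v⟩
  have hq : ∀ v, ((q v : ℤ_[2]) : ℚ_[2]) = (2 : ℚ_[2]) ^ N * F v := fun _ => rfl
  let F' : MultilinearMap ℤ_[2] (fun _ : Fin r => W) ℤ_[2] :=
    { toFun := q
      map_update_add' := by
        intro _ v i x y
        apply Subtype.ext
        rw [PadicInt.coe_add, hq, hq, hq]
        simp only [MultilinearMap.map_update_add]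
        ring
      map_update_smul' := by
        intro _ v i c x
        apply Subtype.ext
        rw [smul_eq_mul, PadicInt.coe_mul, hq, hq]
        simp only [MultilinearMap.map_update_smul, Algebra.smul_def]
        rw [show (algebraMap ℤ_[2] ℚ_[2]) c = (c : ℚ_[2]) from rfl]
        ring }
  exact ⟨N, F', hq⟩

/-! ### Halves -/

private theorem two_smul_inj {W : Type} [AddCommGroup W] [Module ℤ_[2] W]
    [Module.IsTorsionFree ℤ_[2] W] {x y : W} (h : (2 : ℤ_[2]) • x = (2 : ℤ_[2]) • y) : x = y :=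
  smul_right_injective W (two_ne_zero : (2 : ℤ_[2]) ≠ 0) h

private theorem exists_half {W : Type} [AddCommGroup W] [Module ℤ_[2] W]
    [Module.IsTorsionFree ℤ_[2] W] (X : Module.End ℤ_[2] W)
    (h : ∀ x, ∃ y, X x = (2 : ℤ_[2]) • y) : ∃ Y : Module.End ℤ_[2] W, X = (2 : ℤ_[2]) • Y := by
  choose y hy using h
  refine ⟨{ toFun := y, map_add' := ?_, map_smul' := ?_ }, ?_⟩
  · intro a b
    apply two_smul_inj
    rw [← hy, map_add, smul_add, ← hy, ← hy]
  · intro c a
    apply two_smul_inj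
    rw [← hy, map_smul, RingHom.id_apply, smul_comm, ← hy]
  · ext x
    exact hy x

variable {σ ι : Type} [Fintype σ] [DecidableEq σ] [DecidableEq ι]
  {M : σ → Type} [∀ s, AddCommGroup (M s)] [∀ s, Module ℤ_[2] (M s)]
  [∀ s, Module.Finite ℤ_[2] (M s)] [∀ s, Module.IsTorsionFree ℤ_[2] (M s)] {S : σ → Finset ι}
  {e : ∀ s, M s →ₗ[ℤ_[2]] M s →ₗ[ℤ_[2]] ℤ_[2]} {P : ∀ s, ι → M s} {V : Set (∀ s, M s)}
  {G : Type} [Group G]

/-! ### Diagonal endomorphisms -/

/-- The diagonal endomorphism of `n` copies of the sum. -/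
def dg (n : ℕ) (X : ∀ s, Module.End ℤ_[2] (M s)) :
    Module.End ℤ_[2] (Fin n → ∀ s, M s) where
  toFun w a s := X s (w a s)
  map_add' _ _ := by
    ext a s
    simp
  map_smul' _ _ := by
    ext a s
    simp

private theorem dg_pow (n : ℕ) (X : ∀ s, Module.End ℤ_[2] (M s)) (k : ℕ) :
    (dg n X) ^ k = dg n (X ^ k) := by
  induction k with
  | zero => rfl
  | succ k ih =>
    rw [pow_succ, ih, pow_succ]
    rfl

/-- The Lie algebra of a form. -/
private def LL (n : ℕ) (e : ∀ s, M s →ₗ[ℤ_[2]] M s →ₗ[ℤ_[2]] ℤ_[2]) {r : ℕ}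
    (F : MultilinearMap ℤ_[2] (fun _ : Fin r => Fin n → ∀ s, M s) ℚ_[2]) :
    Submodule ℤ_[2] (∀ s, Module.End ℤ_[2] (M s)) where
  carrier := {X | (∀ s, IsSp (e s) (X s)) ∧ ∃ c : ℚ_[2], ∀ v, dform F (dg n X) v = c * F v}
  add_mem' := by
    rintro X Y ⟨hX, c, hX'⟩ ⟨hY, d, hY'⟩
    refine ⟨fun s => (hX s).add (hY s), c + d, fun v => ?_⟩
    have : dg n (X + Y) = dg n X + dg n Y := rfl
    rw [this, dform_add, hX', hY', add_mul]
  zero_mem' := by
    refine ⟨fun s x y => by simp, 0, fun v => ?_⟩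
    have : dg n (0 : ∀ s, Module.End ℤ_[2] (M s)) = (0 : ℤ_[2]) • dg n 0 := by
      ext w a s
      simp [dg]
    rw [this, dform_smul, zero_smul, zero_mul]
  smul_mem' := by
    rintro c X ⟨hX, d, hX'⟩
    refine ⟨fun s => (hX s).smul c, (c : ℚ_[2]) * d, fun v => ?_⟩
    have : dg n (c • X) = c • dg n X := rfl
    rw [this, dform_smul, hX', Algebra.smul_def, mul_assoc]
    rfl

private theorem mem_LL {n r : ℕ} {F : MultilinearMap ℤ_[2] (fun _ : Fin r => Fin n → ∀ s, M s) ℚ_[2]}
    {X : ∀ s, Module.End ℤ_[2] (M s)} : X ∈ LL n e F ↔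
      (∀ s, IsSp (e s) (X s)) ∧ ∃ c : ℚ_[2], ∀ v, dform F (dg n X) v = c * F v := Iff.rfl

private theorem form_log {ρ : ∀ s, G →* Module.End ℤ_[2] (M s)}
    {χ : G →* ℤ_[2]ˣ} (h : RepW S e P V ρ χ) (s : σ) (g : G) {R X : Module.End ℤ_[2] (M s)}
    {l : ℤ_[2]} (hR : ∀ m : ℕ, R ^ (2 * 2 ^ m) = ρ s (g ^ (2 * 2 ^ m)))
    (hX : ∀ (m : ℕ), 1 ≤ m → ∀ x, ∃ y,
      (R ^ 2 ^ m) x = x + (2 : ℤ_[2]) ^ m • X x + (2 : ℤ_[2]) ^ (2 * m + 1) • y)
    (hl : ∀ m : ℕ, 1 ≤ m → ∃ y,
      (χ g : ℤ_[2]) ^ 2 ^ m = 1 + 2 ^ m * (4 * l) + 2 ^ (2 * m + 1) * y)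
    (x y : M s) : e s (X x) y + e s x (X y) = 4 * l * e s x y := by
  let E : MultilinearMap ℤ_[2] (fun _ : Fin 2 => M s) ℤ_[2] :=
    { toFun := fun v => e s (v 0) (v 1)
      map_update_add' := by
        intro _ v i a b
        fin_cases i <;> simp
      map_update_smul' := by
        intro _ v i c a
        fin_cases i <;> simp }
  have h1 := deriv_eq E (g := R) (X := X) (c := (χ g : ℤ_[2])) (l := l) (d := 2) (j := 1)
    two_pos hX hl (by
      intro m v
      have h2 := h.sim (g ^ (2 * 2 ^ m)) s (v 0) (v 1)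
      rw [← hR, map_pow, Units.val_pow_eq_pow_val] at h2
      rw [one_mul]
      exact h2) ![x, y]
  rw [Fin.sum_univ_two] at h1
  simpa [E] using h1

private theorem sign_pow {N : Type} [AddCommGroup N] [Module ℤ_[2] N] {ε : ℤ_[2]}
    (hε : ε = 1 ∨ ε = -1) (R : Module.End ℤ_[2] N) (k : ℕ) :
    (ε • R) ^ (2 * k) = R ^ (2 * k) := by
  have h1 : ε ^ (2 * k) = 1 := by
    rcases hε with rfl | rfl
    · exact one_pow _
    · rw [pow_mul, neg_one_sq, one_pow]
  rw [smul_pow, h1, one_smul]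

/-- the elements of the Lie algebra given by the group -/
private theorem real_mem {ρ : ∀ s, G →* Module.End ℤ_[2] (M s)} {χ : G →* ℤ_[2]ˣ}
    (h : RepW S e P V ρ χ) {n r j : ℕ}
    (F : MultilinearMap ℤ_[2] (fun _ : Fin r => Fin n → ∀ s, M s) ℤ_[2])
    (U : Subgroup G) (hU : U.FiniteIndex)
    (hF : ∀ g ∈ U, ∀ v, F (fun i a s => ρ s g (v i a s)) = (χ g : ℤ_[2]) ^ j * F v)
    {u : ∀ s, M s} (hu : u ∈ V) : ∃ (X : ∀ s, Module.End ℤ_[2] (M s)) (c d : ℤ_[2]),
      (∀ s, IsSp (e s) (X s)) ∧ (∀ v, dform F (dg n X) v = d * F v) ∧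
        ∀ s, Cg1 (X s) (tv (e s) (u s) + c • 1) := by
  obtain ⟨g, ε, hχ, hε, hg⟩ := h.real u hu
  obtain ⟨d, hd, -, hdU⟩ := Subgroup.exists_pow_mem_of_index_ne_zero hU.index_ne_zero g
  have hεε : ∀ s, ε s * ε s = 1 := by
    intro s
    rcases hε s with h1 | h1 <;> rw [h1] <;> norm_num
  set R : ∀ s, Module.End ℤ_[2] (M s) := fun s => ε s • ρ s g with hR
  have hRx : ∀ s x, ∃ y, R s x = x + (2 : ℤ_[2]) • tv (e s) (u s) x + (4 : ℤ_[2]) • y := by
    intro s x
    obtain ⟨y, hy⟩ := hg s x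
    refine ⟨ε s • y, ?_⟩
    rw [hR, LinearMap.smul_apply, hy, smul_add, smul_smul, hεε, one_smul, smul_comm (ε s)]
  have hRp : ∀ s (k : ℕ), R s ^ (2 * k) = ρ s (g ^ (2 * k)) := by
    intro s k
    rw [hR, sign_pow (hε s), map_pow]
  have hR2 : ∀ s x, ∃ y, R s x = x + (2 : ℤ_[2]) • y := by
    intro s x
    obtain ⟨y, hy⟩ := hRx s x
    refine ⟨tv (e s) (u s) x + (2 : ℤ_[2]) • y, ?_⟩
    rw [hy]
    module
  choose X hX using fun s => exists_log (R s) (hR2 s)
  obtain ⟨l, hl⟩ := exists_log_unit (χ g : ℤ_[2]) hχ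
  have hW : ∀ v, dform F (dg n X) v = j * (4 * l) * F v := by
    refine deriv_eq F (g := dg n R) (X := dg n X) (c := (χ g : ℤ_[2])) (l := l)
      (d := 2 * d) (j := j) (by omega) ?_ hl ?_
    · intro m hm x
      choose y hy using fun (a : Fin n) s => hX s m hm (x a s)
      refine ⟨y, ?_⟩
      rw [dg_pow]
      ext a s
      exact hy a s
    · intro m v
      have h1 : g ^ (2 * d * 2 ^ m) ∈ U := by
        rw [mul_comm 2 d, pow_mul, pow_mul]
        exact U.pow_mem (U.pow_mem hdU _) _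
      have h2 := hF _ h1 v
      have h3 : ∀ i, (dg n R ^ (2 * d * 2 ^ m)) (v i) =
          fun a s => ρ s (g ^ (2 * d * 2 ^ m)) (v i a s) := by
        intro i
        rw [dg_pow]
        ext a s
        have h4 := hRp s (d * 2 ^ m)
        rw [← mul_assoc] at h4
        rw [← h4]
        rfl
      rw [show (fun i => (dg n R ^ (2 * d * 2 ^ m)) (v i)) = fun i a s =>
        ρ s (g ^ (2 * d * 2 ^ m)) (v i a s) from funext h3, h2, map_pow,
        Units.val_pow_eq_pow_val, ← pow_mul, mul_comm j]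
  have hS : ∀ s x y, e s (X s x) y + e s x (X s y) = 4 * l * e s x y :=
    fun s x y => form_log h s g (fun m => hRp s (2 ^ m)) (hX s) hl x y
  have hTT : ∀ s x, tv (e s) (u s) (tv (e s) (u s) x) = 0 := by
    intro s x
    have h0 : e s (u s) (u s) = 0 := by
      have h1 := (h.lat s).skew () (u s) (u s)
      have h2 : (2 : ℤ_[2]) * e s (u s) (u s) = 0 := by
        linear_combination h1
      exact (mul_eq_zero.1 h2).resolve_left two_ne_zero
    simp only [tv, LinearMap.smulRight_apply, LinearMap.flip_apply, map_smul, h0]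
    simp
  have hXT : ∀ s x, ∃ y, X s x = (2 : ℤ_[2]) • tv (e s) (u s) x + (4 : ℤ_[2]) • y := by
    intro s
    exact log_mod_four (hX s) (hRx s) fun x => ⟨0, by rw [hTT, smul_zero]⟩
  choose X' hX' using fun s => exists_half (X s) (fun x => by
    obtain ⟨y, hy⟩ := hXT s x
    refine ⟨tv (e s) (u s) x + (2 : ℤ_[2]) • y, ?_⟩
    rw [hy]
    module)
  have hX'T : ∀ s x, ∃ y, X' s x = tv (e s) (u s) x + (2 : ℤ_[2]) • y := by
    intro s x
    obtain ⟨y, hy⟩ := hXT s x
    refine ⟨y, two_smul_inj ?_⟩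
    rw [smul_add, smul_smul, show (2 : ℤ_[2]) * 2 = 4 by norm_num, ← hy, hX' s]
    rfl
  refine ⟨fun s => X' s - l • 1, -l, 2 * j * l - r * l, fun s x y => ?_, fun v => ?_,
    fun s x => ?_⟩
  · have h1 := hS s x y
    rw [hX' s] at h1
    simp only [LinearMap.smul_apply, map_smul, smul_eq_mul] at h1
    simp only [LinearMap.sub_apply, LinearMap.smul_apply, Module.End.one_apply, map_sub,
      map_smul, smul_eq_mul]
    have h2 : (2 : ℤ_[2]) * (e s (X' s x) y - l * e s x y + (e s x (X' s y) - l * e s x y)) =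
        0 := by
      linear_combination h1
    exact (mul_eq_zero.1 h2).resolve_left two_ne_zero
  · have h1 := hW v
    have h2 : X = (2 : ℤ_[2]) • X' := funext hX'
    rw [h2, show dg n ((2 : ℤ_[2]) • X') = (2 : ℤ_[2]) • dg n X' from rfl, dform_smul,
      smul_eq_mul] at h1
    rw [show dg n (fun s => X' s - l • (1 : Module.End ℤ_[2] (M s))) = dg n X' - l • 1 from rfl,
      dform_sub, dform_smul, dform_one]
    have h3 : (2 : ℤ_[2]) * (dform F (dg n X') v - l • ((r : ℤ_[2]) • F v) -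
        (2 * j * l - r * l) * F v) = 0 := by
      simp only [smul_eq_mul]
      linear_combination h1
    have h4 := (mul_eq_zero.1 h3).resolve_left two_ne_zero
    linear_combination h4
  · obtain ⟨y, hy⟩ := hX'T s x
    refine ⟨y, ?_⟩
    change X' s x - l • x = tv (e s) (u s) x + (-l) • x + (2 : ℤ_[2]) • y
    rw [hy, neg_smul]
    abel

private theorem lieW_of {ρ : ∀ s, G →* Module.End ℤ_[2] (M s)} {χ : G →* ℤ_[2]ˣ}
    (h : RepW S e P V ρ χ) {n r j : ℕ}
    (F : MultilinearMap ℤ_[2] (fun _ : Fin r => Fin n → ∀ s, M s) ℚ_[2])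
    (hF : Pool.Agent.PTate.IsTateForm ρ χ j F) : LieW S e P V (LL n e F) where
  lat := h.lat
  sp := fun X hX => hX.1
  lie := by
    rintro X ⟨hX, c, hX'⟩ Y ⟨hY, d, hY'⟩
    refine ⟨fun s => (hX s).bracket (hY s), 0, fun v => ?_⟩
    have h1 : dg n (X * Y - Y * X) = dg n X * dg n Y - dg n Y * dg n X := rfl
    rw [h1, zero_mul]
    exact dform_lie F hX' hY' v
  sat := by
    rintro X ⟨hX, c, hX'⟩
    refine ⟨fun s => (hX s).half, c / 2, fun v => ?_⟩
    have h1 := hX' v
    rw [show dg n ((2 : ℤ_[2]) • X) = (2 : ℤ_[2]) • dg n X from rfl, dform_smul,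
      Algebra.smul_def] at h1
    have h2 : (algebraMap ℤ_[2] ℚ_[2]) 2 = 2 := map_ofNat _ 2
    rw [h2] at h1
    linear_combination h1 / 2
  real := by
    intro u hu
    obtain ⟨U, hU, hF⟩ := hF
    obtain ⟨N, F', hF'⟩ := exists_int F
    have hF'' : ∀ g ∈ U, ∀ v, F' (fun i a s => ρ s g (v i a s)) = (χ g : ℤ_[2]) ^ j * F' v := by
      intro g hg v
      apply Subtype.ext
      rw [PadicInt.coe_mul, hF', hF' v, hF g hg v]
      ring
    obtain ⟨X, c, d, h1, h2, h3⟩ := real_mem h F' U hU hF'' hu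
    refine ⟨X, ⟨h1, (d : ℚ_[2]), fun v => ?_⟩, c, h3⟩
    have h4 := congrArg (fun t : ℤ_[2] => (t : ℚ_[2])) (h2 v)
    simp only [dform, PadicInt.coe_sum, PadicInt.coe_mul, hF'] at h4
    rw [← Finset.mul_sum] at h4
    have h5 : ((2 : ℚ_[2]) ^ N) ≠ 0 := pow_ne_zero _ two_ne_zero
    apply mul_left_cancel₀ h5
    rw [dform]
    linear_combination h4
  edge := h.edge
  sep := h.sep

/-- A Tate form is killed by the symplectic Lie algebras. -/
theorem tate_kill {ρ : ∀ s, G →* Module.End ℤ_[2] (M s)} {χ : G →* ℤ_[2]ˣ}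
    (h : RepW S e P V ρ χ) {n r j : ℕ}
    (F : MultilinearMap ℤ_[2] (fun _ : Fin r => Fin n → ∀ s, M s) ℚ_[2])
    (hF : Pool.Agent.PTate.IsTateForm ρ χ j F) (s : σ) (u : M s)
    (v : Fin r → Fin n → ∀ s, M s) :
    ∑ i, F (Function.update v i fun a => Pi.single s (tv (e s) u (v i a s))) = 0 := by
  have hL := lieW_of h F hF
  have hsk := (h.lat s).skew ()
  have hsp : ∀ Z : Module.End ℤ_[2] (M s), IsSp (e s) Z →
      (Pi.single s Z : ∀ s, Module.End ℤ_[2] (M s)) ∈ LL n e F := by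
    intro Z hZ
    refine lieW_full hL _ fun s' => ?_
    by_cases hs : s' = s
    · subst hs
      rw [Pi.single_eq_same]
      exact hZ
    · rw [Pi.single_eq_of_ne hs]
      intro x y
      simp
  have hdg : dform F (dg n (Pi.single s (tv (e s) u))) v =
      ∑ i, F (Function.update v i fun a => Pi.single s (tv (e s) u (v i a s))) := by
    rw [dform]
    refine Finset.sum_congr rfl fun i _ => ?_
    congr 2
    ext a s'
    by_cases hs : s' = s
    · subst hs
      simp [dg]
    · simp [dg, Pi.single_eq_of_ne hs]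
  rw [← hdg]
  by_cases hu : u = 0
  · have h1 : tv (e s) u = (0 : ℤ_[2]) • tv (e s) u := by
      rw [hu, zero_smul]
      have := tv_smul (e := e s) 0 (0 : M s)
      simpa using this
    rw [h1, Pi.single_smul, show dg n ((0 : ℤ_[2]) • (Pi.single s (tv (e s) u) :
      ∀ s, Module.End ℤ_[2] (M s))) = (0 : ℤ_[2]) • dg n (Pi.single s (tv (e s) u)) from rfl,
      dform_smul, zero_smul]
  obtain ⟨w, hw⟩ : ∃ w, e s u w ≠ 0 := by
    by_contra hcon
    push Not at hcon
    apply hu
    have : Module.Free ℤ_[2] (M s) := inferInstance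
    refine (Module.forall_dual_apply_eq_zero_iff ℤ_[2] u).1 fun φ => ?_
    obtain ⟨w, hw⟩ := Lat.perfect (M := fun _ : Unit => M s) (h.lat s) () φ
    rw [← hw, hcon]
  obtain ⟨-, c, hc⟩ := hsp _ (isSp_av hsk u w)
  obtain ⟨-, d, hd⟩ := hsp _ (isSp_tv hsk u)
  have h1 := dform_lie F hc hd v
  have h2 : dg n (Pi.single s (av (e s) u w)) * dg n (Pi.single s (tv (e s) u)) -
      dg n (Pi.single s (tv (e s) u)) * dg n (Pi.single s (av (e s) u w)) =
      (2 * e s u w) • dg n (Pi.single s (tv (e s) u)) := by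
    have h3 : (Pi.single s (av (e s) u w) * Pi.single s (tv (e s) u) -
      Pi.single s (tv (e s) u) * Pi.single s (av (e s) u w) : ∀ s, Module.End ℤ_[2] (M s)) =
        (2 * e s u w) • Pi.single s (tv (e s) u) := by
      funext t
      by_cases ht : t = s
      · subst ht
        simp only [Pi.sub_apply, Pi.mul_apply, Pi.single_eq_same, Pi.smul_apply]
        exact bracket_av_tv hsk u w
      · simp only [Pi.sub_apply, Pi.mul_apply, Pi.smul_apply, Pi.single_eq_of_ne ht]
        simp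
    exact congrArg (dg n) h3
  rw [h2, dform_smul, Algebra.smul_def] at h1
  refine (mul_eq_zero.1 h1).resolve_left ?_
  have h3 : (algebraMap ℤ_[2] ℚ_[2]) (2 * e s u w) ≠ 0 :=
    (map_ne_zero_iff _ (FaithfulSMul.algebraMap_injective ℤ_[2] ℚ_[2])).2
      (mul_ne_zero two_ne_zero hw)
  exact h3

end Pool.Agent.PTateW
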