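import Pool.Agent.PTateW.LieOf

/-!
# Forms of odd degree killed by the symplectic Lie algebras vanish
-/

set_option autoImplicit false
set_option linter.unusedSectionVars false

noncomputable section

namespace Pool.Agent.PTateW

open Pool.Agent.HTate

/-- an element of the symplectic Lie algebra whose square is a square of a scalar -/
theorem exists_sq (d : ℕ) : ∀ (N : Type) [AddCommGroup N] [Module ℤ_[2] N]
    [Module.Finite ℤ_[2] N] [Module.IsTorsionFree ℤ_[2] N]
    (e : N →ₗ[ℤ_[2]] N →ₗ[ℤ_[2]] ℤ_[2]), (∀ x y, e x y = -e y x) →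
    (∀ x, (∀ y, e x y = 0) → x = 0) → Module.finrank ℤ_[2] N = d →
    ∃ (X : Module.End ℤ_[2] N) (c : ℤ_[2]), c ≠ 0 ∧ IsSp e X ∧
      ∀ x, X (X x) = (c * c) • x := by
  induction d using Nat.strong_induction_on with
  | _ d ih =>
    intro N _ _ _ _ e hsk hnd hd
    by_cases h0 : ∃ u : N, u ≠ 0
    swap
    · push Not at h0
      refine ⟨0, 1, one_ne_zero, fun x y => by simp, fun x => ?_⟩
      rw [h0 x]
      simp
    obtain ⟨u, hu⟩ := h0
    obtain ⟨v, hv⟩ : ∃ v, e u v ≠ 0 := by
      by_contra hcon
      push Not at hcon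
      exact hu (hnd u hcon)
    have halt : ∀ x, e x x = 0 := by
      intro x
      have h1 := hsk x x
      have h2 : (2 : ℤ_[2]) * e x x = 0 := by linear_combination h1
      exact (mul_eq_zero.1 h2).resolve_left two_ne_zero
    set δ := e u v with hδ
    have hvu : e v u = -δ := hsk v u
    let W : Submodule ℤ_[2] N := LinearMap.ker (e u) ⊓ LinearMap.ker (e v)
    have hW : ∀ w : W, e u w = 0 ∧ e v w = 0 := fun w =>
      ⟨LinearMap.mem_ker.1 w.2.1, LinearMap.mem_ker.1 w.2.2⟩
    have hW' : ∀ w : W, e w u = 0 ∧ e w v = 0 := fun w => by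
      rw [hsk, hsk (w : N) v, (hW w).1, (hW w).2, neg_zero]
      exact ⟨rfl, rfl⟩
    let π₀ : N →ₗ[ℤ_[2]] N := δ • LinearMap.id - (e.flip v).smulRight u - (e u).smulRight v
    have hπ₀ : ∀ x, π₀ x = δ • x - e x v • u - e u x • v := fun x => rfl
    have hπW : ∀ x, π₀ x ∈ W := by
      intro x
      refine ⟨LinearMap.mem_ker.2 ?_, LinearMap.mem_ker.2 ?_⟩
      · rw [hπ₀, map_sub, map_sub, map_smul, map_smul, map_smul, halt, ← hδ]
        simp only [smul_eq_mul]
        ring
      · rw [hπ₀, map_sub, map_sub, map_smul, map_smul, map_smul, halt, hvu, hsk x v]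
        simp only [smul_eq_mul]
        ring
    let π : N →ₗ[ℤ_[2]] W := π₀.codRestrict W hπW
    have hπ : ∀ x, ((π x : W) : N) = δ • x - e x v • u - e u x • v := fun x => rfl
    have hπu : π u = 0 := by
      apply Subtype.ext
      rw [hπ, ← hδ, halt]
      simp
    have hπv : π v = 0 := by
      apply Subtype.ext
      rw [hπ, ← hδ, halt]
      simp
    have hπw : ∀ w : W, π w = δ • w := by
      intro w
      apply Subtype.ext
      rw [hπ, (hW' w).2, (hW w).1]
      simp
    let eW : W →ₗ[ℤ_[2]] W →ₗ[ℤ_[2]] ℤ_[2] := e.compl₁₂ W.subtype W.subtype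
    have heW : ∀ x y : W, eW x y = e x y := fun x y => rfl
    -- the pairing with an element of `W`
    have hpair : ∀ (w : W) (x : N), δ * e w x = e w (π x) := by
      intro w x
      rw [hπ, map_sub, map_sub, map_smul, map_smul, map_smul, (hW' w).1, (hW' w).2]
      simp
    have hpair' : ∀ (w : W) (x : N), δ * e x w = e (π x) w := by
      intro w x
      rw [hsk x, hsk (π x : N), ← hpair]
      ring
    have hndW : ∀ w : W, (∀ w', eW w w' = 0) → w = 0 := by
      intro w hw
      apply Subtype.ext
      refine hnd _ fun x => ?_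
      have h1 := hpair w x
      rw [← heW, hw] at h1
      exact (mul_eq_zero.1 h1).resolve_left hv
    have hrank : Module.finrank ℤ_[2] W < d := by
      let f : W × ℤ_[2] →ₗ[ℤ_[2]] N :=
        W.subtype.coprod (LinearMap.toSpanSingleton ℤ_[2] N u)
      have hf : ∀ w a, f (w, a) = (w : N) + a • u := fun w a => by
        simp [f]
      have hinj : Function.Injective f := by
        rw [injective_iff_map_eq_zero]
        rintro ⟨w, a⟩ h1
        rw [hf] at h1
        have h2 : e ((w : N) + a • u) v = 0 := by rw [h1]; simp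
        rw [map_add, LinearMap.add_apply, (hW' w).2, zero_add, map_smul, LinearMap.smul_apply,
          smul_eq_mul, ← hδ] at h2
        have h3 : a = 0 := (mul_eq_zero.1 h2).resolve_right hv
        rw [h3, zero_smul, add_zero] at h1
        rw [h3]
        exact Prod.ext (Subtype.ext h1) rfl
      have h1 := LinearMap.finrank_le_finrank_of_injective hinj
      rw [Module.finrank_prod, Module.finrank_self, hd] at h1
      omega
    obtain ⟨X, c, hc, hX, hXX⟩ := ih _ hrank W eW (fun x y => hsk x y) hndW rfl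
    have hX' : ∀ x y : W, e (X x : N) y + e x (X y : N) = 0 := fun x y => hX x y
    refine ⟨W.subtype ∘ₗ X ∘ₗ π + c • ((e.flip v).smulRight u - (e u).smulRight v), c * δ,
      mul_ne_zero hc hv, ?_, ?_⟩
    · intro x y
      have h1 := hX' (π x) (π y)
      rw [← hpair, ← hpair'] at h1
      have h2 : e (X (π x) : N) y + e x (X (π y) : N) = 0 := by
        have h3 : δ * (e (X (π x) : N) y + e x (X (π y) : N)) = 0 := by
          linear_combination h1
        exact (mul_eq_zero.1 h3).resolve_left hv
      simp only [LinearMap.add_apply, LinearMap.comp_apply, LinearMap.smul_apply,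
        LinearMap.sub_apply, LinearMap.smulRight_apply, LinearMap.flip_apply, map_add, map_smul,
        map_sub, smul_eq_mul, Submodule.subtype_apply]
      rw [hsk x u, hsk y v]
      linear_combination h2
    · intro x
      have h1 : ∀ y, (W.subtype ∘ₗ X ∘ₗ π + c • ((e.flip v).smulRight u - (e u).smulRight v) :
          Module.End ℤ_[2] N) y = (X (π y) : N) + c • (e y v • u - e u y • v) := fun y => rfl
      have h2 : π (X (π x) : N) = δ • X (π x) := hπw _
      have h3 : ((X (X (π x)) : W) : N) = (c * c) • (π x : N) := by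
        rw [hXX]
        rfl
      rw [h1 x, h1, map_add π, map_smul π, map_sub π, map_smul π, map_smul π, hπu, hπv, h2]
      simp only [smul_zero, sub_zero, add_zero, map_smul, Submodule.coe_smul, h3, map_add,
        map_sub, LinearMap.add_apply, LinearMap.smul_apply, LinearMap.sub_apply, (hW' _).2,
        (hW _).1, halt, ← hδ, smul_eq_mul]
      rw [hπ]
      module

variable {σ : Type} [Fintype σ] [DecidableEq σ]
  {M : σ → Type} [∀ s, AddCommGroup (M s)] [∀ s, Module ℤ_[2] (M s)]
  [∀ s, Module.Finite ℤ_[2] (M s)] [∀ s, Module.IsTorsionFree ℤ_[2] (M s)]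
  {e : ∀ s, M s →ₗ[ℤ_[2]] M s →ₗ[ℤ_[2]] ℤ_[2]}

/-- the derivations given by all elements of the symplectic Lie algebra vanish -/
theorem kill_all {n r : ℕ} {F : MultilinearMap ℤ_[2] (fun _ : Fin r => Fin n → ∀ s, M s) ℚ_[2]}
    (hF : ∀ s (u : M s) (v : Fin r → Fin n → ∀ s, M s),
      ∑ i, F (Function.update v i fun a => Pi.single s (tv (e s) u (v i a s))) = 0)
    (hsp : ∀ s (Z : Module.End ℤ_[2] (M s)), IsSp (e s) Z →
      Z ∈ Submodule.span ℤ_[2] (Set.range (tv (e s))))
    (X : ∀ s, Module.End ℤ_[2] (M s)) (hX : ∀ s, IsSp (e s) (X s))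
    (v : Fin r → Fin n → ∀ s, M s) : dform F (dg n X) v = 0 := by
  have h1 : ∀ s (Z : Module.End ℤ_[2] (M s)), Z ∈ Submodule.span ℤ_[2] (Set.range (tv (e s))) →
      dform F (dg n (Pi.single s Z)) v = 0 := by
    intro s Z hZ
    induction hZ using Submodule.span_induction with
    | mem Z hZ =>
      obtain ⟨u, rfl⟩ := hZ
      rw [← hF s u v, dform]
      refine Finset.sum_congr rfl fun i _ => ?_
      congr 2
      ext a s'
      by_cases hs : s' = s
      · subst hs
        simp [dg]
      · simp [dg, Pi.single_eq_of_ne hs]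
    | zero =>
      rw [Pi.single_zero, show dg n (0 : ∀ s, Module.End ℤ_[2] (M s)) =
        (0 : ℤ_[2]) • dg n 0 by ext w a s; simp [dg], dform_smul, zero_smul]
    | add Z Z' _ _ h1 h2 =>
      rw [Pi.single_add, show dg n (Pi.single s Z + Pi.single s Z' :
        ∀ s, Module.End ℤ_[2] (M s)) = dg n (Pi.single s Z) + dg n (Pi.single s Z') from rfl,
        dform_add, h1, h2, add_zero]
    | smul c Z _ h1 =>
      rw [Pi.single_smul, show dg n (c • Pi.single s Z : ∀ s, Module.End ℤ_[2] (M s)) =
        c • dg n (Pi.single s Z) from rfl, dform_smul, h1, smul_zero]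
  have h2 : dg n X = ∑ s, dg n (Pi.single s (X s)) := by
    conv_lhs => rw [← Finset.univ_sum_single X]
    have h3 : ∀ A : Finset σ, dg n (∑ s ∈ A, (Pi.single s (X s) : ∀ s, Module.End ℤ_[2] (M s))) =
        ∑ s ∈ A, dg n (Pi.single s (X s)) := by
      intro A
      induction A using Finset.induction_on with
      | empty =>
        rw [Finset.sum_empty, Finset.sum_empty]
        ext w a s
        simp [dg]
      | insert s A hs ih =>
        rw [Finset.sum_insert hs, Finset.sum_insert hs, ← ih]
        rfl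
    exact h3 _
  rw [h2]
  have h3 : ∀ A : Finset σ, dform F (∑ s ∈ A, dg n (Pi.single s (X s))) v = 0 := by
    intro A
    induction A using Finset.induction_on with
    | empty =>
      rw [Finset.sum_empty, show (0 : Module.End ℤ_[2] (Fin n → ∀ s, M s)) =
        (0 : ℤ_[2]) • 1 by simp, dform_smul, zero_smul]
    | insert s A hs ih =>
      rw [Finset.sum_insert hs, dform_add, ih, add_zero]
      exact h1 s _ (hsp s _ (hX s))
  exact h3 _

/-- forms of odd degree vanish -/
theorem odd_zero (hsk : ∀ s x y, e s x y = -e s y x) (hnd : ∀ s x, (∀ y, e s x y = 0) → x = 0)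
    {n r : ℕ} (hr : Odd r)
    {F : MultilinearMap ℤ_[2] (fun _ : Fin r => Fin n → ∀ s, M s) ℚ_[2]}
    (hF : ∀ X : ∀ s, Module.End ℤ_[2] (M s), (∀ s, IsSp (e s) (X s)) →
      ∀ v, dform F (dg n X) v = 0) (v : Fin r → Fin n → ∀ s, M s) : F v = 0 := by
  choose X c hc hX hXX using fun s => exists_sq _ (M s) (e s) (hsk s) (hnd s) rfl
  set C := ∏ s, c s with hC
  have hC0 : C ≠ 0 := Finset.prod_ne_zero_iff.2 fun s _ => hc s
  set d : σ → ℤ_[2] := fun s => ∏ t ∈ Finset.univ.erase s, c t with hd
  have hdc : ∀ s, c s * d s = C := fun s => Finset.mul_prod_erase _ _ (Finset.mem_univ s)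
  set D : Module.End ℤ_[2] (Fin n → ∀ s, M s) := dg n fun s => d s • X s with hD
  have hDD : ∀ x, D (D x) = (C * C) • x := by
    intro x
    ext a s
    show (d s • X s) ((d s • X s) (x a s)) = (C * C) • x a s
    rw [LinearMap.smul_apply, LinearMap.smul_apply, map_smul, hXX, smul_smul, smul_smul, ← hdc s]
    congr 1
    ring
  have hF0 : ∀ w, dform F D w = 0 := hF _ fun s => (hX s).smul (d s)
  -- the eigenvectors
  have heig : ∀ (ε : Fin r → ℤ) (_ : ∀ i, ε i = 1 ∨ ε i = -1) (w : Fin r → Fin n → ∀ s, M s),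
      (∀ i, D (w i) = ((ε i : ℤ_[2]) * C) • w i) → F w = 0 := by
    intro ε hε w hw
    have h1 := hF0 w
    simp only [dform, hw, F.map_update_smul, Function.update_eq_self, Algebra.smul_def] at h1
    rw [← Finset.sum_mul] at h1
    refine (mul_eq_zero.1 h1).resolve_left ?_
    have h2 : ∑ i, (algebraMap ℤ_[2] ℚ_[2]) ((ε i : ℤ_[2]) * C) =
        ((∑ i, ε i : ℤ) : ℚ_[2]) * (C : ℚ_[2]) := by
      rw [Int.cast_sum, Finset.sum_mul]
      refine Finset.sum_congr rfl fun i _ => ?_
      rw [map_mul, map_intCast]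
      rfl
    rw [h2]
    refine mul_ne_zero (Int.cast_ne_zero.2 ?_) ?_
    · have h3 : Odd (∑ i, ε i) := by
        have h4 : ∀ A : Finset (Fin r), ((∑ i ∈ A, ε i : ℤ) : ZMod 2) = (A.card : ZMod 2) := by
          intro A
          rw [Int.cast_sum, Finset.card_eq_sum_ones, Nat.cast_sum]
          refine Finset.sum_congr rfl fun i _ => ?_
          rcases hε i with h5 | h5 <;> rw [h5] <;> decide
        have h5 := h4 Finset.univ
        rw [Finset.card_univ, Fintype.card_fin] at h5
        rw [← Int.not_even_iff_odd, ← ZMod.intCast_eq_zero_iff_even, h5,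
          ZMod.natCast_eq_zero_iff_even, Nat.not_even_iff_odd]
        exact hr
      intro h4
      rw [h4] at h3
      exact absurd h3 (by decide)
    · intro h3
      exact hC0 (FaithfulSMul.algebraMap_injective ℤ_[2] ℚ_[2] (h3.trans (map_zero _).symm))
  have h1 : F (fun i => (2 * C) • v i) = 0 := by
    have h2 : (fun i => (2 * C) • v i) = (fun i => D (v i) + C • v i) +
        fun i => -(D (v i) - C • v i) := by
      funext i
      show (2 * C) • v i = (D (v i) + C • v i) + -(D (v i) - C • v i)
      module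
    rw [h2, F.map_add_univ]
    refine Finset.sum_eq_zero fun A _ => ?_
    refine heig (fun i => if i ∈ A then 1 else -1) (fun i => ?_) _ fun i => ?_
    · split_ifs
      · exact Or.inl rfl
      · exact Or.inr rfl
    · by_cases hi : i ∈ A
      · rw [if_pos hi, Finset.piecewise_eq_of_mem _ _ _ hi, map_add, map_smul, hDD]
        push_cast
        module
      · rw [if_neg hi, Finset.piecewise_eq_of_notMem _ _ _ hi, map_neg, map_sub, map_smul, hDD]
        push_cast
        module
  rw [F.map_smul_univ, Algebra.smul_def] at h1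
  refine (mul_eq_zero.1 h1).resolve_left ?_
  exact (map_ne_zero_iff _ (FaithfulSMul.algebraMap_injective ℤ_[2] ℚ_[2])).2
    (Finset.prod_ne_zero_iff.2 fun i _ => mul_ne_zero two_ne_zero hC0)

end Pool.Agent.PTateW
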