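import Pool.Agent.PTate.InvMain
import Pool.Agent.PTateW.OddForm
import Pool.Agent.PTateW.FftMul

/-!
# The structure of Tate forms
-/

set_option autoImplicit false
set_option linter.unusedSectionVars false

noncomputable section

namespace Pool.Agent.PTateW

open Pool.Agent.HTate
open Pool.Agent.PTate (IsTateE)

variable {σ ι : Type} [Fintype σ] [DecidableEq σ] [DecidableEq ι]
  {M : σ → Type} [∀ s, AddCommGroup (M s)] [∀ s, Module ℤ_[2] (M s)]
  [∀ s, Module.Finite ℤ_[2] (M s)] [∀ s, Module.IsTorsionFree ℤ_[2] (M s)] {S : σ → Finset ι}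
  {e : ∀ s, M s →ₗ[ℤ_[2]] M s →ₗ[ℤ_[2]] ℤ_[2]} {P : ∀ s, ι → M s} {V : Set (∀ s, M s)}
  {G : Type} [Group G] {ρ : ∀ s, G →* Module.End ℤ_[2] (M s)} {χ : G →* ℤ_[2]ˣ}

private theorem nd_of (h : RepW S e P V ρ χ) (s : σ) (x : M s) (hx : ∀ y, e s x y = 0) :
    x = 0 := by
  have : Module.Free ℤ_[2] (M s) := inferInstance
  refine (Module.forall_dual_apply_eq_zero_iff ℤ_[2] x).1 fun φ => ?_
  obtain ⟨w, hw⟩ := Lat.perfect (M := fun _ : Unit => M s) (h.lat s) () φ
  rw [← hw, hx]

/-- the action of the group on the products of pairings -/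
private theorem pp_mul (h : RepW S e P V ρ χ) {E : Type} [Field E] [Algebra ℤ_[2] E] {n m : ℕ}
    {g : (Fin (2 * m) → Fin n → ∀ s, M s) → E} (hg : IsPP e g) (γ : G)
    (v : Fin (2 * m) → Fin n → ∀ s, M s) :
    g (fun i a s => ρ s γ (v i a s)) = algebraMap ℤ_[2] E ((χ γ : ℤ_[2]) ^ m) * g v := by
  obtain ⟨k, s, π, β, hv⟩ := hg
  have hk : k = m := by
    have h1 := Fintype.card_congr π
    rw [Fintype.card_prod, Fintype.card_fin, Fintype.card_bool, Fintype.card_fin] at h1
    omega
  subst hk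
  rw [hv, hv]
  simp only [h.sim, map_mul, Finset.prod_mul_distrib, Finset.prod_const, Finset.card_univ,
    Fintype.card_fin, map_pow]

/-- **The structure of Tate forms**: they are linear combinations of products of pairings which
are Tate forms. -/
theorem two_tate (h : RepW S e P V ρ χ) {E : Type} [Field E] [Algebra ℤ_[2] E]
    [Algebra ℚ_[2] E] [IsScalarTower ℤ_[2] ℚ_[2] E] {n r j : ℕ}
    (F : MultilinearMap ℤ_[2] (fun _ : Fin r => Fin n → ∀ s, M s) ℚ_[2])
    (hF : Pool.Agent.PTate.IsTateForm ρ χ j F) :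
    (fun v => algebraMap ℚ_[2] E (F v)) ∈
      Submodule.span E {g : (Fin r → Fin n → ∀ s, M s) → E | IsPP e g ∧ IsTateE ρ χ j g} := by
  have hsk : ∀ s x y, e s x y = -e s y x := fun s => (h.lat s).skew ()
  by_cases h0 : ∀ v, F v = 0
  · have h1 : (fun v => algebraMap ℚ_[2] E (F v)) = 0 := by
      funext v
      rw [h0, map_zero, Pi.zero_apply]
    rw [h1]
    exact Submodule.zero_mem _
  have hkill := fun s u v => tate_kill h F hF s u v
  rcases Nat.even_or_odd r with hr | hr
  · obtain ⟨m, rfl⟩ := even_iff_two_dvd.1 hr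
    have h1 := fft_even hsk (nd_of h) F hkill
    -- the character
    obtain ⟨U, hU, hF'⟩ := hF
    have h2 : ∀ γ (v : Fin (2 * m) → Fin n → ∀ s, M s), F (fun i a s => ρ s γ (v i a s)) =
        algebraMap ℤ_[2] ℚ_[2] ((χ γ : ℤ_[2]) ^ m) * F v := by
      intro γ
      have key : ∀ Φ ∈ Submodule.span ℚ_[2]
          {g : (Fin (2 * m) → Fin n → ∀ s, M s) → ℚ_[2] | IsPP e g},
          ∀ v, Φ (fun i a s => ρ s γ (v i a s)) =
            algebraMap ℤ_[2] ℚ_[2] ((χ γ : ℤ_[2]) ^ m) * Φ v := by
        intro Φ hΦ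
        induction hΦ using Submodule.span_induction with
        | mem Φ hΦ => exact pp_mul h hΦ γ
        | zero =>
          intro v
          simp
        | add Φ Ψ _ _ h1 h2 =>
          intro v
          rw [Pi.add_apply, Pi.add_apply, h1, h2, mul_add]
        | smul c Φ _ h1 =>
          intro v
          rw [Pi.smul_apply, Pi.smul_apply, h1, smul_eq_mul, smul_eq_mul]
          ring
      exact key _ h1
    push Not at h0
    obtain ⟨v₀, hv₀⟩ := h0
    have h3 : ∀ γ ∈ U, (χ γ : ℤ_[2]) ^ m = (χ γ : ℤ_[2]) ^ j := by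
      intro γ hγ
      have h4 := (h2 γ v₀).symm.trans (hF' γ hγ v₀)
      have h5 := mul_right_cancel₀ hv₀ h4
      exact FaithfulSMul.algebraMap_injective ℤ_[2] ℚ_[2] h5
    -- the extension of scalars
    have h4 : ∀ Φ ∈ Submodule.span ℚ_[2]
          {g : (Fin (2 * m) → Fin n → ∀ s, M s) → ℚ_[2] | IsPP e g},
        (fun v => algebraMap ℚ_[2] E (Φ v)) ∈ Submodule.span E
          {g : (Fin (2 * m) → Fin n → ∀ s, M s) → E | IsPP e g ∧ IsTateE ρ χ j g} := by
      intro Φ hΦ
      induction hΦ using Submodule.span_induction with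
      | mem Φ hΦ =>
        obtain ⟨k, s, π, β, hv⟩ := hΦ
        have h5 : IsPP e fun v => algebraMap ℚ_[2] E (Φ v) := by
          refine ⟨k, s, π, β, fun v => ?_⟩
          refine (congrArg (algebraMap ℚ_[2] E) (hv v)).trans ?_
          rw [map_prod]
          refine Finset.prod_congr rfl fun a _ => ?_
          exact (IsScalarTower.algebraMap_apply ℤ_[2] ℚ_[2] E _).symm
        refine Submodule.subset_span ⟨h5, U, hU, fun γ hγ v => ?_⟩
        rw [← h3 γ hγ]
        exact pp_mul h h5 γ v
      | zero =>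
        have h5 : (fun v => algebraMap ℚ_[2] E ((0 : (Fin (2 * m) → Fin n → ∀ s, M s) → ℚ_[2]) v))
            = 0 := by
          funext v
          simp
        rw [h5]
        exact Submodule.zero_mem _
      | add Φ Ψ _ _ h1 h2 =>
        have h5 : (fun v => algebraMap ℚ_[2] E ((Φ + Ψ) v)) =
            (fun v => algebraMap ℚ_[2] E (Φ v)) + fun v => algebraMap ℚ_[2] E (Ψ v) := by
          funext v
          simp
        rw [h5]
        exact Submodule.add_mem _ h1 h2
      | smul c Φ _ h1 =>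
        have h5 : (fun v => algebraMap ℚ_[2] E ((c • Φ) v)) =
            algebraMap ℚ_[2] E c • fun v => algebraMap ℚ_[2] E (Φ v) := by
          funext v
          simp
        rw [h5]
        exact Submodule.smul_mem _ _ h1
    exact h4 _ h1
  · exfalso
    apply h0
    exact odd_zero hsk (nd_of h) hr (kill_all hkill fun s Z hZ => (h.lat s).sp_span () hZ)

end Pool.Agent.PTateW
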