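import Pool.Agent.PTateU.InvFinU
import Pool.Agent.PTateW.DataTwo
import Pool.Agent.PTateW.MainW

/-!
# The structure of Tate classes for double coverings
-/

set_option autoImplicit false

noncomputable section

namespace Pool.Agent.PTateW

open Polynomial
open Pool.Agent.PTate hiding Gen tate_iff tate_su exists_op exists_gen
open Pool.Agent.PTateU
open Pool.Agent.HTate (tv Lat)
open scoped Classical

/-- two coverings with different exponents -/
private theorem exists_sep {ι : Type} [Fintype ι] {e e' : Option ι → ZMod 2}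
    (hs : ∑ i, e i = 0) (hs' : ∑ i, e' i = 0) (h : ¬ Equivalent e e') :
    (∃ i ∈ Tb e, i ∉ Tb e') ∨ ∃ i ∈ Tb e', i ∉ Tb e := by
  by_contra hcon
  push Not at hcon
  obtain ⟨h1, h2⟩ := hcon
  apply h
  have hz : ∀ x y : ZMod 2, (x ≠ 0 ↔ y ≠ 0) → x = y := by decide
  have h3 : ∀ i, e (some i) = e' (some i) := by
    intro i
    apply hz
    rw [← mem_Tb, ← mem_Tb]
    exact ⟨h1 i, h2 i⟩
  refine ⟨1, Equiv.refl _, fun i => ?_, Or.inl rfl⟩
  rw [one_mul, Equiv.refl_apply]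
  rcases i with _ | i
  · rw [Fintype.sum_option] at hs hs'
    have h4 : ∑ i, e (some i) = ∑ i, e' (some i) := Finset.sum_congr rfl fun i _ => h3 i
    rw [← h4] at hs'
    exact add_right_cancel (hs'.trans hs.symm)
  · exact (h3 i).symm

section Data

variable {K : Type} [Field K] {L : Type} [Field L] [Algebra K L] {ι σ : Type} [Fintype ι]
  {ζ : K} {a : ι → K} {T : σ → Finset ι}

/-- there is a second finite branch point different from the base point -/
private theorem exists_other {e : Option ι → ZMod 2} {o : Option ι} (h : Cover 2 ζ a T e o)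
    (i : ι) : ∃ j ∈ Tb e, j ≠ i ∧ o ≠ some j := by
  obtain ⟨q, q', q'', hq, hq', hq'', h1, h2, h3⟩ :=
    Finset.two_lt_card_iff.1 (show 2 < (Sb e o).card from three_Sb h)
  have hne : ∀ x y : Option ι × ι, x ∈ Sb e o → y ∈ Sb e o → x ≠ y → x.2 ≠ y.2 := by
    intro x y hx hy hxy hh
    exact hxy (Prod.ext ((mem_Sb.1 hx).1.trans (mem_Sb.1 hy).1.symm) hh)
  by_cases hi : q.2 = i
  · refine ⟨q'.2, mem_Tb.2 (mem_Sb.1 hq').2.2, ?_, (mem_Sb.1 hq').2.1⟩
    rw [← hi]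
    exact (hne _ _ hq hq' h1).symm
  · exact ⟨q.2, mem_Tb.2 (mem_Sb.1 hq).2.2, hi, (mem_Sb.1 hq).2.1⟩

/-- the vector of a pair of branch points is not divisible by two -/
private theorem exists_odd {e : Option ι → ZMod 2} {o : Option ι} (h : Cover 2 ζ a T e o)
    {N : Type} [AddCommGroup N] [Module ℤ_[2] N] {E : N →ₗ[ℤ_[2]] N →ₗ[ℤ_[2]] ℤ_[2]}
    {P : Option ι × ι → N} (hL : Lat (fun _ : Unit => Sb e o) (fun _ => E) fun _ => P)
    {i j : ι} (hi : i ∈ Tb e) (hj : j ∈ Tb e) (hij : j ≠ i) (hoj : o ≠ some j) :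
    ∃ w z, E w ((if o = some i then 0 else P (o, i)) + (if o = some j then 0 else P (o, j))) =
      1 + 2 * z := by
  have hmem : ∀ k, k ∈ Tb e → o ≠ some k → ((o, k) : Option ι × ι) ∈ Sb e o := fun k hk hok =>
    mem_Sb.2 ⟨rfl, hok, mem_Tb.1 hk⟩
  rw [if_neg hoj]
  by_cases hoi : o = some i
  · rw [if_pos hoi, zero_add]
    obtain ⟨k, hk, hkj, hok⟩ := exists_other h j
    obtain ⟨z, hz⟩ := hL.pair () (o, k) (hmem k hk hok) (o, j) (hmem j hj hoj)
      fun hh => hkj (Prod.mk.inj hh).2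
    exact ⟨P (o, k), z, hz⟩
  · rw [if_neg hoi]
    obtain ⟨z, hz⟩ := hL.pair () (o, j) (hmem j hj hoj) (o, i) (hmem i hi hoi)
      fun hh => hij (Prod.mk.inj hh).2
    refine ⟨P (o, j), z, ?_⟩
    have h1 := hL.skew () (P (o, j)) (P (o, j))
    have h2 : (2 : ℤ_[2]) * E (P (o, j)) (P (o, j)) = 0 := by linear_combination h1
    rw [map_add, hz, (mul_eq_zero.1 h2).resolve_left two_ne_zero, add_zero]

/-- The families of vectors given by the pairs of branch points. -/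
private def Vs {M : σ → Type} [∀ s, AddCommGroup (M s)] (e : σ → Option ι → ZMod 2)
    (o : σ → Option ι) (P : ∀ s, Option ι × ι → M s) : Set (∀ s, M s) :=
  {u | ∃ i j : ι, i ≠ j ∧ u = fun s => if i ∈ Tb (e s) ∧ j ∈ Tb (e s) then
    (if o s = some i then 0 else P s (o s, i)) + (if o s = some j then 0 else P s (o s, j))
    else 0}

/-- the data of several curves -/
private theorem exists_all_two [Algebra.IsAlgebraic K L] [IsAlgClosed L]
    (hζ : IsPrimitiveRoot ζ 2) {e : σ → Option ι → ZMod 2} {o : σ → Option ι}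
    (h : Generic 2 ζ a e o) {ξ : ℕ → L} (hξ : IsRoots 2 ξ) (hξ1 : ξ 1 = algebraMap K L ζ)
    {E : ∀ s, Tm L 2 (pt a) (Sb (e s) (o s)) (ex (e s)) →ₗ[ℤ_[2]]
      Tm L 2 (pt a) (Sb (e s) (o s)) (ex (e s)) →ₗ[ℤ_[2]] ℤ_[2]}
    {ρ : ∀ s, (L ≃ₐ[K] L) →* Module.End ℤ_[2] (Tm L 2 (pt a) (Sb (e s) (o s)) (ex (e s)))}
    {P : ∀ s, Option ι × ι → Tm L 2 (pt a) (Sb (e s) (o s)) (ex (e s))}
    (h1 : ∀ s, Lat (fun _ : Unit => Sb (e s) (o s)) (fun _ => E s) fun _ => P s)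
    (h2 : ∀ s g x y, E s (ρ s g x) (ρ s g y) = ((chi L 2 g : ℤ_[2]ˣ) : ℤ_[2]) * E s x y)
    (h3 : ∀ s g x, ∃ y, ρ s g x = x + (2 : ℤ_[2]) • y)
    (h4 : ∀ s (i j : ι) (g : L ≃ₐ[K] L) (r : ι → ι → L) (w : L), i ≠ j → w ^ 2 = -1 → g w = w →
      (∀ u v, r u v ^ 2 = algebraMap K L (a u - a v)) →
      (∀ u ∈ Tb (e s), ∀ v ∈ Tb (e s), g (r u v) =
        if (u = i ∧ v = j) ∨ (u = j ∧ v = i) then algebraMap K L ζ * r u v else r u v) →
      ∃ ε : ℤ_[2], (ε = 1 ∨ ε = -1) ∧ ∀ x, ∃ y, ρ s g x = ε • (x + (2 : ℤ_[2]) •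
        tv (E s) (if i ∈ Tb (e s) ∧ j ∈ Tb (e s) then
          (if o s = some i then 0 else P s (o s, i)) +
            (if o s = some j then 0 else P s (o s, j)) else 0) x) + (4 : ℤ_[2]) • y) :
    RepW (fun s => Sb (e s) (o s)) E P (Vs e o P) ρ (chi L 2) where
  lat := h1
  sim := fun g s => h2 s g
  mod2 := fun g s => h3 s g
  real := by
    rintro u ⟨i, j, hij, rfl⟩
    by_cases hs : ∃ s, i ∈ Tb (e s) ∧ j ∈ Tb (e s)
    · obtain ⟨s, hi, hj⟩ := hs
      obtain ⟨g, r, w, g1, g2, g3, g4, g5⟩ := exists_gal_two hζ hξ hξ1 (h.free s i hi j hj hij)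
      choose ε hε hx using fun t => h4 t i j g r w hij g1 g2 g4 fun u hu v hv =>
        g5 u v ⟨t, hu, hv⟩
      exact ⟨g, ε, g3, hε, hx⟩
    · refine ⟨1, fun _ => 1, ⟨0, by simp⟩, fun _ => Or.inl rfl, fun s x => ⟨0, ?_⟩⟩
      have h5 : tv (E s) 0 = 0 := by
        have := HTate.tv_smul (e := E s) 0 (0 : Tm L 2 (pt a) (Sb (e s) (o s)) (ex (e s)))
        simpa using this
      show ρ s 1 x = (1 : ℤ_[2]) • (x + (2 : ℤ_[2]) • tv (E s)
        (if i ∈ Tb (e s) ∧ j ∈ Tb (e s) then _ else 0) x) + (4 : ℤ_[2]) • (0 : Tm L 2 (pt a) _ _)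
      rw [if_neg fun hh => hs ⟨s, hh⟩, h5, map_one, LinearMap.zero_apply, smul_zero, smul_zero,
        add_zero, add_zero, one_smul]
      rfl
  edge := by
    intro s q hq q' hq' hqq
    have hm := mem_Sb.1 hq
    have hm' := mem_Sb.1 hq'
    have hij : q.2 ≠ q'.2 := fun hh => hqq (Prod.ext (hm.1.trans hm'.1.symm) hh)
    refine ⟨_, ⟨q.2, q'.2, hij, rfl⟩, ?_⟩
    show (if q.2 ∈ Tb (e s) ∧ q'.2 ∈ Tb (e s) then _ else _) = _
    rw [if_pos ⟨mem_Tb.2 hm.2.2, mem_Tb.2 hm'.2.2⟩, if_neg hm.2.1, if_neg hm'.2.1]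
    have hq1 : (o s, q.2) = q := Prod.ext hm.1.symm rfl
    have hq2 : (o s, q'.2) = q' := Prod.ext hm'.1.symm rfl
    exact congrArg₂ (· + ·) (congrArg (P s) hq1) (congrArg (P s) hq2)
  sep := by
    have key : ∀ s t, (∃ i ∈ Tb (e s), i ∉ Tb (e t)) →
        ∃ u ∈ Vs e o P, u t = 0 ∧ ∃ w z, E s w (u s) = 1 + 2 * z := by
      rintro s t ⟨i, hi, hit⟩
      obtain ⟨j, hj, hji, hoj⟩ := exists_other (h.cover s) i
      refine ⟨_, ⟨i, j, Ne.symm hji, rfl⟩, if_neg fun hh => hit hh.1, ?_⟩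
      show ∃ w z, E s w (if i ∈ Tb (e s) ∧ j ∈ Tb (e s) then _ else _) = _
      rw [if_pos ⟨hi, hj⟩]
      exact exists_odd (h.cover s) (h1 s) hi hj hji hoj
    intro s t hst
    have h5 : 4 ≤ (Br (e s)).card := by
      have h6 := h.three s
      obtain ⟨k, hk⟩ := even_Br (h.sum s)
      omega
    rcases exists_sep (h.sum s) (h.sum t) (h.distinct s t hst h5) with h6 | h6
    · exact Or.inl (key s t h6)
    · exact Or.inr (key t s h6)

end Data

/-- a product of pairings is a product of the statement -/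
private theorem prod_of_pp {K : Type} [Field K] {L : Type} [Field L] [Algebra K L]
    {ι σ : Type} {a : ι → K} {S : σ → Finset ι} {m : σ → ι → ℕ} {n r : ℕ}
    {ξ : ℕ → L} {ζ : AlgebraicClosure ℚ_[2]}
    {E : ∀ s, Tm L 2 a (S s) (m s) →ₗ[ℤ_[2]] Tm L 2 a (S s) (m s) →ₗ[ℤ_[2]] ℤ_[2]}
    (hpair : ∀ s t u, Stm.pairing (algebraMap L[X] _ Polynomial.X) ξ t u =
      E s (InvFinU_tm t) (InvFinU_tm u))
    {g : (Fin r → Fin n → ∀ s, Tm L 2 a (S s) (m s)) → AlgebraicClosure ℚ_[2]}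
    (hg : IsPP E g) :
    Stm.IsProduct (p := 2) (a := a) (S := S) (m := m) ξ ζ fun v => g (InvFinU_eq v) := by
  obtain ⟨k, s, π, β, hv⟩ := hg
  have hmv : ∀ {O : Type} [CommRing O] (t : Stm.Tate 2 O), Stm.mvT (RingEquiv.refl O) t = t := by
    intro O _ t
    refine InvFinU_ext fun n => ?_
    show J.map (RingEquiv.refl O) (t.pt n) = t.pt n
    rw [J.map_refl]
  let π' : (Fin k × Bool) ⊕ (Σ u : Fin 0, Fin ((S (Fin.elim0 u : σ)).card - 1)) ≃ Fin r :=
    (Equiv.sumEmpty (Fin k × Bool) (Σ u : Fin 0, Fin ((S (Fin.elim0 u : σ)).card - 1))).trans π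
  have hπ : ∀ x, π' (.inl x) = π x := fun x => rfl
  refine ⟨k, 0, s, fun _ => 0, fun _ => RingEquiv.refl _, fun u => Fin.elim0 u,
    fun u => Fin.elim0 u, π', β, fun b => ?_, fun u => Fin.elim0 u, fun v => ?_⟩
  · refine InvFinU_auto (fun t => rfl) rfl ?_
    rw [pow_zero, map_one, one_mul]
    rfl
  · refine (hv (InvFinU_eq v)).trans ?_
    rw [Finset.univ_eq_empty (α := Fin 0), Finset.prod_empty, mul_one]
    refine Finset.prod_congr rfl fun b _ => ?_
    rw [hpair, hmv, hπ, hπ]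
    rfl

/-- the Tate functions are a subspace -/
private theorem span_tateE {σ G : Type} [Group G] {M : σ → Type} [∀ s, AddCommGroup (M s)]
    [∀ s, Module ℤ_[2] (M s)] {ρ : ∀ s, G →* Module.End ℤ_[2] (M s)} {χ : G →* ℤ_[2]ˣ}
    {E : Type} [Field E] [Algebra ℤ_[2] E] {n r j : ℕ}
    {f : (Fin r → Fin n → ∀ s, M s) → E}
    (hf : f ∈ Submodule.span E {g | IsTateE ρ χ j g}) : IsTateE ρ χ j f := by
  induction hf using Submodule.span_induction with
  | mem g hg => exact hg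
  | zero => exact ⟨⊤, inferInstance, fun g _ v => by simp⟩
  | add f g _ _ hf hg =>
    obtain ⟨U, hU, hU'⟩ := hf
    obtain ⟨V, hV, hV'⟩ := hg
    refine ⟨U ⊓ V, inferInstance, fun g' hg' v => ?_⟩
    rw [Pi.add_apply, Pi.add_apply, hU' g' hg'.1, hV' g' hg'.2, mul_add]
  | smul c f _ hf =>
    obtain ⟨U, hU, hU'⟩ := hf
    refine ⟨U, hU, fun g' hg' v => ?_⟩
    rw [Pi.smul_apply, Pi.smul_apply, hU' g' hg', smul_eq_mul, smul_eq_mul]
    ring

/-- **The structure of Tate classes** for double coverings. -/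
theorem structure_two {K : Type} [Field K] {L : Type} [Field L] [Algebra K L]
    [Algebra.IsAlgebraic K L] [IsAlgClosed L] {ζ : K}
    (hζ : IsPrimitiveRoot ζ 2) {ι σ : Type} [Fintype ι] [Fintype σ] {a : ι → K}
    {e : σ → Option ι → ZMod 2} {o : σ → Option ι} (h : Generic 2 ζ a e o)
    {ξ : ℕ → L} (hξ : Stm.IsRoots 2 ξ) (hξ1 : ξ 1 = algebraMap K L ζ)
    {ζ' : AlgebraicClosure ℚ_[2]} {n r j : ℕ}
    (F : (Fin r → Stm.Vec L 2 (pt a) (fun s => Sb (e s) (o s)) (fun s => ex (e s)) n) → ℚ_[2])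
    (hF : Stm.IsForm F) :
    Stm.IsTate j F ↔ (fun v => algebraMap ℚ_[2] (AlgebraicClosure ℚ_[2]) (F v)) ∈
      Submodule.span (AlgebraicClosure ℚ_[2]) {g | Stm.IsProduct ξ ζ' g ∧ Stm.IsTateE j g} := by
  have hξ' : IsRoots 2 ξ := ⟨hξ.prim, hξ.pow⟩
  have hdata := fun s => exists_data_two (L := L) hζ (h.cover s) hξ' hξ1
  choose hfin E ρ P hρ he hu h1 h2 h3 h4 using hdata
  have hrep := exists_all_two hζ h hξ' hξ1 h1 h2 h3 h4
  have hf := InvFinU_cop (L := L) (a := pt a) fun s => (h.cover s).degree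
  choose τ' g1 g2 g3 g4 using hρ
  have hτ' : ∀ s (g : L ≃ₐ[K] L), Stm.IsAuto (g : L ≃+* L) 1 (τ' s g) := fun s g =>
    InvFinU_auto (g1 s g) (g2 s g) (by rw [map_one, one_mul]; exact g3 s g)
  have hρ : ∀ s g, InvFinU_acts (ρ s g) (τ' s g) := fun s g => InvFinU_acts_map (g4 s g)
  have hpair : ∀ s t u, Stm.pairing (algebraMap L[X] _ Polynomial.X) ξ t u =
      E s (InvFinU_tm t) (InvFinU_tm u) := fun s t u => InvFinU_pairing hξ' (he s) (hu s) t u
  obtain ⟨F', hF'⟩ := InvFinU_form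
    (O := fun s => Co L 2 (Stm.eqn L (pt a) (Sb (e s) (o s)) (ex (e s)))) hF.add hF.smul
  have e1 := InvFinU_tate hf hτ' hρ j F F' hF'
  have e4 : (fun v => algebraMap ℚ_[2] (AlgebraicClosure ℚ_[2]) (F' (InvFinU_eq v))) =
      fun v => algebraMap ℚ_[2] (AlgebraicClosure ℚ_[2]) (F v) := by
    funext v
    exact congrArg (algebraMap ℚ_[2] (AlgebraicClosure ℚ_[2])) (hF' (InvFinU_eq v))
  constructor
  · intro hT
    have h5 := two_tate hrep (E := AlgebraicClosure ℚ_[2]) F' (e1.1 hT)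
    have h6 := Submodule.mem_map_of_mem (f := LinearMap.funLeft (AlgebraicClosure ℚ_[2])
      (AlgebraicClosure ℚ_[2]) (InvFinU_eq (L := L) (a := pt a)
        (S := fun s => Sb (e s) (o s)) (m := fun s => ex (e s)) (n := n) (r := r))) h5
    rw [Submodule.map_span] at h6
    have h7 : (LinearMap.funLeft (AlgebraicClosure ℚ_[2])
        (AlgebraicClosure ℚ_[2]) (InvFinU_eq (L := L) (a := pt a)
          (S := fun s => Sb (e s) (o s)) (m := fun s => ex (e s)) (n := n) (r := r)))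
        (fun v => algebraMap ℚ_[2] (AlgebraicClosure ℚ_[2]) (F' v)) =
        fun v => algebraMap ℚ_[2] (AlgebraicClosure ℚ_[2]) (F v) := e4
    rw [h7] at h6
    refine Submodule.span_mono ?_ h6
    rintro _ ⟨g, ⟨hg1, hg2⟩, rfl⟩
    exact ⟨prod_of_pp hpair hg1, (InvFinU_tateE hf hτ' hρ j g).1 hg2⟩
  · intro hT
    rw [e1]
    have h5 := InvFinU_span (E := AlgebraicClosure ℚ_[2]) (InvFinU_eq (L := L) (a := pt a)
        (S := fun s => Sb (e s) (o s)) (m := fun s => ex (e s)) (n := n) (r := r))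
      {g | Stm.IsTateE (K := K) j g} {g | IsTateE ρ (chi L 2) j g}
      (fun g' => InvFinU_tateE hf hτ' hρ j g')
      (fun v => algebraMap ℚ_[2] (AlgebraicClosure ℚ_[2]) (F' v))
    have h6 := span_tateE (h5.2 (by
      rw [e4]
      exact Submodule.span_mono (fun g hg => hg.2) hT))
    obtain ⟨U, hU, hU'⟩ := h6
    refine ⟨U, hU, fun g hg v => ?_⟩
    apply (algebraMap ℚ_[2] (AlgebraicClosure ℚ_[2])).injective
    rw [map_mul]
    refine (hU' g hg v).trans ?_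
    congr 1

end Pool.Agent.PTateW
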