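import Pool.Agent.PTateU.OutFinU
import Pool.Agent.PTateW.StmTwo

/-!
# Tate classes on powers of products of Jacobians of cyclic coverings: the structure theorem for all
prime numbers
-/

set_option autoImplicit false

noncomputable section

namespace Pool.Agent.PTateW.Out

open Polynomial
open Pool.Agent.PTate Pool.Agent.PTate.Out Pool.Agent.PTateU Pool.Agent.PTateU.Out
open scoped Classical

/-- **The structure of Tate classes** for all prime numbers. -/
theorem structure_every {K : Type} [Field K] {L : Type} [Field L] [Algebra K L]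
    [Algebra.IsAlgebraic K L] [IsAlgClosed L] {p : ℕ} [Fact p.Prime] {ζ : K}
    (hζ : IsPrimitiveRoot ζ p) {ι σ : Type} [Fintype ι] [Fintype σ] {a : ι → K}
    {e : σ → Option ι → ZMod p} {o : σ → Option ι} (h : PTateU.Generic p ζ a e o)
    {ξ : ℕ → L} (hξ : Stm.IsRoots p ξ) (hξ1 : ξ 1 = algebraMap K L ζ)
    {ζ' : AlgebraicClosure ℚ_[p]} (hζ' : IsPrimitiveRoot ζ' p) {n r j : ℕ}
    (F : (Fin r → Stm.Vec L p (pt a) (fun s => Sb (e s) (o s)) (fun s => ex (e s)) n) → ℚ_[p])
    (hF : Stm.IsForm F) :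
    Stm.IsTate j F ↔ (fun v => algebraMap ℚ_[p] (AlgebraicClosure ℚ_[p]) (F v)) ∈
      Submodule.span (AlgebraicClosure ℚ_[p]) {g | Stm.IsProduct ξ ζ' g ∧ Stm.IsTateE j g} := by
  by_cases hp : p = 2
  · subst hp
    exact structure_two hζ h hξ hξ1 F hF
  · exact PTateU.structure_all hp hζ h hξ hξ1 hζ' F hF

theorem structure_all {K : Type} [Field K] {L : Type} [Field L] [Algebra K L]
    [Algebra.IsAlgebraic K L] [IsAlgClosed L] {p : ℕ} [Fact p.Prime] {ζ : K}
    (hζ : IsPrimitiveRoot ζ p) {ι σ : Type} [Fintype ι] [Fintype σ] {a : ι → K}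
    {e : σ → Option ι → ZMod p} {o : σ → Option ι} (h : PTateU.Generic p ζ a e o)
    {ξ : ℕ → L} (hξ : Stm.IsRoots p ξ) (hξ1 : ξ 1 = algebraMap K L ζ) {ζ' : Qb p}
    (hζ' : IsPrimitiveRoot ζ' p) {n r j : ℕ}
    (F : (Fin r → Vec L p (pt a) (fun s => Sb (e s) (o s)) (fun s => ex (e s)) n) → ℚ_[p])
    (hF : IsForm F) :
    IsTate j F ↔ (fun v => algebraMap ℚ_[p] (Qb p) (F v)) ∈
      Submodule.span (Qb p) {g | IsProduct ξ ζ' g ∧ IsTateE j g} := by
  have key := structure_every hζ h hξ hξ1 (ζ' := ζ') hζ' (j := j)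
    (fun v : Fin r → Stm.Vec L p (pt a) (fun s => Sb (e s) (o s)) (fun s => ex (e s)) n =>
      F fun i => mkV (v i)) (form' hF)
  exact structure_of F key

end Pool.Agent.PTateW.Out
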