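import Pool.Agent.HTate.SpBasic
import Pool.Agent.PTateW.DefsW

/-!
# One double covering: the Lie algebra modulo two
-/

set_option autoImplicit false

noncomputable section

namespace Pool.Agent.PTateW

open Pool.Agent.HTate

variable {ι : Type} [DecidableEq ι] {N : Type} [AddCommGroup N] [Module ℤ_[2] N]
  {S : Finset ι} {e : N →ₗ[ℤ_[2]] N →ₗ[ℤ_[2]] ℤ_[2]} {P : ι → N}

/-- A Lie subalgebra modulo two which contains the transvections of the edges, up to scalars. -/
private structure Sd (S : Finset ι) (e : N →ₗ[ℤ_[2]] N →ₗ[ℤ_[2]] ℤ_[2]) (P : ι → N)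
    (Q : Submodule ℤ_[2] (Module.End ℤ_[2] N)) : Prop where
  lat : Lat (fun _ : Unit => S) (fun _ => e) fun _ => P
  congr : ∀ Z ∈ Q, ∀ Z', Cg1 Z Z' → Z' ∈ Q
  lie : ∀ Z ∈ Q, ∀ Z' ∈ Q, Z * Z' - Z' * Z ∈ Q
  edge : ∀ i ∈ S, ∀ j ∈ S, i ≠ j → ∃ c : ℤ_[2], tv e (P i + P j) + c • 1 ∈ Q

variable {Q : Submodule ℤ_[2] (Module.End ℤ_[2] N)}

private theorem cg_two_smul (Z : Module.End ℤ_[2] N) : Cg1 0 ((2 : ℤ_[2]) • Z) := by
  intro x
  refine ⟨-(Z x), ?_⟩
  simp

private theorem cg_odd (c z : ℤ_[2]) (hc : c = 1 + 2 * z) (Z : Module.End ℤ_[2] N) :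
    Cg1 (c • Z) Z := by
  intro x
  refine ⟨z • Z x, ?_⟩
  rw [LinearMap.smul_apply, hc, add_smul, one_smul, mul_smul]

/-- bracket of two transvections with scalars -/
private theorem av_mem (h : Sd S e P Q) {u w : N} {c c' z : ℤ_[2]}
    (hu : tv e u + c • 1 ∈ Q) (hw : tv e w + c' • 1 ∈ Q)
    (hz : e w u = 1 + 2 * z) : av e u w ∈ Q := by
  have h1 := h.lie _ hu _ hw
  have h2 : (tv e u + c • 1) * (tv e w + c' • 1)
      - (tv e w + c' • 1) * (tv e u + c • 1)
      = tv e u * tv e w - tv e w * tv e u := by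
    simp only [add_mul, mul_add, smul_mul_assoc, mul_smul_comm, one_mul, mul_one, smul_add]
    rw [smul_comm c' c]
    abel
  rw [h2, bracket_tv (isSp_tv (h.lat.skew ()) u) w, tv_apply, av_smul_left] at h1
  exact h.congr _ h1 _ (cg_odd _ z hz _)

private theorem inter_card {i j k : ι} (hik : i ≠ k) :
    (({j, k} : Finset ι) ∩ {i, j}).card = if i = j then 1 else 1 := by
  have : ({j, k} : Finset ι) ∩ {i, j} = {j} := by
    ext x
    simp only [Finset.mem_inter, Finset.mem_insert, Finset.mem_singleton]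
    constructor
    · rintro ⟨h1 | h1, h2 | h2⟩
      · exact h1
      · exact h1
      · exact absurd (h2.symm.trans h1) hik
      · exact h2
    · rintro rfl
      exact ⟨Or.inl rfl, Or.inr rfl⟩
  rw [this]
  simp

private theorem pair_odd (h : Sd S e P Q) {i j k : ι} (hi : i ∈ S) (hj : j ∈ S)
    (hk : k ∈ S) (hij : i ≠ j) (hjk : j ≠ k) (hik : i ≠ k) :
    ∃ z, e (P j + P k) (P i + P j) = 1 + 2 * z := by
  obtain ⟨z, hz⟩ := h.lat.pair_sum () (p := {j, k}) (q := {i, j})
    (by intro x hx; simp only [Finset.mem_insert, Finset.mem_singleton] at hx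
        rcases hx with rfl | rfl <;> assumption)
    (by intro x hx; simp only [Finset.mem_insert, Finset.mem_singleton] at hx
        rcases hx with rfl | rfl <;> assumption)
    (by rw [Finset.card_pair hjk]; exact even_two)
    (by rw [Finset.card_pair hij]; exact even_two)
  rw [Finset.sum_pair hij, Finset.sum_pair hjk, inter_card hik] at hz
  refine ⟨z, ?_⟩
  rw [hz]
  simp

private theorem edge_mem (h : Sd S e P Q) {i j : ι} (hi : i ∈ S) (hj : j ∈ S) :
    ∃ c : ℤ_[2], tv e (P i + P j) + c • 1 ∈ Q := by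
  by_cases hij : i = j
  · subst hij
    refine ⟨0, ?_⟩
    have h1 : tv e (P i + P i) + (0 : ℤ_[2]) • 1 = (2 : ℤ_[2]) • ((2 : ℤ_[2]) • tv e (P i)) := by
      rw [← two_smul ℤ_[2] (P i), tv_smul, zero_smul, add_zero, smul_smul]
      norm_num
    rw [h1]
    exact h.congr _ Q.zero_mem _ (cg_two_smul _)
  · exact h.edge i hi j hj hij

private theorem av_zero_left (w : N) : av e 0 w = 0 := by
  have := av_smul_left (e := e) 0 (0 : N) w
  simpa using this

/-- all `av (v o i) (v o j)` -/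
private theorem av_edge_mem (h : Sd S e P Q) {o i j : ι} (ho : o ∈ S)
    (hi : i ∈ S) (hj : j ∈ S) :
    av e (P o + P i) (P o + P j) ∈ Q := by
  by_cases hoi : o = i
  · subst hoi
    rw [← two_smul ℤ_[2] (P o), av_smul_left]
    exact h.congr _ Q.zero_mem _ (cg_two_smul _)
  by_cases hoj : o = j
  · subst hoj
    rw [← two_smul ℤ_[2] (P o), av_smul_right]
    exact h.congr _ Q.zero_mem _ (cg_two_smul _)
  by_cases hij : i = j
  · subst hij
    rw [av_self]
    exact h.congr _ Q.zero_mem _ (cg_two_smul _)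
  obtain ⟨c, hc⟩ := edge_mem h ho hi
  obtain ⟨c', hc'⟩ := edge_mem h ho hj
  obtain ⟨z, hz⟩ := pair_odd h hi ho hj (Ne.symm hoi) hoj hij
  rw [add_comm (P i)] at hz
  exact av_mem h hc hc' hz

private theorem one_sum_mem (h : Sd S e P Q) {o : ι} (ho : o ∈ S)
    (A : Finset ι) (hA : A ⊆ S) : (∑ i ∈ A, ∑ j ∈ A,
        if i = j then 0 else (e.flip (P o + P i)).smulRight (P o + P j)) ∈ Q := by
  induction A using Finset.induction_on with
  | empty => simp
  | insert a A ha ih =>
    have haS : a ∈ S := hA (Finset.mem_insert_self _ _)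
    have hAS : A ⊆ S := fun x hx => hA (Finset.mem_insert_of_mem hx)
    rw [Finset.sum_insert ha]
    have e1 : (∑ i ∈ A, ∑ j ∈ insert a A,
        if i = j then 0 else (e.flip (P o + P i)).smulRight (P o + P j))
        = ∑ i ∈ A, (e.flip (P o + P i)).smulRight (P o + P a)
        + ∑ i ∈ A, ∑ j ∈ A,
        if i = j then 0 else (e.flip (P o + P i)).smulRight (P o + P j) := by
      rw [← Finset.sum_add_distrib]
      refine Finset.sum_congr rfl fun i hi => ?_
      rw [Finset.sum_insert ha]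
      rw [if_neg (fun hh : i = a => ha (hh ▸ hi))]
    have e2 : (∑ j ∈ insert a A,
        if a = j then 0 else (e.flip (P o + P a)).smulRight (P o + P j))
        = ∑ j ∈ A, (e.flip (P o + P a)).smulRight (P o + P j) := by
      rw [Finset.sum_insert ha, if_pos rfl, zero_add]
      refine Finset.sum_congr rfl fun j hj => ?_
      rw [if_neg (fun hh : a = j => ha (hh ▸ hj))]
    rw [e1, e2, ← add_assoc, ← Finset.sum_add_distrib]
    refine Q.add_mem (Q.sum_mem fun j hj => ?_) (ih hAS)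
    exact av_edge_mem h ho haS (hAS hj)

private theorem exists_mem (h : Sd S e P Q) : ∃ o, o ∈ S := by
  have h1 : S.Nonempty := by
    rw [← Finset.card_pos]
    have := h.lat.three ()
    omega
  exact h1

private theorem one_mem (h : Sd S e P Q) : (1 : Module.End ℤ_[2] N) ∈ Q := by
  obtain ⟨o, ho⟩ := exists_mem h
  exact h.congr _ (one_sum_mem h ho (S.erase o) (Finset.erase_subset _ _)) _
    (h.lat.one_cg () ho).symm

private theorem tv_edge_mem (h : Sd S e P Q) {o i : ι} (ho : o ∈ S)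
    (hi : i ∈ S) : tv e (P o + P i) ∈ Q := by
  obtain ⟨c, hc⟩ := edge_mem h ho hi
  have := Q.sub_mem hc (Q.smul_mem c (one_mem h))
  simpa using this

private theorem av_sum_mem (h : Sd S e P Q) {o : ι} (ho : o ∈ S)
    (R : Finset ι) (hR : R ⊆ S) {j : ι} (hj : j ∈ S) :
    av e (P o + P j) (∑ i ∈ R, (P o + P i)) ∈ Q := by
  induction R using Finset.induction_on with
  | empty =>
    rw [Finset.sum_empty, av_comm, av_zero_left]
    exact Q.zero_mem
  | insert a A ha ih =>
    rw [Finset.sum_insert ha, av_add_right]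
    exact Q.add_mem (av_edge_mem h ho hj (hR (Finset.mem_insert_self _ _)))
      (ih fun x hx => hR (Finset.mem_insert_of_mem hx))

private theorem tv_sum_mem (h : Sd S e P Q) {o : ι} (ho : o ∈ S)
    (R : Finset ι) (hR : R ⊆ S) :
    tv e (∑ i ∈ R, (P o + P i)) ∈ Q := by
  induction R using Finset.induction_on with
  | empty =>
    rw [Finset.sum_empty]
    have : tv e (0 : N) = 0 := by
      have := tv_smul (e := e) 0 (0 : N)
      simpa using this
    rw [this]
    exact Q.zero_mem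
  | insert a A ha ih =>
    have hAS : A ⊆ S := fun x hx => hR (Finset.mem_insert_of_mem hx)
    have haS : a ∈ S := hR (Finset.mem_insert_self _ _)
    rw [Finset.sum_insert ha, tv_add]
    exact Q.add_mem (Q.add_mem (tv_edge_mem h ho haS) (ih hAS))
      (av_sum_mem h ho A hAS haS)

private theorem tv_mem (h : Sd S e P Q) (u : N) : tv e u ∈ Q := by
  obtain ⟨o, ho⟩ := exists_mem h
  obtain ⟨R, y, hR, ⟨m, hm⟩, hu⟩ := h.lat.gen_even () u
  refine h.congr _ (tv_sum_mem h ho R hR) _ (Cg1.tv ⟨(m : ℤ_[2]) • P o - y, ?_⟩)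
  rw [hu, Finset.sum_add_distrib, Finset.sum_const, hm, smul_sub, smul_smul]
  have : (m + m) • P o = (2 * (m : ℤ_[2])) • P o := by
    rw [← Nat.cast_smul_eq_nsmul ℤ_[2]]
    congr 1
    push_cast
    ring
  rw [this]
  abel

/-- the Lie algebra is the full symplectic Lie algebra, modulo two -/
theorem single_full [Module.Finite ℤ_[2] N] [Module.IsTorsionFree ℤ_[2] N]
    (hlat : Lat (fun _ : Unit => S) (fun _ => e) fun _ => P)
    (Q : Submodule ℤ_[2] (Module.End ℤ_[2] N)) (hcongr : ∀ Z ∈ Q, ∀ Z', Cg1 Z Z' → Z' ∈ Q)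
    (hlie : ∀ Z ∈ Q, ∀ Z' ∈ Q, Z * Z' - Z' * Z ∈ Q)
    (hedge : ∀ i ∈ S, ∀ j ∈ S, i ≠ j → ∃ c : ℤ_[2], tv e (P i + P j) + c • 1 ∈ Q)
    {Z : Module.End ℤ_[2] N} (hZ : IsSp e Z) : Z ∈ Q := by
  have h : Sd S e P Q := ⟨hlat, hcongr, hlie, hedge⟩
  have h1 := hlat.sp_span () hZ
  have h2 : Submodule.span ℤ_[2] (Set.range (tv e)) ≤ Q := by
    rw [Submodule.span_le]
    rintro _ ⟨u, rfl⟩
    exact tv_mem h u
  exact h2 h1

end Pool.Agent.PTateW
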